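import Pool.Agent.Helper33K9.FQ.St

set_option autoImplicit false

/-! # Linear parts of power series, and the power series in the variable `x` -/

namespace Pool.Agent.Helper33K9.FQ

open MvPowerSeries

section

variable {σ : Type}

theorem lin_eq (F : MvPowerSeries σ ℂ) (k : σ) : lin F k = constantCoeff (pderiv ℂ k F) := by
  rw [← coeff_zero_eq_constantCoeff_apply, coeff_pderiv]
  simp [lin]

theorem lin_add (F G : MvPowerSeries σ ℂ) : lin (F + G) = lin F + lin G := by
  funext k
  simp [lin]

theorem lin_zero : lin (0 : MvPowerSeries σ ℂ) = 0 := by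
  funext k
  simp [lin]

theorem lin_sum {ι : Type} (s : Finset ι) (F : ι → MvPowerSeries σ ℂ) :
    lin (∑ i ∈ s, F i) = ∑ i ∈ s, lin (F i) := by
  classical
  induction s using Finset.induction_on with
  | empty => simp [lin_zero]
  | insert a s ha ih => rw [Finset.sum_insert ha, Finset.sum_insert ha, lin_add, ih]

theorem lin_mul (F G : MvPowerSeries σ ℂ) :
    lin (F * G) = constantCoeff F • lin G + constantCoeff G • lin F := by
  funext k
  rw [lin_eq, Derivation.leibniz, map_add, smul_eq_mul, smul_eq_mul, map_mul, map_mul,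
    Pi.add_apply, Pi.smul_apply, Pi.smul_apply, lin_eq, lin_eq, smul_eq_mul, smul_eq_mul]

theorem lin_X [DecidableEq σ] (i : σ) : lin (X i : MvPowerSeries σ ℂ) = Pi.single i 1 := by
  funext k
  rw [lin_eq, pderiv_X]
  by_cases h : k = i
  · subst h
    simp
  · rw [Pi.single_eq_of_ne (Ne.symm h), Pi.single_eq_of_ne h, map_zero]

theorem lin_pow_two {F : MvPowerSeries σ ℂ} (h : constantCoeff F = 0) : lin (F ^ 2) = 0 := by
  rw [pow_two, lin_mul, h, zero_smul, add_zero]

end

section

variable {n : ℕ}

theorem ix_X : ix n PowerSeries.X = X none := by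
  unfold ix
  exact PowerSeries.substAlgHom_X _

theorem ix_decomp (a : PowerSeries ℂ) : ∃ a' : PowerSeries ℂ,
    a = PowerSeries.C (PowerSeries.constantCoeff a) + PowerSeries.X * a' ∧
    ix n a = C (PowerSeries.constantCoeff a) + X none * ix n a' := by
  have h := PowerSeries.eq_X_mul_shift_add_const a
  refine ⟨PowerSeries.mk fun p => (PowerSeries.coeff (p + 1)) a, ?_, ?_⟩
  · rw [add_comm]
    exact h
  · conv_lhs => rw [h]
    rw [map_add, map_mul, ix_X, add_comm]
    congr 1
    have := (ix n).commutes (PowerSeries.constantCoeff a)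
    exact this

theorem cc_ix (a : PowerSeries ℂ) : constantCoeff (ix n a) = PowerSeries.constantCoeff a := by
  obtain ⟨a', -, h⟩ := ix_decomp (n := n) a
  rw [h, map_add, map_mul, constantCoeff_C, constantCoeff_X, zero_mul, add_zero]

theorem lin_ix (a : PowerSeries ℂ) : ∃ c : ℂ, lin (ix n a) = c • (Pi.single none 1 : Option (Fin n) → ℂ) := by
  classical
  obtain ⟨a', -, h⟩ := ix_decomp (n := n) a
  refine ⟨constantCoeff (ix n a'), ?_⟩
  rw [h, lin_add, lin_mul, lin_X, constantCoeff_X, zero_smul, zero_add]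
  have : lin (C (PowerSeries.constantCoeff a) : MvPowerSeries (Option (Fin n)) ℂ) = 0 := by
    funext k
    rw [lin_eq, pderiv_C, map_zero]
    rfl
  rw [this, zero_add]

theorem isUnit_ix {a : PowerSeries ℂ} (h : PowerSeries.constantCoeff a ≠ 0) :
    IsUnit (ix n a) := by
  rw [MvPowerSeries.isUnit_iff_constantCoeff, cc_ix]
  exact isUnit_iff_ne_zero.2 h

/-- the order of a power series -/
theorem exists_ord {a : PowerSeries ℂ} (h : a ≠ 0) : ∃ (e : ℕ) (u : PowerSeries ℂ),
    a = PowerSeries.X ^ e * u ∧ PowerSeries.constantCoeff u ≠ 0 := by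
  obtain ⟨u, hu⟩ := PowerSeries.X_pow_order_dvd (φ := a)
  refine ⟨a.order.toNat, u, hu, fun h0 => ?_⟩
  have h1 := PowerSeries.coeff_order h
  rw [hu] at h1
  rw [← hu] at h1
  have h2 : PowerSeries.coeff a.order.toNat (PowerSeries.X ^ a.order.toNat * u) =
      PowerSeries.coeff 0 u := by
    have := PowerSeries.coeff_X_pow_mul u a.order.toNat 0
    rwa [zero_add] at this
  rw [← hu] at h2
  rw [h2] at h1
  apply h1
  rw [PowerSeries.coeff_zero_eq_constantCoeff_apply]
  exact h0

end

end Pool.Agent.Helper33K9.FQ
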