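import Pool.Agent.Helper33K9.FQ.St2
import Pool.Agent.Helper33K9.FQ.Lin

/-!
[ASM] sums of monomials in coordinates, with coefficients which are units, are formally sparse when
the exponents are independent in the block variables.
-/

set_option autoImplicit false

namespace Pool.Agent.Helper33K9.FQ

namespace AsmL

open MvPowerSeries

variable {Ω : Type} [Fintype Ω]

theorem fs_of (inv : S_INV) (F : MvPowerSeries Ω ℂ) (y : Ω → MvPowerSeries Ω ℂ) (hy : Coords y)
    {ι : Type} [Fintype ι] (m : ι → Ω → ℕ)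
    (hl : LinearIndependent ℚ (fun j i => (m j i : ℚ)))
    (hF : F = ∑ j, ∏ i, y i ^ m j i) : FS F := by
  classical
  obtain ⟨Φ, hΦ⟩ := inv Ω y hy.1 (by
    intro i
    have := hy.2 i
    convert this)
  let e := (Fintype.equivFin ι).symm
  refine ⟨Φ, Fintype.card ι, fun j => m (e j), ?_, ?_⟩
  · exact hl.comp e e.injective
  · have h1 : ((∑ j, ∏ i, MvPolynomial.X i ^ m (e j) i : MvPolynomial Ω ℂ) :
        MvPowerSeries Ω ℂ) = ∑ j, ∏ i, X i ^ m (e j) i := by
      rw [← MvPolynomial.coeToMvPowerSeries.ringHom_apply, map_sum]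
      refine Finset.sum_congr rfl fun j _ => ?_
      rw [map_prod]
      refine Finset.prod_congr rfl fun i _ => ?_
      rw [map_pow, MvPolynomial.coeToMvPowerSeries.ringHom_apply, MvPolynomial.coe_X]
    rw [h1, map_sum, hF]
    rw [← Equiv.sum_comp e fun j => ∏ i, y i ^ m j i]
    refine Finset.sum_congr rfl fun j _ => ?_
    rw [map_prod]
    refine Finset.prod_congr rfl fun i _ => ?_
    rw [map_pow, hΦ]

theorem cc_unit (U : (MvPowerSeries Ω ℂ)ˣ) : constantCoeff (U : MvPowerSeries Ω ℂ) ≠ 0 := by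
  have h := U.isUnit
  rw [isUnit_iff_constantCoeff] at h
  exact h.ne_zero

theorem coords_mul (y : Ω → MvPowerSeries Ω ℂ) (hy : Coords y) (U : Ω → (MvPowerSeries Ω ℂ)ˣ) :
    Coords fun ω => y ω * (U ω : MvPowerSeries Ω ℂ) := by
  refine ⟨fun ω => by rw [map_mul, hy.1, zero_mul], fun ω => ?_⟩
  refine Submodule.span_le.2 ?_ (hy.2 ω)
  rintro _ ⟨k, rfl⟩
  have h1 : lin (y k * (U k : MvPowerSeries Ω ℂ)) =
      constantCoeff (U k : MvPowerSeries Ω ℂ) • lin (y k) := by
    rw [lin_mul, hy.1, zero_smul, zero_add]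
  have h2 : lin (y k) = (constantCoeff (U k : MvPowerSeries Ω ℂ))⁻¹ •
      lin (y k * (U k : MvPowerSeries Ω ℂ)) := by
    rw [h1, smul_smul, inv_mul_cancel₀ (cc_unit _), one_smul]
  change lin (y k) ∈ Submodule.span ℂ _
  rw [h2]
  exact Submodule.smul_mem _ _ (Submodule.subset_span ⟨k, rfl⟩)

theorem root_unit (root : S_ROOT) (u : (MvPowerSeries Ω ℂ)ˣ) (k : ℕ) (hk : 0 < k) :
    ∃ v : (MvPowerSeries Ω ℂ)ˣ, v ^ k = u := by
  obtain ⟨v, hv⟩ := root Ω u k hk (cc_unit u)
  have h1 : IsUnit v := by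
    rw [← isUnit_pow_iff hk.ne', hv]
    exact u.isUnit
  obtain ⟨v', rfl⟩ := h1
  refine ⟨v', Units.ext ?_⟩
  rw [Units.val_pow_eq_pow_val]
  exact hv

theorem prod_zpow_sum {G τ : Type} [CommGroup G] (r : G) (f : τ → ℤ) (s : Finset τ) :
    ∏ i ∈ s, r ^ f i = r ^ (∑ i ∈ s, f i) := by
  classical
  induction s using Finset.induction_on with
  | empty => rw [Finset.prod_empty, Finset.sum_empty, zpow_zero]
  | insert a s ha ih => rw [Finset.prod_insert ha, Finset.sum_insert ha, zpow_add, ih]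

section

variable {S σ J : Type} [Fintype S] [Fintype σ] [Fintype J]

theorem prod_split {M : Type} [CommMonoid M] (E : S ⊕ σ ≃ Ω) (f : Ω → M) :
    ∏ ω, f ω = (∏ s, f (E (Sum.inl s))) * ∏ i, f (E (Sum.inr i)) := by
  rw [← Equiv.prod_comp E f, Fintype.prod_sum_type]

theorem li_sub (E : S ⊕ σ ≃ Ω) (m : J → σ → ℕ)
    (hm : LinearIndependent ℚ (fun j i => (m j i : ℚ))) (a : J → S → ℕ) :
    LinearIndependent ℚ (fun (j : J) (ω : Ω) => ((Sum.elim (a j) (m j) (E.symm ω) : ℕ) : ℚ)) := by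
  let π : (Ω → ℚ) →ₗ[ℚ] (σ → ℚ) := LinearMap.funLeft ℚ ℚ fun i => E (Sum.inr i)
  refine LinearIndependent.of_comp π ?_
  convert hm using 1
  funext j i
  change ((Sum.elim (a j) (m j) (E.symm (E (Sum.inr i))) : ℕ) : ℚ) = _
  rw [E.symm_apply_apply, Sum.elim_inr]

theorem li_opt (E : S ⊕ σ ≃ Ω) (m : J → σ → ℕ)
    (hm : LinearIndependent ℚ (fun j i => (m j i : ℚ))) (a : J → S → ℕ) (γ : S → ℕ) (hγ : γ ≠ 0) :
    LinearIndependent ℚ (fun (o : Option J) (ω : Ω) =>
      ((Sum.elim (o.elim γ a) (o.elim 0 m) (E.symm ω) : ℕ) : ℚ)) := by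
  classical
  have hs := li_sub E m hm a
  rw [Fintype.linearIndependent_iff] at hm ⊢
  intro g hg
  rw [Fintype.sum_option] at hg
  have h1 : ∀ j, g (some j) = 0 := by
    refine hm (fun j => g (some j)) ?_
    funext i
    have h2 := congrFun hg (E (Sum.inr i))
    rw [Pi.add_apply, Pi.smul_apply, Finset.sum_apply] at h2
    rw [Finset.sum_apply]
    simpa using h2
  intro o
  rcases o with _ | j
  · obtain ⟨s, hs⟩ : ∃ s, γ s ≠ 0 := by
      by_contra h
      push Not at h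
      exact hγ (funext h)
    have h2 := congrFun hg (E (Sum.inl s))
    rw [Pi.add_apply, Pi.smul_apply, Finset.sum_apply] at h2
    simp only [h1] at h2
    simpa [hs] using h2
  · exact h1 j

end

end AsmL

open AsmL in
theorem asm (inv : S_INV) (root : S_ROOT) (wt : S_WT) : S_ASM := by
  classical
  intro Ω S σ κ ι _ _ _ _ _ _ E y hy m hm own blk hblk e u hu γ u₀ hu₀
  obtain ⟨w, D, hD, hw⟩ := wt σ ι m hm
  -- the units for the first variables
  obtain ⟨V, hV⟩ : ∃ V : S → (MvPowerSeries Ω ℂ)ˣ, u₀ = 0 ∨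
      (γ ≠ 0 ∧ (∏ s, (V s : MvPowerSeries Ω ℂ) ^ γ s) = u₀) := by
    rcases hu₀ with h | ⟨h1, h2⟩
    · exact ⟨fun _ => 1, Or.inl h⟩
    · obtain ⟨s₀, hs₀⟩ : ∃ s, γ s ≠ 0 := by
        by_contra h
        push Not at h
        exact h1 (funext h)
      have h3 : IsUnit u₀ := by
        rw [MvPowerSeries.isUnit_iff_constantCoeff]
        exact isUnit_iff_ne_zero.2 h2
      obtain ⟨u', hu'⟩ := h3
      obtain ⟨v, hv⟩ := root_unit root u' (γ s₀) (Nat.pos_of_ne_zero hs₀)
      refine ⟨Function.update (fun _ => 1) s₀ v, Or.inr ⟨h1, ?_⟩⟩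
      rw [Finset.prod_eq_single s₀]
      · rw [Function.update_self, ← Units.val_pow_eq_pow_val, hv, hu']
      · intro s _ hs
        rw [Function.update_of_ne hs, Units.val_one, one_pow]
      · intro h
        exact absurd (Finset.mem_univ _) h
  -- the units for the blocks
  have hR : ∀ k, ∃ R : (MvPowerSeries Ω ℂ)ˣ, u k ≠ 0 →
      ((R ^ D : (MvPowerSeries Ω ℂ)ˣ) : MvPowerSeries Ω ℂ) *
        ∏ s, (V s : MvPowerSeries Ω ℂ) ^ e k s = u k := by
    intro k
    rcases hu k with h | h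
    · exact ⟨1, fun h' => absurd h h'⟩
    · have h3 : IsUnit (u k) := by
        rw [MvPowerSeries.isUnit_iff_constantCoeff]
        exact isUnit_iff_ne_zero.2 h
      obtain ⟨u', hu'⟩ := h3
      obtain ⟨R, hR⟩ := root_unit root (u' * (∏ s, V s ^ e k s)⁻¹) D hD
      refine ⟨R, fun _ => ?_⟩
      have h4 : (∏ s, (V s : MvPowerSeries Ω ℂ) ^ e k s) =
          ((∏ s, V s ^ e k s : (MvPowerSeries Ω ℂ)ˣ) : MvPowerSeries Ω ℂ) := by
        push_cast
        rfl
      rw [h4, ← Units.val_mul, hR, inv_mul_cancel_right, hu']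
  choose R hR using hR
  let W : σ → (MvPowerSeries Ω ℂ)ˣ := fun i => R (blk i) ^ w i
  let U : Ω → (MvPowerSeries Ω ℂ)ˣ := fun ω => Sum.elim V W (E.symm ω)
  have hUl : ∀ s, U (E (Sum.inl s)) = V s := fun s => by
    change Sum.elim V W (E.symm (E (Sum.inl s))) = _
    rw [E.symm_apply_apply, Sum.elim_inl]
  have hUr : ∀ i, U (E (Sum.inr i)) = W i := fun i => by
    change Sum.elim V W (E.symm (E (Sum.inr i))) = _
    rw [E.symm_apply_apply, Sum.elim_inr]
  have hy' := coords_mul y hy U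
  have hW : ∀ j, (∏ i, (W i : MvPowerSeries Ω ℂ) ^ m j i) =
      ((R (own j) ^ D : (MvPowerSeries Ω ℂ)ˣ) : MvPowerSeries Ω ℂ) := by
    intro j
    have h1 : (∏ i, W i ^ m j i) = R (own j) ^ D := by
      have h2 : ∀ i, W i ^ m j i = R (own j) ^ (w i * (m j i : ℤ)) := by
        intro i
        by_cases h : m j i = 0
        · rw [h, pow_zero, Nat.cast_zero, mul_zero, zpow_zero]
        · change (R (blk i) ^ w i) ^ m j i = _
          rw [hblk j i h, zpow_mul, zpow_natCast]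
      rw [Finset.prod_congr rfl fun i _ => h2 i, prod_zpow_sum, hw j, zpow_natCast]
    rw [← h1]
    push_cast
    rfl
  have key : ∀ (a : S → ℕ) (b : σ → ℕ),
      ∏ ω, (y ω * (U ω : MvPowerSeries Ω ℂ)) ^ (Sum.elim a b (E.symm ω) : ℕ) =
      ((∏ s, y (E (Sum.inl s)) ^ a s) * ∏ s, (V s : MvPowerSeries Ω ℂ) ^ a s) *
      ((∏ i, y (E (Sum.inr i)) ^ b i) * ∏ i, (W i : MvPowerSeries Ω ℂ) ^ b i) := by
    intro a b
    rw [prod_split E, ← Finset.prod_mul_distrib, ← Finset.prod_mul_distrib]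
    congr 1
    · refine Finset.prod_congr rfl fun s _ => ?_
      rw [hUl, E.symm_apply_apply, Sum.elim_inl, mul_pow]
    · refine Finset.prod_congr rfl fun i _ => ?_
      rw [hUr, E.symm_apply_apply, Sum.elim_inr, mul_pow]
  have hF : (∑ k, u k * (∏ s, y (E (Sum.inl s)) ^ e k s) *
          ∑ j, if own j = k then ∏ i, y (E (Sum.inr i)) ^ m j i else 0) =
      ∑ j : {j : ι // u (own j) ≠ 0}, ∏ ω, (y ω * (U ω : MvPowerSeries Ω ℂ)) ^
        (Sum.elim (e (own j)) (m j) (E.symm ω) : ℕ) := by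
    have h1 : ∀ k, (u k * (∏ s, y (E (Sum.inl s)) ^ e k s) *
          ∑ j, if own j = k then ∏ i, y (E (Sum.inr i)) ^ m j i else 0) =
        ∑ j, if own j = k then u (own j) * (∏ s, y (E (Sum.inl s)) ^ e (own j) s) *
          ∏ i, y (E (Sum.inr i)) ^ m j i else 0 := by
      intro k
      rw [Finset.mul_sum]
      refine Finset.sum_congr rfl fun j _ => ?_
      split_ifs with h
      · rw [h]
      · rw [mul_zero]
    rw [Finset.sum_congr rfl fun k _ => h1 k, Finset.sum_comm]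
    have h2 : ∀ j, (∑ k, if own j = k then u (own j) * (∏ s, y (E (Sum.inl s)) ^ e (own j) s) *
          ∏ i, y (E (Sum.inr i)) ^ m j i else 0) = u (own j) *
          (∏ s, y (E (Sum.inl s)) ^ e (own j) s) * ∏ i, y (E (Sum.inr i)) ^ m j i := by
      intro j
      rw [Finset.sum_ite_eq, if_pos (Finset.mem_univ _)]
    rw [Finset.sum_congr rfl fun j _ => h2 j]
    rw [← Finset.sum_subtype (Finset.univ.filter fun j => u (own j) ≠ 0) (by simp)
      fun j => ∏ ω, (y ω * (U ω : MvPowerSeries Ω ℂ)) ^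
        (Sum.elim (e (own j)) (m j) (E.symm ω) : ℕ), Finset.sum_filter]
    refine Finset.sum_congr rfl fun j _ => ?_
    by_cases h : u (own j) = 0
    · rw [if_neg (not_not.2 h), h, zero_mul, zero_mul]
    · rw [if_pos h, key, hW]
      conv_lhs => rw [← hR (own j) h]
      ring
  have hli : LinearIndependent ℚ (fun (j : {j : ι // u (own j) ≠ 0}) i => (m j i : ℚ)) :=
    hm.comp (fun j : {j : ι // u (own j) ≠ 0} => (j : ι)) Subtype.val_injective
  rcases hV with h0 | ⟨hγ, h0⟩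
  · rw [h0, zero_mul, add_zero, hF]
    exact fs_of inv _ _ hy' _ (li_sub E _ hli fun j => e (own j)) rfl
  · refine fs_of inv _ _ hy' _ (li_opt E _ hli (fun j => e (own j)) γ hγ) ?_
    rw [Fintype.sum_option, hF, add_comm]
    congr 1
    rw [Option.elim_none, Option.elim_none, key, h0]
    simp only [Pi.zero_apply, pow_zero, Finset.prod_const_one, mul_one]
    ring

end Pool.Agent.Helper33K9.FQ
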