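import Pool.Agent.Helper33K9.FQ.St

/-!
[AUT] isomorphisms of rings of formal power series do not decrease the order.
-/

set_option autoImplicit false

namespace Pool.Agent.Helper33K9.FQ

namespace AutL

open MvPowerSeries

variable {σ : Type} [Fintype σ]

/-- a power series without terms of degree at most `k` is a combination of the variables with
coefficients without terms of degree less than `k` -/
theorem split (F : MvPowerSeries σ ℂ) (k : ℕ) (h : ((k + 1 : ℕ) : ℕ∞) ≤ F.order) :
    ∃ G : σ → MvPowerSeries σ ℂ, F = ∑ i, X i * G i ∧ ∀ i, (k : ℕ∞) ≤ (G i).order := by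
  classical
  have hch : ∀ d : σ →₀ ℕ, d ≠ 0 → ∃ i, d i ≠ 0 := fun d hd => by
    obtain ⟨i, hi⟩ := Finsupp.ne_iff.1 hd
    exact ⟨i, hi⟩
  let ch : (σ →₀ ℕ) → σ → Prop := fun d i => ∃ h : d ≠ 0, (hch d h).choose = i
  let G : σ → MvPowerSeries σ ℂ := fun i e =>
    if ch (e + Finsupp.single i 1) i then coeff (e + Finsupp.single i 1) F else 0
  have hG : ∀ i e, coeff e (G i) = if ch (e + Finsupp.single i 1) i then
    coeff (e + Finsupp.single i 1) F else 0 := fun i e => rfl
  refine ⟨G, ?_, fun i => ?_⟩
  · ext d
    rw [map_sum]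
    have h1 : ∀ i, coeff d (X i * G i) = if ch d i then coeff d F else 0 := by
      intro i
      change coeff d (monomial (Finsupp.single i 1) 1 * G i) = _
      rw [coeff_monomial_mul]
      by_cases hle : Finsupp.single i 1 ≤ d
      · rw [if_pos hle, one_mul, hG, tsub_add_cancel_of_le hle]
      · rw [if_neg hle, if_neg]
        rintro ⟨h0, h1⟩
        apply hle
        rw [Finsupp.single_le_iff]
        have h2 := (hch d h0).choose_spec
        rw [h1] at h2
        exact Nat.one_le_iff_ne_zero.2 h2
    simp only [h1]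
    by_cases h0 : d = 0
    · have h2 : coeff d F = 0 := by
        apply coeff_of_lt_order
        refine lt_of_lt_of_le ?_ h
        rw [h0, map_zero]
        exact_mod_cast Nat.succ_pos k
      simp only [h2, ite_self, Finset.sum_const_zero]
    · rw [Finset.sum_eq_single (hch d h0).choose]
      · rw [if_pos ⟨h0, rfl⟩]
      · intro i _ hi
        rw [if_neg]
        rintro ⟨_, h1⟩
        exact hi h1.symm
      · intro h; exact absurd (Finset.mem_univ _) h
  · apply nat_le_order
    intro d hd
    rw [hG]
    split_ifs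
    · apply coeff_of_lt_order
      refine lt_of_lt_of_le ?_ h
      rw [map_add, Finsupp.degree_single]
      exact_mod_cast Nat.succ_lt_succ hd
    · rfl

theorem le_order_sum {τ ι : Type} (s : Finset ι) (f : ι → MvPowerSeries τ ℂ) (n : ℕ∞)
    (h : ∀ i ∈ s, n ≤ (f i).order) : n ≤ (∑ i ∈ s, f i).order := by
  classical
  induction s using Finset.induction_on with
  | empty => rw [Finset.sum_empty, order_zero]; exact le_top
  | insert a s ha ih =>
    rw [Finset.sum_insert ha]
    exact (le_min (h a (Finset.mem_insert_self _ _))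
      (ih fun i hi => h i (Finset.mem_insert_of_mem hi))).trans min_order_le_add

omit [Fintype σ] in
theorem one_le_order_image {τ : Type} (Φ : MvPowerSeries σ ℂ ≃ₐ[ℂ] MvPowerSeries τ ℂ) (i : σ) :
    1 ≤ (Φ (X i)).order := by
  rw [one_le_order_iff_constCoeff_eq_zero]
  by_contra h
  have h1 : IsUnit (Φ (X i)) := by
    rw [isUnit_iff_constantCoeff]
    exact isUnit_iff_ne_zero.2 h
  have h2 : IsUnit (X i : MvPowerSeries σ ℂ) := by
    have h3 := h1.map Φ.symm
    rwa [AlgEquiv.symm_apply_apply] at h3
  rw [isUnit_iff_constantCoeff, constantCoeff_X] at h2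
  exact not_isUnit_zero h2

theorem order_image {τ : Type} (Φ : MvPowerSeries σ ℂ ≃ₐ[ℂ] MvPowerSeries τ ℂ) (k : ℕ) :
    ∀ F : MvPowerSeries σ ℂ, (k : ℕ∞) ≤ F.order → (k : ℕ∞) ≤ (Φ F).order := by
  induction k with
  | zero => intro F _; exact_mod_cast zero_le
  | succ k ih =>
    intro F hF
    obtain ⟨G, h1, h2⟩ := split F k hF
    rw [h1, map_sum]
    apply le_order_sum
    intro i _
    rw [map_mul]
    refine le_trans ?_ le_order_mul
    push_cast
    rw [add_comm]
    exact add_le_add (one_le_order_image Φ i) (ih _ (h2 i))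

/-- a derivation which kills the variables is zero -/
theorem der_zero (D : Derivation ℂ (MvPowerSeries σ ℂ) (MvPowerSeries σ ℂ))
    (hD : ∀ i, D (X i) = 0) (F : MvPowerSeries σ ℂ) : D F = 0 := by
  have key : ∀ (k : ℕ) (F : MvPowerSeries σ ℂ), (k : ℕ∞) ≤ (D F).order := by
    intro k
    induction k with
    | zero => intro F; exact_mod_cast zero_le
    | succ k ih =>
      intro F
      have h0 : ((0 + 1 : ℕ) : ℕ∞) ≤ (F - C (constantCoeff F)).order := by
        have : (1 : ℕ∞) ≤ (F - C (constantCoeff F)).order := by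
          rw [one_le_order_iff_constCoeff_eq_zero, map_sub, constantCoeff_C, sub_self]
        exact_mod_cast this
      obtain ⟨G, h1, _⟩ := split (F - C (constantCoeff F)) 0 h0
      have h2 : F = ∑ i, X i * G i + C (constantCoeff F) := by rw [← h1]; ring
      have h3 : D (C (constantCoeff F) : MvPowerSeries σ ℂ) = 0 := by
        have h4 : (C (constantCoeff F) : MvPowerSeries σ ℂ)
            = algebraMap ℂ (MvPowerSeries σ ℂ) (constantCoeff F) := rfl
        rw [h4, Derivation.map_algebraMap]
      rw [h2, map_add, h3, add_zero, map_sum]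
      apply le_order_sum
      intro i _
      rw [Derivation.leibniz, hD i, smul_zero, add_zero, smul_eq_mul]
      refine le_trans ?_ le_order_mul
      push_cast
      rw [add_comm]
      refine add_le_add ?_ (ih _)
      rw [one_le_order_iff_constCoeff_eq_zero, constantCoeff_X]
  rw [← order_eq_top_iff]
  exact ENat.eq_top_iff_forall_ge.2 fun m => key m F

end AutL

open AutL in
theorem aut : S_AUT := by
  intro σ τ _ _ Φ F
  exact ENat.forall_natCast_le_iff_le.1 fun k hk => order_image Φ k F hk

end Pool.Agent.Helper33K9.FQ
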