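import Pool.Agent.Helper33K9.FQ.St

set_option autoImplicit false
set_option linter.unusedSectionVars false
set_option linter.unusedVariables false

/-! # Invariance of the local functional equations under formal changes of coordinates -/

namespace Pool.Agent.Helper33K9.FQ.BfL

open Pool.Agent.H628R4.TP

variable {σ τ : Type}

/-- the partial derivative as an endomorphism -/
noncomputable def pd (j : τ) : Module.End ℂ (MvPowerSeries τ ℂ) :=
  ((MvPowerSeries.pderiv ℂ j : Derivation ℂ (MvPowerSeries τ ℂ) (MvPowerSeries τ ℂ)) :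
    MvPowerSeries τ ℂ →ₗ[ℂ] MvPowerSeries τ ℂ)

theorem pd_apply (j : τ) (F : MvPowerSeries τ ℂ) : pd j F = MvPowerSeries.pderiv ℂ j F := rfl

/-- the monomials in the partial derivatives -/
noncomputable def SS (τ : Type) : Submonoid (Module.End ℂ (MvPowerSeries τ ℂ)) :=
  Submonoid.closure (Set.range pd)

/-- the differential operators with power series coefficients -/
noncomputable def EE (τ : Type) : Submodule (MvPowerSeries τ ℂ)
    (Module.End ℂ (MvPowerSeries τ ℂ)) :=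
  Submodule.span (MvPowerSeries τ ℂ) (SS τ : Set (Module.End ℂ (MvPowerSeries τ ℂ)))

theorem one_mem_EE : (1 : Module.End ℂ (MvPowerSeries τ ℂ)) ∈ EE τ :=
  Submodule.subset_span (SS τ).one_mem

theorem pd_mem_EE (j : τ) : pd j ∈ EE τ :=
  Submodule.subset_span (Submonoid.subset_closure ⟨j, rfl⟩)

theorem pd_mul_mem (j : τ) {L : Module.End ℂ (MvPowerSeries τ ℂ)} (hL : L ∈ EE τ) :
    pd j * L ∈ EE τ := by
  unfold EE at hL
  induction hL using Submodule.span_induction with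
  | mem x hx =>
    exact Submodule.subset_span ((SS τ).mul_mem (Submonoid.subset_closure ⟨j, rfl⟩) hx)
  | zero => rw [mul_zero]; exact Submodule.zero_mem _
  | add x y _ _ hx hy => rw [mul_add]; exact Submodule.add_mem _ hx hy
  | smul a x hx0 hx =>
    have h1 : pd j * (a • x) = a • (pd j * x) + (MvPowerSeries.pderiv ℂ j a) • x := by
      refine LinearMap.ext fun F => ?_
      rw [Module.End.mul_apply, LinearMap.smul_apply, LinearMap.add_apply, LinearMap.smul_apply,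
        LinearMap.smul_apply, Module.End.mul_apply, pd_apply, pd_apply, smul_eq_mul, smul_eq_mul,
        smul_eq_mul, Derivation.leibniz, smul_eq_mul, smul_eq_mul, mul_comm (x F)]
    rw [h1]
    exact Submodule.add_mem _ (Submodule.smul_mem _ _ hx) (Submodule.smul_mem _ _ hx0)

theorem SS_mul_mem {w : Module.End ℂ (MvPowerSeries τ ℂ)} (hw : w ∈ SS τ)
    {L : Module.End ℂ (MvPowerSeries τ ℂ)} (hL : L ∈ EE τ) : w * L ∈ EE τ := by
  unfold SS at hw
  induction hw using Submonoid.closure_induction generalizing L with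
  | mem x hx =>
    obtain ⟨j, rfl⟩ := hx
    exact pd_mul_mem j hL
  | one => rw [one_mul]; exact hL
  | mul x y _ _ hx hy => rw [mul_assoc]; exact hx (hy hL)

theorem EE_mul_mem {K L : Module.End ℂ (MvPowerSeries τ ℂ)} (hK : K ∈ EE τ) (hL : L ∈ EE τ) :
    K * L ∈ EE τ := by
  unfold EE at hK
  induction hK using Submodule.span_induction with
  | mem x hx => exact SS_mul_mem hx hL
  | zero => rw [zero_mul]; exact Submodule.zero_mem _
  | add x y _ _ hx hy => rw [add_mul]; exact Submodule.add_mem _ hx hy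
  | smul a x _ hx =>
    have h1 : (a • x) * L = a • (x * L) := LinearMap.ext fun F => rfl
    rw [h1]
    exact Submodule.smul_mem _ _ hx

/-- the monomials act on polynomials as elements of the Weyl algebra -/
theorem SS_pol {w : Module.End ℂ (MvPowerSeries τ ℂ)} (hw : w ∈ SS τ) :
    ∃ Q : weylS τ, ∀ h : MvPolynomial τ ℂ, w (h : MvPowerSeries τ ℂ) =
      (((Q : Module.End ℂ (MvPolynomial τ ℂ)) h : MvPolynomial τ ℂ) : MvPowerSeries τ ℂ) := by
  unfold SS at hw
  induction hw using Submonoid.closure_induction with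
  | mem x hx =>
    obtain ⟨j, rfl⟩ := hx
    refine ⟨HP.dW j, fun h => ?_⟩
    rw [HP.dW_apply, pd_apply, MvPowerSeries.pderiv_coe]
  | one => exact ⟨1, fun h => rfl⟩
  | mul x y _ _ hx hy =>
    obtain ⟨Q1, h1⟩ := hx
    obtain ⟨Q2, h2⟩ := hy
    refine ⟨Q1 * Q2, fun h => ?_⟩
    rw [Subalgebra.coe_mul, Module.End.mul_apply, Module.End.mul_apply, h2, h1]

theorem EE_pol {L : Module.End ℂ (MvPowerSeries τ ℂ)} (hL : L ∈ EE τ) :
    ∃ (n : ℕ) (a : Fin n → MvPowerSeries τ ℂ) (Q : Fin n → weylS τ),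
      ∀ h : MvPolynomial τ ℂ, L (h : MvPowerSeries τ ℂ) = ∑ k, a k *
        (((Q k : Module.End ℂ (MvPolynomial τ ℂ)) h : MvPolynomial τ ℂ) : MvPowerSeries τ ℂ) := by
  unfold EE at hL
  rw [Submodule.mem_span_set'] at hL
  obtain ⟨n, a, g, hg⟩ := hL
  choose Q hQ using fun k => SS_pol (g k).2
  refine ⟨n, a, Q, fun h => ?_⟩
  rw [← hg, LinearMap.sum_apply]
  refine Finset.sum_congr rfl fun k _ => ?_
  rw [LinearMap.smul_apply, smul_eq_mul, hQ]

variable [Fintype σ] [Fintype τ]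

theorem conj_op (der : S_DER) (Φ : MvPowerSeries σ ℂ ≃ₐ[ℂ] MvPowerSeries τ ℂ)
    (Q : Module.End ℂ (MvPolynomial σ ℂ)) (hQ : Q ∈ weylS σ) :
    ∃ E ∈ EE τ, ∀ h : MvPolynomial σ ℂ,
      Φ ((Q h : MvPolynomial σ ℂ) : MvPowerSeries σ ℂ) = E (Φ (h : MvPowerSeries σ ℂ)) := by
  induction hQ using Algebra.adjoin_induction with
  | mem Q hQ =>
    rcases hQ with ⟨i, rfl⟩ | ⟨i, rfl⟩
    · refine ⟨Φ (MvPowerSeries.X i) • (1 : Module.End ℂ (MvPowerSeries τ ℂ)),
        Submodule.smul_mem _ _ one_mem_EE, fun h => ?_⟩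
      rw [LinearMap.mulLeft_apply, MvPolynomial.coe_mul, map_mul, MvPolynomial.coe_X]
      rfl
    · refine ⟨∑ j : τ, Φ (MvPowerSeries.pderiv ℂ i (Φ.symm (MvPowerSeries.X j))) • pd j,
        Submodule.sum_mem _ fun j _ => Submodule.smul_mem _ _ (pd_mem_EE j), fun h => ?_⟩
      have h1 := der σ τ Φ i (h : MvPowerSeries σ ℂ)
      rw [MvPowerSeries.pderiv_coe] at h1
      rw [LinearMap.sum_apply]
      exact h1
  | algebraMap c =>
    refine ⟨(algebraMap ℂ (MvPowerSeries τ ℂ) c) • (1 : Module.End ℂ (MvPowerSeries τ ℂ)),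
        Submodule.smul_mem _ _ one_mem_EE, fun h => ?_⟩
    rw [Module.algebraMap_end_apply, MvPolynomial.smul_eq_C_mul, MvPolynomial.coe_mul, map_mul,
      MvPolynomial.coe_C]
    have h2 : Φ (MvPowerSeries.C c) = algebraMap ℂ (MvPowerSeries τ ℂ) c := Φ.commutes c
    rw [h2]
    rfl
  | add Q1 Q2 _ _ h1 h2 =>
    obtain ⟨E1, hE1, h1⟩ := h1
    obtain ⟨E2, hE2, h2⟩ := h2
    refine ⟨E1 + E2, Submodule.add_mem _ hE1 hE2, fun h => ?_⟩
    rw [LinearMap.add_apply, LinearMap.add_apply, MvPolynomial.coe_add, map_add, h1, h2]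
  | mul Q1 Q2 _ _ h1 h2 =>
    obtain ⟨E1, hE1, h1⟩ := h1
    obtain ⟨E2, hE2, h2⟩ := h2
    refine ⟨E1 * E2, EE_mul_mem hE1 hE2, fun h => ?_⟩
    rw [Module.End.mul_apply, Module.End.mul_apply, h1, h2]

end Pool.Agent.Helper33K9.FQ.BfL

namespace Pool.Agent.Helper33K9.FQ

open Pool.Agent.H628R4.TP

theorem bf (der : S_DER) : S_BF := by
  intro σ τ _ _ Φ f g hfg b hb
  obtain ⟨L, m, a, Q, hQ⟩ := hb
  have h1 : ∀ i : Fin L, ∃ (n : ℕ) (c : Fin n → MvPowerSeries τ ℂ) (P : Fin n → weylS τ),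
      ∀ s : ℕ, Φ (((Q i : Module.End ℂ (MvPolynomial σ ℂ)) (f ^ (s + 1)) : MvPolynomial σ ℂ) :
          MvPowerSeries σ ℂ) = ∑ k, c k *
        (((P k : Module.End ℂ (MvPolynomial τ ℂ)) (g ^ (s + 1)) : MvPolynomial τ ℂ) :
          MvPowerSeries τ ℂ) := by
    intro i
    obtain ⟨E, hE, h2⟩ := BfL.conj_op der Φ (Q i) (Q i).2
    obtain ⟨n, c, P, h3⟩ := BfL.EE_pol hE
    refine ⟨n, c, P, fun s => ?_⟩
    rw [h2, MvPolynomial.coe_pow, map_pow, hfg, ← MvPolynomial.coe_pow, h3]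
  choose n c P hP using h1
  let e := Fintype.equivFin (Σ i : Fin L, Fin (n i))
  refine ⟨Fintype.card (Σ i : Fin L, Fin (n i)), fun k => m (e.symm k).1,
    fun k => Φ (a (e.symm k).1) * c (e.symm k).1 (e.symm k).2,
    fun k => P (e.symm k).1 (e.symm k).2, fun s => ?_⟩
  have h4 := congrArg Φ (hQ s)
  have hC : ∀ z : ℂ, Φ (MvPowerSeries.C z) = MvPowerSeries.C z := fun z => Φ.commutes z
  rw [map_mul, hC, MvPolynomial.coe_pow, map_pow, hfg, ← MvPolynomial.coe_pow, map_sum] at h4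
  rw [h4]
  rw [e.symm.sum_comp (fun p : (Σ i : Fin L, Fin (n i)) => MvPowerSeries.C ((s : ℂ) ^ m p.1) *
    (Φ (a p.1) * c p.1 p.2 * (((P p.1 p.2 : Module.End ℂ (MvPolynomial τ ℂ)) (g ^ (s + 1)) :
      MvPolynomial τ ℂ) : MvPowerSeries τ ℂ))), Fintype.sum_sigma]
  refine Finset.sum_congr rfl fun i _ => ?_
  rw [map_mul, hC, map_mul, hP, Finset.mul_sum, Finset.mul_sum]
  exact Finset.sum_congr rfl fun k _ => by rw [mul_assoc (Φ (a i))]

end Pool.Agent.Helper33K9.FQ
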