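import Pool.Agent.Helper33K9.FQ.St2
import Pool.Agent.Helper33K9.FQ.Lin
import Pool.Agent.Helper33K9.FQ.Aut

/-!
[CO] the images of the variables under an automorphism are formal coordinates.
-/

set_option autoImplicit false

namespace Pool.Agent.Helper33K9.FQ

open MvPowerSeries

theorem cc_aut {Ω : Type} [Fintype Ω] (Φ : MvPowerSeries Ω ℂ ≃ₐ[ℂ] MvPowerSeries Ω ℂ) (i : Ω) :
    constantCoeff (Φ (X i)) = 0 :=
  (one_le_order_iff_constCoeff_eq_zero).1 (AutL.one_le_order_image Φ i)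

theorem co : S_CO := by
  classical
  intro Ω _ Φ
  refine ⟨cc_aut Φ, fun i => ?_⟩
  obtain ⟨G, hG, -⟩ := AutL.split (Φ.symm (X i)) 0
    (by exact_mod_cast AutL.one_le_order_image Φ.symm i)
  have h1 : (X i : MvPowerSeries Ω ℂ) = ∑ j, Φ (X j) * Φ (G j) := by
    have := congrArg Φ hG
    rw [AlgEquiv.apply_symm_apply, map_sum] at this
    simp only [map_mul] at this
    exact this
  have h2 : lin (X i : MvPowerSeries Ω ℂ) = ∑ j, constantCoeff (Φ (G j)) • lin (Φ (X j)) := by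
    rw [h1, lin_sum]
    refine Finset.sum_congr rfl fun j _ => ?_
    rw [lin_mul, cc_aut Φ j, zero_smul, zero_add]
  rw [lin_X] at h2
  have h3 : (Pi.single i (1 : ℂ) : Ω → ℂ) = ∑ j, constantCoeff (Φ (G j)) • lin (Φ (X j)) := by
    rw [← h2]
  have h4 : ∑ j, constantCoeff (Φ (G j)) • lin (Φ (X j)) ∈
      Submodule.span ℂ (Set.range fun j => lin (Φ (X j))) :=
    Submodule.sum_mem _ fun j _ => Submodule.smul_mem _ _ (Submodule.subset_span ⟨j, rfl⟩)
  rw [← h3] at h4
  exact h4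

end Pool.Agent.Helper33K9.FQ
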