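import Pool.Agent.Helper33K9.FQ.St2
import Pool.Agent.Helper33K9.FQ.Lin

/-!
[EMB] formal coordinates in blocks of variables.
-/

set_option autoImplicit false

namespace Pool.Agent.Helper33K9.FQ

open MvPowerSeries

namespace EmbL

theorem cc_rename {α β : Type} (e : α ↪ β) (F : MvPowerSeries α ℂ) :
    constantCoeff (rename e F) = constantCoeff F := by
  have h := coeff_embDomain_rename (R := ℂ) e F 0
  rwa [Finsupp.embDomain_zero, coeff_zero_eq_constantCoeff_apply,
    coeff_zero_eq_constantCoeff_apply] at h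

theorem lin_rename_apply {α β : Type} (e : α ↪ β) (F : MvPowerSeries α ℂ) (a : α) :
    lin (rename e F) (e a) = lin F a := by
  have h := coeff_embDomain_rename (R := ℂ) e F (Finsupp.single a 1)
  rwa [Finsupp.embDomain_single] at h

theorem lin_rename_out {α β : Type} (e : α ↪ β) (F : MvPowerSeries α ℂ) (b : β)
    (hb : b ∉ Set.range e) : lin (rename e F) b = 0 := by
  classical
  refine coeff_rename_eq_zero (R := ℂ) (⇑e) F ?_
  rintro ⟨d, hd⟩
  apply hb
  have h1 : b ∈ (Finsupp.mapDomain e d).support := by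
    rw [hd]
    simp
  have h2 := Finsupp.mapDomain_support h1
  rw [Finset.mem_image] at h2
  obtain ⟨a, -, ha⟩ := h2
  exact ⟨a, ha⟩

open Classical in
/-- extension by zero -/
noncomputable def ext0 {α β : Type} (e : α ↪ β) : (α → ℂ) →ₗ[ℂ] (β → ℂ) where
  toFun v b := if h : ∃ a, e a = b then v h.choose else 0
  map_add' v w := by
    funext b
    simp only [Pi.add_apply]
    split_ifs
    · rfl
    · rw [add_zero]
  map_smul' c v := by
    funext b
    simp only [Pi.smul_apply, RingHom.id_apply]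
    split_ifs
    · rfl
    · rw [smul_zero]

theorem ext0_apply {α β : Type} (e : α ↪ β) (v : α → ℂ) (a : α) : ext0 e v (e a) = v a := by
  classical
  have h : ∃ a', e a' = e a := ⟨a, rfl⟩
  change (if h : ∃ a', e a' = e a then v h.choose else 0) = v a
  rw [dif_pos h]
  exact congrArg v (e.injective h.choose_spec)

theorem ext0_out {α β : Type} (e : α ↪ β) (v : α → ℂ) (b : β) (hb : b ∉ Set.range e) :
    ext0 e v b = 0 := by
  classical
  change (if h : ∃ a', e a' = b then v h.choose else 0) = 0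
  exact dif_neg hb

theorem lin_rename {α β : Type} (e : α ↪ β) (F : MvPowerSeries α ℂ) :
    lin (rename e F) = ext0 e (lin F) := by
  funext b
  by_cases hb : b ∈ Set.range e
  · obtain ⟨a, rfl⟩ := hb
    rw [lin_rename_apply, ext0_apply]
  · rw [lin_rename_out e F b hb, ext0_out e _ b hb]

theorem ext0_single {α β : Type} [DecidableEq α] [DecidableEq β] (e : α ↪ β) (a : α) :
    ext0 e (Pi.single a (1 : ℂ)) = Pi.single (e a) 1 := by
  funext b
  by_cases hb : b ∈ Set.range e
  · obtain ⟨a', rfl⟩ := hb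
    rw [ext0_apply, Pi.single_apply, Pi.single_apply]
    simp only [e.injective.eq_iff]
  · rw [ext0_out e _ b hb, Pi.single_apply, if_neg]
    rintro rfl
    exact hb ⟨a, rfl⟩

end EmbL

open EmbL in
theorem emb : S_EMB := by
  classical
  intro Ω I _ _ B _ E y hy
  let j : ∀ b, B b ↪ Ω := fun b => ⟨fun i => E ⟨b, i⟩, fun i i' h => by
    have := E.injective h
    simpa using this⟩
  let g : (Σ b, B b) → MvPowerSeries Ω ℂ := fun s =>
    rename (fun i : B s.1 => E ⟨s.1, i⟩) (y s.1 s.2)
  have h1 : ∀ b i, g (E.symm (E ⟨b, i⟩)) = rename (j b) (y b i) := by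
    intro b i
    rw [E.symm_apply_apply]
    rfl
  have h2 : ∀ ω, ∃ b i, E ⟨b, i⟩ = ω := fun ω => ⟨(E.symm ω).1, (E.symm ω).2, E.apply_symm_apply ω⟩
  change Coords fun ω => g (E.symm ω)
  refine ⟨fun ω => ?_, fun ω => ?_⟩
  · obtain ⟨b, i, rfl⟩ := h2 ω
    change constantCoeff (g (E.symm (E ⟨b, i⟩))) = 0
    rw [h1, cc_rename, (hy b).1]
  · obtain ⟨b, i, rfl⟩ := h2 ω
    have h3 := (hy b).2 i
    have h4 := Submodule.mem_map_of_mem (f := ext0 (j b)) h3
    rw [ext0_single] at h4
    rw [Submodule.map_span] at h4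
    refine Submodule.span_mono ?_ h4
    rintro _ ⟨_, ⟨k, rfl⟩, rfl⟩
    refine ⟨E ⟨b, k⟩, ?_⟩
    change lin (g (E.symm (E ⟨b, k⟩))) = _
    rw [h1, lin_rename]

end Pool.Agent.Helper33K9.FQ
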