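import Pool.Agent.Helper33K9.FQ.St

set_option autoImplicit false

/-! # The formal inverse function theorem -/

namespace Pool.Agent.Helper33K9.FQ

namespace InvL

open MvPowerSeries

variable {σ : Type} [Fintype σ] [DecidableEq σ]

/-- order at least `n` -/
def Ord (n : ℕ) (F : MvPowerSeries σ ℂ) : Prop := ∀ d : σ →₀ ℕ, d.degree < n → coeff d F = 0

omit [Fintype σ] [DecidableEq σ] in
theorem Ord.add {n : ℕ} {F G : MvPowerSeries σ ℂ} (hF : Ord n F) (hG : Ord n G) :
    Ord n (F + G) := by
  intro d hd
  rw [map_add, hF d hd, hG d hd, add_zero]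

omit [Fintype σ] [DecidableEq σ] in
theorem Ord.neg {n : ℕ} {F : MvPowerSeries σ ℂ} (hF : Ord n F) : Ord n (-F) := by
  intro d hd
  rw [map_neg, hF d hd, neg_zero]

omit [Fintype σ] [DecidableEq σ] in
theorem Ord.sub {n : ℕ} {F G : MvPowerSeries σ ℂ} (hF : Ord n F) (hG : Ord n G) :
    Ord n (F - G) := by
  rw [sub_eq_add_neg]
  exact hF.add hG.neg

omit [Fintype σ] [DecidableEq σ] in
theorem Ord.mono {m n : ℕ} (h : m ≤ n) {F : MvPowerSeries σ ℂ} (hF : Ord n F) : Ord m F :=
  fun d hd => hF d (lt_of_lt_of_le hd h)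

omit [Fintype σ] in
theorem Ord.mul {m n : ℕ} {F G : MvPowerSeries σ ℂ} (hF : Ord m F) (hG : Ord n G) :
    Ord (m + n) (F * G) := by
  intro d hd
  rw [coeff_mul]
  apply Finset.sum_eq_zero
  intro p hp
  rw [Finset.HasAntidiagonal.mem_antidiagonal] at hp
  have h : p.1.degree + p.2.degree < m + n := by
    rwa [← map_add, hp]
  by_cases h1 : p.1.degree < m
  · rw [hF _ h1, zero_mul]
  · rw [hG _ (by omega), mul_zero]

/-- `F` and `G` have order at least `n` and differ by order at least `n + 1` -/
def Near (n : ℕ) (F G : MvPowerSeries σ ℂ) : Prop := Ord n F ∧ Ord n G ∧ Ord (n + 1) (F - G)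

omit [Fintype σ] in
theorem Near.mul {m n : ℕ} {F G F' G' : MvPowerSeries σ ℂ} (h : Near m F G)
    (h' : Near n F' G') : Near (m + n) (F * F') (G * G') := by
  refine ⟨h.1.mul h'.1, h.2.1.mul h'.2.1, ?_⟩
  have e : F * F' - G * G' = (F - G) * F' + G * (F' - G') := by ring
  rw [e]
  refine Ord.add ?_ ?_
  · have := h.2.2.mul h'.1
    rwa [show m + 1 + n = m + n + 1 by ring] at this
  · have := h.2.1.mul h'.2.2
    rwa [← add_assoc] at this

omit [Fintype σ] [DecidableEq σ] in
theorem Near.one : Near 0 (1 : MvPowerSeries σ ℂ) 1 := by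
  refine ⟨fun d hd => absurd hd (Nat.not_lt_zero _), fun d hd => absurd hd (Nat.not_lt_zero _), ?_⟩
  intro d _
  rw [sub_self, map_zero]

omit [Fintype σ] in
theorem Near.pow {n : ℕ} {F G : MvPowerSeries σ ℂ} (h : Near n F G) (k : ℕ) :
    Near (k * n) (F ^ k) (G ^ k) := by
  induction k with
  | zero =>
    rw [zero_mul, pow_zero, pow_zero]
    exact Near.one
  | succ k ih =>
    rw [pow_succ, pow_succ, Nat.succ_mul]
    exact ih.mul h

omit [Fintype σ] in
theorem Near.prod {z : σ → MvPowerSeries σ ℂ} (hz : ∀ i, Near 1 (z i) (X i)) (d : σ →₀ ℕ)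
    (s : Finset σ) : Near (∑ i ∈ s, d i) (∏ i ∈ s, z i ^ d i) (∏ i ∈ s, X i ^ d i) := by
  induction s using Finset.induction_on with
  | empty =>
    rw [Finset.sum_empty, Finset.prod_empty, Finset.prod_empty]
    exact Near.one
  | insert i s hi ih =>
    rw [Finset.sum_insert hi, Finset.prod_insert hi, Finset.prod_insert hi]
    have := (hz i).pow (d i)
    rw [mul_one] at this
    exact this.mul ih

/-- the main coefficient -/
theorem key {z : σ → MvPowerSeries σ ℂ} (hs : HasSubst z) (hz : ∀ i, Near 1 (z i) (X i))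
    (F : MvPowerSeries σ ℂ) (e : σ →₀ ℕ) (hF : Ord e.degree F) :
    coeff e (subst z F) = coeff e F := by
  rw [coeff_subst hs]
  have hnear : ∀ d : σ →₀ ℕ, Near d.degree (d.prod fun s k => z s ^ k) (monomial d (1 : ℂ)) := by
    intro d
    rw [MvPowerSeries.monomial_one_eq, Finsupp.prod_fintype _ _ (by simp),
      Finsupp.prod_fintype _ _ (by simp), Finsupp.degree_eq_sum]
    exact Near.prod hz d Finset.univ
  have hcoe : ∀ d : σ →₀ ℕ, e.degree ≤ d.degree →
      coeff e (d.prod fun s k => z s ^ k) = if e = d then 1 else 0 := by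
    intro d hd
    have h1 := (hnear d).2.2 e (by omega)
    rw [map_sub, sub_eq_zero] at h1
    rw [h1, coeff_monomial]
  rw [finsum_eq_single _ e]
  · rw [hcoe e le_rfl, if_pos rfl, smul_eq_mul, mul_one]
  · intro d hd
    by_cases h : d.degree < e.degree
    · rw [hF d h, zero_smul]
    · rw [hcoe d (by omega), if_neg (Ne.symm hd), smul_zero]

theorem ord_subst {z : σ → MvPowerSeries σ ℂ} (hs : HasSubst z) (hz : ∀ i, Near 1 (z i) (X i))
    (F : MvPowerSeries σ ℂ) (n : ℕ) (hF : Ord n F) : Ord n (subst z F) := by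
  intro e he
  rw [key hs hz F e (hF.mono he.le), hF e he]

theorem inj {z : σ → MvPowerSeries σ ℂ} (hs : HasSubst z) (hz : ∀ i, Near 1 (z i) (X i))
    (F : MvPowerSeries σ ℂ) (h : subst z F = 0) : F = 0 := by
  have h1 : ∀ n, Ord n F := by
    intro n
    induction n with
    | zero => exact fun d hd => absurd hd (Nat.not_lt_zero _)
    | succ n ih =>
      intro d hd
      have hd' : d.degree ≤ n := by omega
      rw [← key hs hz F d (ih.mono hd'), h, map_zero]
  ext d
  rw [h1 (d.degree + 1) d (by omega), map_zero]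

/-- the approximations -/
noncomputable def app (z : σ → MvPowerSeries σ ℂ) (G : MvPowerSeries σ ℂ) :
    ℕ → MvPowerSeries σ ℂ
  | 0 => 0
  | n + 1 => app z G n + (G - subst z (app z G n))

theorem app_err {z : σ → MvPowerSeries σ ℂ} (hs : HasSubst z) (hz : ∀ i, Near 1 (z i) (X i))
    (G : MvPowerSeries σ ℂ) (n : ℕ) : Ord n (G - subst z (app z G n)) := by
  induction n with
  | zero => exact fun d hd => absurd hd (Nat.not_lt_zero _)
  | succ n ih =>
    intro d hd
    have hd' : d.degree ≤ n := by omega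
    set E := G - subst z (app z G n) with hE
    have h1 : G - subst z (app z G (n + 1)) = E - subst z E := by
      rw [app, subst_add hs, ← hE, hE]
      ring
    rw [h1, map_sub, key hs hz E d (ih.mono hd'), sub_self]

theorem app_stable {z : σ → MvPowerSeries σ ℂ} (hs : HasSubst z)
    (hz : ∀ i, Near 1 (z i) (X i)) (G : MvPowerSeries σ ℂ) (d : σ →₀ ℕ) (n : ℕ)
    (h : d.degree + 1 ≤ n) : coeff d (app z G n) = coeff d (app z G (d.degree + 1)) := by
  induction n, h using Nat.le_induction with
  | base => rfl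
  | succ n hn ih =>
    rw [app, map_add, ih, app_err hs hz G n d (by omega), add_zero]

theorem surj {z : σ → MvPowerSeries σ ℂ} (hs : HasSubst z) (hz : ∀ i, Near 1 (z i) (X i))
    (G : MvPowerSeries σ ℂ) : ∃ F : MvPowerSeries σ ℂ, subst z F = G := by
  let F : MvPowerSeries σ ℂ := fun d => coeff d (app z G (d.degree + 1))
  have hF : ∀ d, coeff d F = coeff d (app z G (d.degree + 1)) := fun d => rfl
  have h1 : ∀ n, Ord n (F - app z G n) := by
    intro n d hd
    rw [map_sub, hF, app_stable hs hz G d n (by omega), sub_self]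
  refine ⟨F, ?_⟩
  have h2 : ∀ n, Ord n (subst z F - G) := by
    intro n
    have e : subst z F - G = subst z (F - app z G n) - (G - subst z (app z G n)) := by
      rw [subst_sub hs]
      ring
    rw [e]
    exact (ord_subst hs hz _ n (h1 n)).sub (app_err hs hz G n)
  ext d
  have := h2 (d.degree + 1) d (by omega)
  rw [map_sub, sub_eq_zero] at this
  exact this

/-- linear forms -/
noncomputable def lf (M : Matrix σ σ ℂ) (i : σ) : MvPowerSeries σ ℂ :=
  ∑ j, M i j • X j

omit [DecidableEq σ] in
theorem lf_subst (M : Matrix σ σ ℂ) : HasSubst (lf M) := by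
  apply hasSubst_of_constantCoeff_zero
  intro i
  rw [lf, map_sum]
  apply Finset.sum_eq_zero
  intro j _
  rw [← coeff_zero_eq_constantCoeff_apply, coeff_smul, coeff_zero_eq_constantCoeff_apply,
    constantCoeff_X, mul_zero]

omit [DecidableEq σ] in
theorem subst_lf {y : σ → MvPowerSeries σ ℂ} (hy : HasSubst y) (M : Matrix σ σ ℂ) (i : σ) :
    subst y (lf M i) = ∑ j, M i j • y j := by
  rw [lf, ← coe_substAlgHom hy, map_sum]
  apply Finset.sum_congr rfl
  intro j _
  rw [map_smul, coe_substAlgHom, subst_X hy]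

theorem lf_lf (M M' : Matrix σ σ ℂ) (h : M' * M = 1) (F : MvPowerSeries σ ℂ) :
    subst (lf M) (subst (lf M') F) = F := by
  rw [subst_comp_subst_apply (lf_subst M') (lf_subst M)]
  have h1 : (fun s => subst (lf M) (lf M' s)) = (X : σ → MvPowerSeries σ ℂ) := by
    funext i
    rw [subst_lf (lf_subst M)]
    simp only [lf, Finset.smul_sum, smul_smul]
    rw [Finset.sum_comm]
    simp only [← Finset.sum_smul]
    have h2 : ∀ k, ∑ j, M' i j * M j k = (1 : Matrix σ σ ℂ) i k := by
      intro k
      rw [← h, Matrix.mul_apply]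
    simp only [h2, Matrix.one_apply]
    simp
  rw [h1, subst_self]
  rfl

omit [Fintype σ] [DecidableEq σ] in
theorem ord_two (F : MvPowerSeries σ ℂ) (h0 : constantCoeff F = 0)
    (h1 : ∀ k, coeff (Finsupp.single k 1) F = 0) : Ord 2 F := by
  intro d hd
  have h : d.degree = 0 ∨ d.degree = 1 := by omega
  rcases h with h | h
  · rw [Finsupp.degree_eq_zero_iff] at h
    rw [h, coeff_zero_eq_constantCoeff_apply, h0]
  · obtain ⟨k, hk⟩ : ∃ k, d = Finsupp.single k 1 := by
      have h2 : (d.sum fun _ n => n) = 1 := h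
      exact (Finsupp.sum_eq_one_iff d).1 h2
    rw [hk, h1]

theorem main (y : σ → MvPowerSeries σ ℂ)
    (hy : ∀ i, MvPowerSeries.constantCoeff (y i) = 0)
    (hspan : ∀ i, (Pi.single i (1 : ℂ) : σ → ℂ) ∈ Submodule.span ℂ
      (Set.range fun j => lin (y j))) :
    ∃ Φ : MvPowerSeries σ ℂ ≃ₐ[ℂ] MvPowerSeries σ ℂ, ∀ i, Φ (MvPowerSeries.X i) = y i := by
  have hys : HasSubst y := hasSubst_of_constantCoeff_zero hy
  let M : Matrix σ σ ℂ := Matrix.of fun i => lin (y i)
  have hM' : ∀ i, ∃ c : σ → ℂ, ∑ j, c j • lin (y j) = Pi.single i (1 : ℂ) := by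
    intro i
    obtain ⟨c, hc⟩ := (Submodule.mem_span_range_iff_exists_fun ℂ).1 (hspan i)
    exact ⟨c, hc⟩
  choose c hc using hM'
  let M' : Matrix σ σ ℂ := Matrix.of c
  have hMM : M' * M = 1 := by
    ext i k
    rw [Matrix.mul_apply]
    have := congrFun (hc i) k
    simp only [Finset.sum_apply, Pi.smul_apply, smul_eq_mul] at this
    simp only [M', M, Matrix.of_apply]
    rw [this, Matrix.one_apply, Pi.single_apply]
    simp only [eq_comm]
  have hMM' : M * M' = 1 := mul_eq_one_comm.1 hMM
  let z : σ → MvPowerSeries σ ℂ := fun i => ∑ j, M' i j • y j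
  have hz0 : ∀ i, constantCoeff (z i) = 0 := by
    intro i
    simp only [z]
    rw [map_sum]
    apply Finset.sum_eq_zero
    intro j _
    rw [← coeff_zero_eq_constantCoeff_apply, coeff_smul, coeff_zero_eq_constantCoeff_apply,
      hy j, mul_zero]
  have hzs : HasSubst z := hasSubst_of_constantCoeff_zero hz0
  have hzn : ∀ i, Near 1 (z i) (X i) := by
    intro i
    refine ⟨?_, ?_, ?_⟩
    · intro d hd
      have : d = 0 := by
        rw [← Finsupp.degree_eq_zero_iff]
        omega
      rw [this, coeff_zero_eq_constantCoeff_apply, hz0]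
    · intro d hd
      have : d = 0 := by
        rw [← Finsupp.degree_eq_zero_iff]
        omega
      rw [this, coeff_zero_eq_constantCoeff_apply, constantCoeff_X]
    · apply ord_two
      · rw [map_sub, hz0, constantCoeff_X, sub_zero]
      · intro k
        rw [map_sub, sub_eq_zero]
        simp only [z]
        rw [map_sum]
        have h1 : ∀ j, coeff (Finsupp.single k 1) (M' i j • y j) = M' i j * M j k := by
          intro j
          rw [coeff_smul]
          rfl
        simp only [h1]
        rw [← Matrix.mul_apply, hMM, Matrix.one_apply, coeff_X]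
        by_cases hik : i = k
        · subst hik
          simp
        · rw [if_neg hik, if_neg]
          intro h
          exact hik (Finsupp.single_left_injective one_ne_zero h).symm
  -- substitution of `y` after the linear one
  have hcomp : ∀ F : MvPowerSeries σ ℂ, subst y (subst (lf M') F) = subst z F := by
    intro F
    rw [subst_comp_subst_apply (lf_subst M') hys]
    congr 1
    funext i
    exact subst_lf hys M' i
  have hbij : Function.Bijective (substAlgHom (R := ℂ) hys) := by
    rw [coe_substAlgHom]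
    constructor
    · intro F G hFG
      have h1 : subst y (F - G) = 0 := by rw [subst_sub hys, hFG, sub_self]
      have h2 : subst (lf M') (subst (lf M) (F - G)) = F - G := lf_lf M' M hMM' _
      rw [← h2, hcomp] at h1
      have h3 := inj hzs hzn _ h1
      have h4 := h2
      rw [h3, ← coe_substAlgHom (lf_subst M'), map_zero] at h4
      exact (sub_eq_zero.1 h4.symm)
    · intro G
      obtain ⟨F, hF⟩ := surj hzs hzn G
      exact ⟨subst (lf M') F, by rw [hcomp, hF]⟩
  refine ⟨AlgEquiv.ofBijective _ hbij, ?_⟩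
  intro i
  rw [AlgEquiv.coe_ofBijective, substAlgHom_X]

end InvL

theorem inv : S_INV := by
  intro σ _ _ y hy hspan
  exact InvL.main y hy hspan

end Pool.Agent.Helper33K9.FQ
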