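import Pool.Agent.Helper33K9.FQ.Sum

/-!
[ISO] isomorphisms of polynomial rings preserve locally formally sparse polynomials.
-/

set_option autoImplicit false

namespace Pool.Agent.Helper33K9.FQ

namespace IsoL

open MvPolynomial

variable {Ω Ω' : Type}

/-- translation as an automorphism -/
noncomputable def trnE (p : Ω → ℂ) : MvPolynomial Ω ℂ ≃ₐ[ℂ] MvPolynomial Ω ℂ :=
  AlgEquiv.ofAlgHom (aeval fun i => X i + C (p i)) (aeval fun i => X i - C (p i))
    (by ext i; simp) (by ext i; simp)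

theorem trnE_apply (p : Ω → ℂ) (f : MvPolynomial Ω ℂ) : trnE p f = trn p f := rfl

theorem trnE_symm_X (p : Ω → ℂ) (i : Ω) : (trnE p).symm (X i) = X i - C (p i) := by
  change aeval (fun i => X i - C (p i)) (X i) = _
  rw [aeval_X]

theorem cc_comp (Ψ : MvPolynomial Ω ℂ ≃ₐ[ℂ] MvPolynomial Ω' ℂ)
    (h : ∀ i, constantCoeff (Ψ (X i)) = 0) (Q : MvPolynomial Ω ℂ) :
    constantCoeff (Ψ Q) = constantCoeff Q := by
  have : (constantCoeff.comp (Ψ : MvPolynomial Ω ℂ →+* MvPolynomial Ω' ℂ)) =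
      (constantCoeff : MvPolynomial Ω ℂ →+* ℂ) := by
    refine ringHom_ext (fun r => ?_) fun i => ?_
    · have h1 : Ψ (C r) = C r := Ψ.commutes r
      change constantCoeff (Ψ (C r)) = constantCoeff (C r)
      rw [h1, constantCoeff_C, constantCoeff_C]
    · change constantCoeff (Ψ (X i)) = constantCoeff (X i)
      rw [h, constantCoeff_X]
  exact RingHom.congr_fun this Q

theorem lin_C' (r : ℂ) : lin ((C r : MvPolynomial Ω ℂ) : MvPowerSeries Ω ℂ) = 0 := by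
  funext k
  rw [lin_eq, coe_C, MvPowerSeries.pderiv_C, map_zero]
  rfl

theorem mem_span (Ψ : MvPolynomial Ω ℂ ≃ₐ[ℂ] MvPolynomial Ω' ℂ) (Q : MvPolynomial Ω ℂ) :
    lin ((Ψ Q : MvPolynomial Ω' ℂ) : MvPowerSeries Ω' ℂ) ∈ Submodule.span ℂ
      (Set.range fun i => lin ((Ψ (X i) : MvPolynomial Ω' ℂ) : MvPowerSeries Ω' ℂ)) := by
  induction Q using MvPolynomial.induction_on with
  | C r =>
    have h1 : Ψ (C r) = C r := Ψ.commutes r
    rw [h1, lin_C']
    exact Submodule.zero_mem _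
  | add P Q hP hQ =>
    rw [map_add, coe_add, lin_add]
    exact Submodule.add_mem _ hP hQ
  | mul_X P i hP =>
    rw [map_mul, coe_mul, lin_mul]
    exact Submodule.add_mem _ (Submodule.smul_mem _ _ (Submodule.subset_span ⟨i, rfl⟩))
      (Submodule.smul_mem _ _ hP)

theorem single_mem [DecidableEq Ω'] (Ψ : MvPolynomial Ω ℂ ≃ₐ[ℂ] MvPolynomial Ω' ℂ) (j : Ω') :
    (Pi.single j (1 : ℂ) : Ω' → ℂ) ∈ Submodule.span ℂ
      (Set.range fun i => lin ((Ψ (X i) : MvPolynomial Ω' ℂ) : MvPowerSeries Ω' ℂ)) := by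
  have h := mem_span Ψ (Ψ.symm (X j))
  rw [AlgEquiv.apply_symm_apply, coe_X, lin_X] at h
  exact h

theorem card_le [Fintype Ω] [Fintype Ω'] (Ψ : MvPolynomial Ω ℂ ≃ₐ[ℂ] MvPolynomial Ω' ℂ) :
    Fintype.card Ω' ≤ Fintype.card Ω := by
  classical
  have h1 : Submodule.span ℂ
      (Set.range fun i => lin ((Ψ (X i) : MvPolynomial Ω' ℂ) : MvPowerSeries Ω' ℂ)) = ⊤ := by
    rw [eq_top_iff, ← (Pi.basisFun ℂ Ω').span_eq, Submodule.span_le]
    rintro _ ⟨j, rfl⟩
    rw [Pi.basisFun_apply]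
    exact single_mem Ψ j
  have h2 := finrank_range_le_card (R := ℂ)
    fun i => lin ((Ψ (X i) : MvPolynomial Ω' ℂ) : MvPowerSeries Ω' ℂ)
  unfold Set.finrank at h2
  rw [h1, finrank_top, Module.finrank_fintype_fun_eq_card] at h2
  exact h2

theorem coords [Fintype Ω] [Fintype Ω'] (Ψ : MvPolynomial Ω ℂ ≃ₐ[ℂ] MvPolynomial Ω' ℂ)
    (h : ∀ i, constantCoeff (Ψ (X i)) = 0) (ε : Ω ≃ Ω') :
    Coords fun j => ((Ψ (X (ε.symm j)) : MvPolynomial Ω' ℂ) : MvPowerSeries Ω' ℂ) := by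
  classical
  refine ⟨fun j => ?_, fun j => ?_⟩
  · have h1 := h (ε.symm j)
    rw [← MvPowerSeries.coeff_zero_eq_constantCoeff_apply, coeff_coe]
    exact h1
  · have h1 := single_mem Ψ j
    have h2 : (Set.range fun j => lin ((Ψ (X (ε.symm j)) : MvPolynomial Ω' ℂ) :
        MvPowerSeries Ω' ℂ)) =
        Set.range fun i => lin ((Ψ (X i) : MvPolynomial Ω' ℂ) : MvPowerSeries Ω' ℂ) := by
      ext v
      constructor
      · rintro ⟨k, rfl⟩
        exact ⟨ε.symm k, rfl⟩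
      · rintro ⟨k, rfl⟩
        exact ⟨ε k, by simp only [ε.symm_apply_apply]⟩
    rw [h2]
    convert h1

theorem fs_iso [Fintype Ω] [Fintype Ω'] (Ψ : MvPolynomial Ω ℂ ≃ₐ[ℂ] MvPolynomial Ω' ℂ)
    (h : ∀ i, constantCoeff (Ψ (X i)) = 0) (G : MvPolynomial Ω ℂ)
    (hG : FS (G : MvPowerSeries Ω ℂ)) : FS ((Ψ G : MvPolynomial Ω' ℂ) : MvPowerSeries Ω' ℂ) := by
  classical
  obtain ⟨ε⟩ : Nonempty (Ω ≃ Ω') := Fintype.card_eq.1 (le_antisymm (card_le Ψ.symm) (card_le Ψ))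
  obtain ⟨Θ, hΘ⟩ := inv Ω' _ (coords Ψ h ε).1 (fun i => by
    have := (coords Ψ h ε).2 i
    convert this)
  have hext : ∀ Q : MvPolynomial Ω ℂ, ((Ψ Q : MvPolynomial Ω' ℂ) : MvPowerSeries Ω' ℂ) =
      Θ (MvPowerSeries.renameEquiv ℂ ε (Q : MvPowerSeries Ω ℂ)) := by
    intro Q
    have : ((coeToMvPowerSeries.ringHom (σ := Ω') (R := ℂ)).comp
        (Ψ : MvPolynomial Ω ℂ →+* MvPolynomial Ω' ℂ)) =
        ((Θ : MvPowerSeries Ω' ℂ →+* MvPowerSeries Ω' ℂ).comp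
        ((MvPowerSeries.renameEquiv ℂ ε : MvPowerSeries Ω ℂ ≃ₐ[ℂ] MvPowerSeries Ω' ℂ) :
          MvPowerSeries Ω ℂ →+* MvPowerSeries Ω' ℂ)).comp
          (coeToMvPowerSeries.ringHom (σ := Ω) (R := ℂ)) := by
      refine ringHom_ext (fun r => ?_) fun i => ?_
      · have h1 : Ψ (C r) = C r := Ψ.commutes r
        change ((Ψ (C r) : MvPolynomial Ω' ℂ) : MvPowerSeries Ω' ℂ) =
          Θ (MvPowerSeries.renameEquiv ℂ ε ((C r : MvPolynomial Ω ℂ) : MvPowerSeries Ω ℂ))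
        rw [h1, coe_C, coe_C]
        have h2 : (MvPowerSeries.renameEquiv ℂ ε) (MvPowerSeries.C r) = MvPowerSeries.C r :=
          (MvPowerSeries.renameEquiv ℂ ε).commutes r
        rw [h2]
        exact (Θ.commutes r).symm
      · change ((Ψ (X i) : MvPolynomial Ω' ℂ) : MvPowerSeries Ω' ℂ) =
          Θ (MvPowerSeries.renameEquiv ℂ ε ((X i : MvPolynomial Ω ℂ) : MvPowerSeries Ω ℂ))
        rw [coe_X]
        have h2 : (MvPowerSeries.renameEquiv ℂ ε) (MvPowerSeries.X i) =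
          MvPowerSeries.X (ε i) := MvPowerSeries.rename_X _ _
        rw [h2, hΘ, ε.symm_apply_apply]
    exact RingHom.congr_fun this Q
  obtain ⟨φ, r, m, hm, hφ⟩ := hG
  rw [hext, hφ, SumL.coe_mon]
  let φ' : MvPowerSeries Ω' ℂ ≃ₐ[ℂ] MvPowerSeries Ω' ℂ :=
    (((MvPowerSeries.renameEquiv ℂ ε).symm.trans φ).trans (MvPowerSeries.renameEquiv ℂ ε)).trans Θ
  refine ⟨φ', r, fun j ω => m j (ε.symm ω), ?_, ?_⟩
  · have h1 := hm.map' (LinearMap.funLeft ℚ ℚ ε.symm)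
      (LinearMap.ker_eq_bot.2 (LinearMap.funLeft_injective_of_surjective _ _ _ ε.symm.surjective))
    exact h1
  · rw [SumL.coe_mon]
    change _ = Θ (MvPowerSeries.renameEquiv ℂ ε (φ ((MvPowerSeries.renameEquiv ℂ ε).symm _)))
    congr 3
    rw [AlgEquiv.eq_symm_apply, map_sum]
    refine Finset.sum_congr rfl fun j _ => ?_
    rw [map_prod, ← Equiv.prod_comp ε fun ω => MvPowerSeries.X ω ^ m j (ε.symm ω)]
    refine Finset.prod_congr rfl fun i _ => ?_
    rw [map_pow, ε.symm_apply_apply]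
    congr 1
    exact MvPowerSeries.rename_X _ _

end IsoL

open IsoL MvPolynomial in
theorem iso : S_ISO := by
  intro Ω Ω' _ _ Φ f hf p'
  let p : Ω → ℂ := fun i => eval p' (Φ (X i))
  let Ψ := (trnE p).symm.trans (Φ.trans (trnE p'))
  have hev : ∀ Q, eval p' (Φ Q) = eval p Q := by
    intro Q
    have : ((eval p').comp (Φ : MvPolynomial Ω ℂ →+* MvPolynomial Ω' ℂ)) = eval p := by
      refine ringHom_ext (fun r => ?_) fun i => ?_
      · have h1 : Φ (C r) = C r := Φ.commutes r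
        change eval p' (Φ (C r)) = eval p (C r)
        rw [h1, eval_C, eval_C]
      · change eval p' (Φ (X i)) = eval p (X i)
        rw [eval_X]
    exact RingHom.congr_fun this Q
  have hC : ∀ r, trn p' (C r) = C r := fun r => (trnE p').commutes r
  have h0 : ∀ i, constantCoeff (Ψ (X i)) = 0 := by
    intro i
    change constantCoeff (trn p' (Φ ((trnE p).symm (X i)))) = 0
    rw [trnE_symm_X, map_sub, cc_trn, map_sub]
    have h1 : Φ (C (p i)) = C (p i) := Φ.commutes _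
    rw [h1, eval_C]
    exact sub_self _
  have hF : trn p' (Φ f) - C (eval p' (Φ f)) = Ψ (trn p f - C (eval p f)) := by
    have h1 : Ψ (trn p f) = trn p' (Φ f) := by
      change trn p' (Φ ((trnE p).symm (trnE p f))) = _
      rw [AlgEquiv.symm_apply_apply]
    rw [map_sub, h1, hev]
    congr 1
    exact (Ψ.commutes _).symm
  rw [hF]
  exact fs_iso Ψ h0 _ (hf p)

end Pool.Agent.Helper33K9.FQ
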