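import Pool.Agent.Helper33K9.FQ.St3
import Pool.Agent.Helper33K9.HP.Loc

set_option autoImplicit false
set_option linter.unusedSectionVars false
set_option linter.unusedVariables false

/-! # Functional equations of powers -/

namespace Pool.Agent.Helper33K9.FQ.KbL

open MvPolynomial Pool.Agent.H628R4.TP Pool.Agent.Helper33K9.HP

variable {σ : Type}

/-- `f ^ N * F t = q(t) f ^ t` -/
def PT (f : MvPolynomial σ ℂ) (F : ℕ → MvPolynomial σ ℂ) : Prop :=
  ∃ (N : ℕ) (q : Polynomial (MvPolynomial σ ℂ)),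
    ∀ t : ℕ, f ^ N * F t = q.eval (t : MvPolynomial σ ℂ) * f ^ t

theorem PT.mul {f : MvPolynomial σ ℂ} {F : ℕ → MvPolynomial σ ℂ} (h : PT f F)
    (r : Polynomial (MvPolynomial σ ℂ)) : PT f fun t => r.eval (t : MvPolynomial σ ℂ) * F t := by
  obtain ⟨N, q, hq⟩ := h
  refine ⟨N, r * q, fun t => ?_⟩
  rw [Polynomial.eval_mul]
  linear_combination (r.eval (t : MvPolynomial σ ℂ)) * hq t

theorem PT.add {f : MvPolynomial σ ℂ} {F G : ℕ → MvPolynomial σ ℂ} (h : PT f F) (h' : PT f G) :
    PT f fun t => F t + G t := by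
  obtain ⟨N, q, hq⟩ := h
  obtain ⟨M, r, hr⟩ := h'
  refine ⟨N + M, Polynomial.C (f ^ M) * q + Polynomial.C (f ^ N) * r, fun t => ?_⟩
  rw [Polynomial.eval_add, Polynomial.eval_mul, Polynomial.eval_mul, Polynomial.eval_C,
    Polynomial.eval_C]
  linear_combination f ^ M * hq t + f ^ N * hr t

theorem pt_pow (f : MvPolynomial σ ℂ) (k : ℕ) : PT f fun t => f ^ (t + k) :=
  ⟨0, Polynomial.C (f ^ k), fun t => by
    rw [Polynomial.eval_C, pow_zero, one_mul, ← pow_add, add_comm]⟩

theorem PT.der {f : MvPolynomial σ ℂ} {F : ℕ → MvPolynomial σ ℂ} (h : PT f F) (i : σ) :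
    PT f fun t => pderiv i (F t) := by
  obtain ⟨N, q, hq⟩ := h
  have hd : ∀ q : Polynomial (MvPolynomial σ ℂ), ∃ q' : Polynomial (MvPolynomial σ ℂ), ∀ t : ℕ,
      pderiv i (q.eval (t : MvPolynomial σ ℂ)) = q'.eval (t : MvPolynomial σ ℂ) := by
    intro q
    induction q using Polynomial.induction_on' with
    | add p q hp hq =>
      obtain ⟨p', hp⟩ := hp
      obtain ⟨q', hq⟩ := hq
      exact ⟨p' + q', fun t => by rw [Polynomial.eval_add, map_add, hp, hq, Polynomial.eval_add]⟩
    | monomial n a =>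
      refine ⟨Polynomial.monomial n (pderiv i a), fun t => ?_⟩
      rw [Polynomial.eval_monomial, Polynomial.eval_monomial, Derivation.leibniz,
        Derivation.leibniz_pow, Derivation.map_natCast, smul_zero, smul_zero, smul_zero, zero_add,
        smul_eq_mul, mul_comm]
  obtain ⟨q', hq'⟩ := hd q
  refine ⟨N + 1, Polynomial.C f * q' + Polynomial.X * q * Polynomial.C (pderiv i f) -
    Polynomial.C ((N : MvPolynomial σ ℂ) * pderiv i f) * q, fun t => ?_⟩
  have h1 := congrArg (pderiv i) (hq t)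
  rw [Derivation.leibniz, Derivation.leibniz, Derivation.leibniz_pow, Derivation.leibniz_pow,
    hq'] at h1
  simp only [smul_eq_mul, nsmul_eq_mul] at h1
  simp only [Polynomial.eval_sub, Polynomial.eval_add, Polynomial.eval_mul, Polynomial.eval_C,
    Polynomial.eval_X]
  have h2 : (N : MvPolynomial σ ℂ) * f ^ (N - 1) * f = N * f ^ N := by
    rcases Nat.eq_zero_or_pos N with h | h
    · subst h
      simp
    · rw [mul_assoc, ← pow_succ, Nat.sub_add_cancel h]
  have h3 : (t : MvPolynomial σ ℂ) * f ^ (t - 1) * f = t * f ^ t := by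
    rcases Nat.eq_zero_or_pos t with h | h
    · subst h
      simp
    · rw [mul_assoc, ← pow_succ, Nat.sub_add_cancel h]
  have h4 := hq t
  linear_combination f * h1 - (pderiv i f) * (F t) * h2 + (pderiv i f) *
    (q.eval (t : MvPolynomial σ ℂ)) * h3 - (N : MvPolynomial σ ℂ) * (pderiv i f) * h4

theorem PT.weyl {f : MvPolynomial σ ℂ} {F : ℕ → MvPolynomial σ ℂ} (h : PT f F)
    (Q : Module.End ℂ (MvPolynomial σ ℂ)) (hQ : Q ∈ weylS σ) : PT f fun t => Q (F t) := by
  induction hQ using Algebra.adjoin_induction generalizing F with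
  | mem Q hQ =>
    rcases hQ with ⟨i, rfl⟩ | ⟨i, rfl⟩
    · have := h.mul (Polynomial.C (X i))
      simp only [Polynomial.eval_C] at this
      exact this
    · exact h.der i
  | algebraMap c =>
    have := h.mul (Polynomial.C (C c))
    simp only [Polynomial.eval_C] at this
    simp only [Module.algebraMap_end_apply, smul_eq_C_mul]
    exact this
  | add Q1 Q2 _ _ h1 h2 => exact (h1 h).add (h2 h)
  | mul Q1 Q2 _ _ h1 h2 => exact h1 (h2 h)

/-- identities for the multiples of `k` -/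
theorem PT.ext {f : MvPolynomial σ ℂ} (hf : f ≠ 0) {F G : ℕ → MvPolynomial σ ℂ} (h : PT f F)
    (h' : PT f G) {k : ℕ} (hk : 0 < k) (e : ∀ s, F (k * s) = G (k * s)) (t : ℕ) : F t = G t := by
  obtain ⟨N, q, hq⟩ := h
  obtain ⟨M, r, hr⟩ := h'
  have h1 : Polynomial.C (f ^ M) * q = Polynomial.C (f ^ N) * r := by
    refine Polynomial.eq_of_infinite_eval_eq _ _ (Set.Infinite.mono (s := Set.range fun s : ℕ =>
      ((k * s : ℕ) : MvPolynomial σ ℂ)) ?_ (Set.infinite_range_of_injective fun a b hab => ?_))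
    · rintro _ ⟨s, rfl⟩
      rw [Set.mem_ofPred_eq, Polynomial.eval_mul, Polynomial.eval_mul, Polynomial.eval_C,
        Polynomial.eval_C]
      refine mul_right_cancel₀ (pow_ne_zero (k * s) hf) ?_
      linear_combination f ^ N * hr (k * s) - f ^ M * hq (k * s) + f ^ N * f ^ M * e s
    · have h2 : k * a = k * b := by exact_mod_cast hab
      exact Nat.eq_of_mul_eq_mul_left hk h2
  refine mul_left_cancel₀ (mul_ne_zero (pow_ne_zero N hf) (pow_ne_zero M hf)) ?_
  have h2 := congrArg (Polynomial.eval (t : MvPolynomial σ ℂ)) h1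
  rw [Polynomial.eval_mul, Polynomial.eval_mul, Polynomial.eval_C, Polynomial.eval_C] at h2
  linear_combination f ^ M * hq t - f ^ N * hr t + f ^ t * h2

theorem pt_sum {f : MvPolynomial σ ℂ} {α : Type} (A : Finset α) (F : α → ℕ → MvPolynomial σ ℂ)
    (h : ∀ a ∈ A, PT f (F a)) : PT f fun t => ∑ a ∈ A, F a t := by
  classical
  induction A using Finset.induction_on with
  | empty =>
    refine ⟨0, 0, fun t => ?_⟩
    beta_reduce
    rw [Finset.sum_empty, mul_zero, Polynomial.eval_zero, zero_mul]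
  | insert a A ha ih =>
    have h1 := (h a (Finset.mem_insert_self _ _)).add
      (ih fun b hb => h b (Finset.mem_insert_of_mem hb))
    simp only [Finset.sum_insert ha]
    exact h1

theorem UB_pow {f H : MvPolynomial σ ℂ} (hf : f ≠ 0) {k : ℕ} (hk : 0 < k) {b : Polynomial ℂ}
    (h : UB H (f ^ k) b) :
    UB H f (b.comp (Polynomial.C (1 / (k : ℂ)) * Polynomial.X)) := by
  obtain ⟨p, hp⟩ := h
  have hk' : (k : ℂ) ≠ 0 := by exact_mod_cast hk.ne'
  have hev : ∀ (s : ℕ) (h : MvPolynomial σ ℂ), evS s p h = ∑ m ∈ p.support, ((s : ℂ) ^ m) •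
      ((p.coeff m : weylS σ) : Module.End ℂ (MvPolynomial σ ℂ)) h := by
    intro s h
    conv_lhs => rw [p.as_sum_support_C_mul_X_pow]
    rw [evS_sum]
    refine Finset.sum_congr rfl fun m _ => ?_
    rw [evS_mul_apply, evS_X_pow_apply, evS_C, map_smul]
  refine ⟨∑ m ∈ p.support, Polynomial.X ^ m *
    Polynomial.C ((((1 / (k : ℂ)) ^ m) • p.coeff m) * mulW (f ^ (k - 1))), fun t => ?_⟩
  have h1 : evS t (∑ m ∈ p.support, Polynomial.X ^ m *
      Polynomial.C ((((1 / (k : ℂ)) ^ m) • p.coeff m) * mulW (f ^ (k - 1)))) (f ^ (t + 1)) =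
      ∑ m ∈ p.support, (((t : ℂ) / k) ^ m) •
        ((p.coeff m : weylS σ) : Module.End ℂ (MvPolynomial σ ℂ)) (f ^ (t + k)) := by
    rw [evS_sum]
    refine Finset.sum_congr rfl fun m _ => ?_
    rw [evS_mul_apply, evS_X_pow_apply, evS_C, Subalgebra.coe_mul, Module.End.mul_apply,
      mulW_apply, ← pow_add, Subalgebra.coe_smul, LinearMap.smul_apply, smul_smul, ← mul_pow,
      mul_one_div, show k - 1 + (t + 1) = t + k by omega]
  rw [h1]
  refine PT.ext (F := fun t => C ((b.comp (Polynomial.C (1 / (k : ℂ)) * Polynomial.X)).eval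
      (t : ℂ)) * (H * f ^ t)) (G := fun t => ∑ m ∈ p.support, (((t : ℂ) / k) ^ m) •
        ((p.coeff m : weylS σ) : Module.End ℂ (MvPolynomial σ ℂ)) (f ^ (t + k))) hf ?_ ?_ hk ?_ t
  · have h2 := (pt_pow f 0).mul (((b.comp (Polynomial.C (1 / (k : ℂ)) * Polynomial.X)).map
      (C : ℂ →+* MvPolynomial σ ℂ)) * Polynomial.C H)
    refine (congrArg (PT f) (funext fun t => ?_)).mp h2
    rw [Polynomial.eval_mul, Polynomial.eval_C, add_zero, mul_assoc]
    congr 1
    rw [show (t : MvPolynomial σ ℂ) = C (t : ℂ) by simp, Polynomial.eval_map,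
      Polynomial.eval₂_at_apply]
  · refine pt_sum _ _ fun m _ => ?_
    have h2 := ((pt_pow f k).weyl _ (p.coeff m).2).mul
      ((Polynomial.C (C (1 / (k : ℂ))) * Polynomial.X) ^ m)
    refine (congrArg (PT f) (funext fun t => ?_)).mp h2
    rw [Polynomial.eval_pow, Polynomial.eval_mul, Polynomial.eval_C, Polynomial.eval_X,
      show (t : MvPolynomial σ ℂ) = C (t : ℂ) by simp, ← C_mul, ← C_pow, smul_eq_C_mul]
    congr 3
    ring
  · intro s
    have h2 := hp s
    rw [hev] at h2
    have h3 : (((k * s : ℕ) : ℂ)) / k = s := by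
      push_cast
      field_simp
    simp only [h3]
    rw [← pow_mul, ← pow_mul, Nat.mul_add, Nat.mul_one] at h2
    rw [← h2]
    congr 2
    rw [Polynomial.eval_comp, Polynomial.eval_mul, Polynomial.eval_C, Polynomial.eval_X]
    congr 1
    push_cast
    field_simp

end Pool.Agent.Helper33K9.FQ.KbL

namespace Pool.Agent.Helper33K9.FQ

open MvPolynomial Pool.Agent.H628R4.TP Pool.Agent.Helper33K9.HP

theorem kb : S_KB := by
  intro σ _ f k hk b h
  by_cases hf : f = 0
  · subst hf
    obtain ⟨L, m, a, Q, hQ⟩ := h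
    have h1 : b.eval 0 = 0 := by
      have h2 := hQ 0
      rw [zero_pow hk.ne', Nat.cast_zero] at h2
      simp only [zero_add, pow_one, map_zero, MvPolynomial.coe_zero, mul_zero,
        Finset.sum_const_zero, pow_zero, MvPolynomial.coe_one, mul_one] at h2
      exact (MvPowerSeries.C_injective).eq_iff.1 (h2.trans (map_zero _).symm)
    refine ⟨0, Fin.elim0, Fin.elim0, Fin.elim0, fun s => ?_⟩
    rw [Finset.univ_eq_empty, Finset.sum_empty]
    rcases Nat.eq_zero_or_pos s with h2 | h2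
    · subst h2
      rw [Nat.cast_zero, Polynomial.eval_comp, Polynomial.eval_mul, Polynomial.eval_X, mul_zero,
        h1, map_zero, zero_mul]
    · rw [zero_pow h2.ne', MvPolynomial.coe_zero, mul_zero]
  · rw [local_UB (pow_ne_zero k hf)] at h
    obtain ⟨H, hH, h1⟩ := h
    rw [local_UB hf]
    exact ⟨H, hH, KbL.UB_pow hf hk h1⟩

end Pool.Agent.Helper33K9.FQ
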