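import Pool.Agent.Helper33K9.FQ.Nf1

set_option autoImplicit false

/-! # The normal form: assembly -/

namespace Pool.Agent.Helper33K9.FQ

open MvPowerSeries

variable {n : ℕ}

/-- type `I` -/
def Ty.isI : Ty → Prop
  | .I _ _ => True
  | _ => False

/-- the exponent of `x` -/
def Ty.e : Ty → ℕ
  | .I e _ => e
  | .J β => β
  | .K => 0

/-- the unit -/
noncomputable def Ty.u : Ty → PowerSeries ℂ
  | .I _ u => u
  | _ => 1

/-- type `J` -/
def Ty.isJ : Ty → Prop
  | .J _ => True
  | _ => False

open Classical in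
theorem val_eq (T : Ty) (z : MvPowerSeries (Option (Fin n)) ℂ) :
    val n T z = (if T.isI then X none ^ T.e * ix n T.u * z ^ 2 else 0) +
      (if T.isJ then X none ^ T.e * z else 0) := by
  cases T <;> simp [val, Ty.isI, Ty.isJ, Ty.e, Ty.u]

theorem not_isJ_of_isI {T : Ty} (h : T.isI) : ¬ T.isJ := by
  cases T <;> simp_all [Ty.isI, Ty.isJ]

open Classical in
/-- the part of the normal form which is not a sum of squares -/
noncomputable def WW (T : Fin n → Ty) (z : Fin n → MvPowerSeries (Option (Fin n)) ℂ)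
    (c' : PowerSeries ℂ) : MvPowerSeries (Option (Fin n)) ℂ :=
  (∑ i, if (T i).isJ then X none ^ (T i).e * z i else 0) + ix n c'

theorem lin_mul0 {F G : MvPowerSeries (Option (Fin n)) ℂ} (h : constantCoeff G = 0) :
    lin (F * G) = constantCoeff F • lin G := by
  rw [lin_mul, h, zero_smul, add_zero]

theorem W_cases (T : Fin n → Ty) (z : Fin n → MvPowerSeries (Option (Fin n)) ℂ)
    (c' : PowerSeries ℂ) (hz : ∀ i, constantCoeff (z i) = 0)
    (hc : PowerSeries.constantCoeff c' = 0) :
    WW T z c' = 0 ∨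
    (∃ (γ : ℕ) (U : MvPowerSeries (Option (Fin n)) ℂ), 0 < γ ∧ constantCoeff U ≠ 0 ∧
      WW T z c' = X none ^ γ * U) ∨
    ∃ (β : ℕ) (j₀ : Fin n) (y : MvPowerSeries (Option (Fin n)) ℂ), (T j₀).isJ ∧
      constantCoeff y = 0 ∧ WW T z c' = X none ^ β * y ∧
      ∀ S : Submodule ℂ (Option (Fin n) → ℂ), e0 n ∈ S → lin y ∈ S →
        (∀ i, i ≠ j₀ → lin (z i) ∈ S) → lin (z j₀) ∈ S := by
  classical
  by_cases hJ : ∃ j, (T j).isJ
  · obtain ⟨j₀, hj₀, hmin⟩ : ∃ j₀, (T j₀).isJ ∧ ∀ j, (T j).isJ → (T j₀).e ≤ (T j).e := by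
      obtain ⟨j, hj⟩ := hJ
      obtain ⟨j₀, h1, h2⟩ := Finset.exists_min_image (Finset.univ.filter fun j => (T j).isJ)
        (fun j => (T j).e) ⟨j, by simp [hj]⟩
      refine ⟨j₀, (Finset.mem_filter.1 h1).2, fun k hk => h2 k (by simp [hk])⟩
    set β := (T j₀).e with hβ
    have key : ∀ γ ≤ β, (∑ i, if (T i).isJ then X none ^ (T i).e * z i else 0) =
        X none ^ γ * ∑ i, if (T i).isJ then X none ^ ((T i).e - γ) * z i else 0 := by
      intro γ hγ
      rw [Finset.mul_sum]
      refine Finset.sum_congr rfl fun i _ => ?_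
      by_cases hi : (T i).isJ
      · rw [if_pos hi, if_pos hi, ← mul_assoc, ← pow_add,
          Nat.add_sub_cancel' (hγ.trans (hmin i hi))]
      · rw [if_neg hi, if_neg hi, mul_zero]
    have k0 : ∀ γ, constantCoeff (∑ i, if (T i).isJ then
        (X none ^ ((T i).e - γ) * z i : MvPowerSeries (Option (Fin n)) ℂ) else 0) = 0 := by
      intro γ
      rw [map_sum]
      refine Finset.sum_eq_zero fun i _ => ?_
      split_ifs
      · rw [map_mul, hz, mul_zero]
      · exact map_zero _
    by_cases hd : PowerSeries.X ^ (β + 1) ∣ c'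
    · right; right
      obtain ⟨c'', hc''⟩ := hd
      refine ⟨β, j₀, (∑ i, if (T i).isJ then X none ^ ((T i).e - β) * z i else 0) +
        X none * ix n c'', hj₀, ?_, ?_, ?_⟩
      · rw [map_add, k0, map_mul, constantCoeff_X, zero_mul, add_zero]
      · unfold WW
        rw [key β le_rfl, hc'', ix_Xpow]
        ring
      · intro S h0 hy hi
        have h1 : lin ((∑ i, if (T i).isJ then
            (X none ^ ((T i).e - β) * z i : MvPowerSeries (Option (Fin n)) ℂ) else 0) +
            X none * ix n c'') = lin (z j₀) + ((∑ i ∈ Finset.univ.erase j₀,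
              lin (if (T i).isJ then
                (X none ^ ((T i).e - β) * z i : MvPowerSeries (Option (Fin n)) ℂ) else 0)) +
              constantCoeff (ix n c'') • e0 n) := by
          rw [lin_add, lin_sum, ← Finset.add_sum_erase _ _ (Finset.mem_univ j₀), if_pos hj₀,
            ← hβ, Nat.sub_self, pow_zero, one_mul, lin_mul (X none), constantCoeff_X, zero_smul,
            zero_add, lin_X, add_assoc]
          rfl
        have h2 : lin (z j₀) = lin ((∑ i, if (T i).isJ then
            (X none ^ ((T i).e - β) * z i : MvPowerSeries (Option (Fin n)) ℂ) else 0) +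
            X none * ix n c'') - ((∑ i ∈ Finset.univ.erase j₀,
              lin (if (T i).isJ then
                (X none ^ ((T i).e - β) * z i : MvPowerSeries (Option (Fin n)) ℂ) else 0)) +
              constantCoeff (ix n c'') • e0 n) := by
          rw [h1, add_sub_cancel_right]
        rw [h2]
        refine S.sub_mem hy (S.add_mem (S.sum_mem fun i hi' => ?_) (S.smul_mem _ h0))
        split_ifs
        · rw [lin_mul0 (hz i)]
          exact S.smul_mem _ (hi i (Finset.ne_of_mem_erase hi'))
        · rw [lin_zero]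
          exact S.zero_mem
    · right; left
      have hc0 : c' ≠ 0 := fun h => hd (h ▸ dvd_zero _)
      obtain ⟨γ, u, h1, h2⟩ := exists_ord hc0
      have hγ : γ ≤ β := by
        by_contra hlt
        push Not at hlt
        exact hd (h1 ▸ (pow_dvd_pow _ hlt).mul_right u)
      refine ⟨γ, (∑ i, if (T i).isJ then X none ^ ((T i).e - γ) * z i else 0) + ix n u,
        ?_, ?_, ?_⟩
      · rcases Nat.eq_zero_or_pos γ with h | h
        · exfalso
          rw [h1, h, pow_zero, one_mul] at hc
          exact h2 hc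
        · exact h
      · rw [map_add, k0, zero_add, cc_ix]
        exact h2
      · unfold WW
        rw [key γ hγ, h1, ix_Xpow, mul_add]
  · push Not at hJ
    have h0 : WW T z c' = ix n c' := by
      unfold WW
      rw [Finset.sum_eq_zero fun i _ => if_neg (hJ i), zero_add]
    by_cases hc0 : c' = 0
    · left
      rw [h0, hc0, map_zero]
    · right; left
      obtain ⟨γ, u, h1, h2⟩ := exists_ord hc0
      refine ⟨γ, ix n u, ?_, ?_, ?_⟩
      · rcases Nat.eq_zero_or_pos γ with h | h
        · exfalso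
          rw [h1, h, pow_zero, one_mul] at hc
          exact h2 hc
        · exact h
      · rw [cc_ix]
        exact h2
      · rw [h0, h1, ix_Xpow]

/-- the conclusion of `S_NF` for `F` -/
def Conc (F : MvPowerSeries (Option (Fin n)) ℂ) : Prop :=
  ∃ (Φ : MvPowerSeries (Option (Fin n)) ℂ ≃ₐ[ℂ] MvPowerSeries (Option (Fin n)) ℂ) (r : ℕ)
    (m : Fin r → Option (Fin n) → ℕ), 0 < r ∧ (∀ j, m j ≠ 0) ∧
    LinearIndependent ℚ (fun j i => (m j i : ℚ)) ∧
    Φ (((∑ j, ∏ i, MvPolynomial.X i ^ m j i : MvPolynomial (Option (Fin n)) ℂ)) :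
      MvPowerSeries (Option (Fin n)) ℂ) = F

theorem conc_of (inv : S_INV) (F : MvPowerSeries (Option (Fin n)) ℂ)
    (y : Option (Fin n) → MvPowerSeries (Option (Fin n)) ℂ)
    (h0 : ∀ k, constantCoeff (y k) = 0)
    (hs : ∀ k, (Pi.single k 1 : Option (Fin n) → ℂ) ∈
      Submodule.span ℂ (Set.range fun j => lin (y j)))
    {ι : Type} [Fintype ι] [Nonempty ι] (m : ι → Option (Fin n) → ℕ)
    (hl : LinearIndependent ℚ (fun j i => (m j i : ℚ)))
    (hF : F = ∑ j, ∏ i, y i ^ m j i) : Conc F := by
  classical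
  obtain ⟨Φ, hΦ⟩ := inv (Option (Fin n)) y h0 hs
  let e := (Fintype.equivFin ι).symm
  refine ⟨Φ, Fintype.card ι, fun j => m (e j), Fintype.card_pos, fun j h => ?_, ?_, ?_⟩
  · refine hl.ne_zero (e j) ?_
    funext i
    have := congrFun h i
    simp only [Pi.zero_apply] at this ⊢
    rw [this, Nat.cast_zero]
  · exact hl.comp e e.injective
  · have h1 : ((∑ j, ∏ i, MvPolynomial.X i ^ m (e j) i : MvPolynomial (Option (Fin n)) ℂ) :
        MvPowerSeries (Option (Fin n)) ℂ) = ∑ j, ∏ i, X i ^ m (e j) i := by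
      rw [← MvPolynomial.coeToMvPowerSeries.ringHom_apply, map_sum]
      refine Finset.sum_congr rfl fun j _ => ?_
      rw [map_prod]
      refine Finset.prod_congr rfl fun i _ => ?_
      rw [map_pow, MvPolynomial.coeToMvPowerSeries.ringHom_apply, MvPolynomial.coe_X]
    rw [h1, map_sum, hF]
    rw [← Equiv.sum_comp e fun j => ∏ i, y i ^ m j i]
    refine Finset.sum_congr rfl fun j _ => ?_
    rw [map_prod]
    refine Finset.prod_congr rfl fun i _ => ?_
    rw [map_pow, hΦ]

/-- `x ^ e v_i ^ 2` -/
def mI (n : ℕ) (e : ℕ) (i : Fin n) : Option (Fin n) → ℕ :=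
  fun k => k.elim e fun j => if j = i then 2 else 0

theorem prod_mI (e : ℕ) (i : Fin n) (y : Option (Fin n) → MvPowerSeries (Option (Fin n)) ℂ) :
    ∏ k, y k ^ mI n e i k = y none ^ e * y (some i) ^ 2 := by
  classical
  rw [Fintype.prod_option]
  congr 1
  rw [Finset.prod_eq_single i]
  · simp [mI]
  · intro j _ hj
    simp [mI, hj]
  · intro h
    exact absurd (Finset.mem_univ i) h

theorem li_option (I : Fin n → Prop) (e : Fin n → ℕ) (mx : Option (Fin n) → ℕ) (hx : mx ≠ 0)
    (hxI : ∀ i, I i → mx (some i) = 0) :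
    LinearIndependent ℚ (fun (o : Option {i // I i}) (k : Option (Fin n)) =>
      ((o.elim mx (fun i => mI n (e i) i) k : ℕ) : ℚ)) := by
  classical
  rw [Fintype.linearIndependent_iff]
  intro g hg
  rw [Fintype.sum_option] at hg
  have h1 : ∀ i : {i // I i}, g (some i) = 0 := by
    intro i
    have h2 := congrFun hg (some (i : Fin n))
    rw [Pi.add_apply, Pi.smul_apply, Finset.sum_apply, Finset.sum_eq_single i] at h2
    · simp only [Option.elim_none, Option.elim_some, Pi.smul_apply, mI, smul_eq_mul,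
        hxI i i.2, Nat.cast_zero, mul_zero, zero_add, if_true, Pi.zero_apply] at h2
      norm_num at h2
      exact h2
    · intro j _ hj
      have : (i : Fin n) ≠ j := fun h => hj (Subtype.ext h.symm)
      simp [mI, this]
    · intro h
      exact absurd (Finset.mem_univ i) h
  intro o
  rcases o with _ | i
  · obtain ⟨k, hk⟩ : ∃ k, mx k ≠ 0 := by
      by_contra h
      push Not at h
      exact hx (funext h)
    have h2 := congrFun hg k
    rw [Pi.add_apply, Pi.smul_apply, Finset.sum_apply, Finset.sum_eq_zero] at h2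
    · simp only [Option.elim_none, smul_eq_mul, add_zero, Pi.zero_apply, mul_eq_zero,
        Nat.cast_eq_zero] at h2
      exact h2.resolve_right hk
    · intro i _
      rw [Pi.smul_apply, h1 i, zero_smul]
  · exact h1 i

end Pool.Agent.Helper33K9.FQ
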