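import Pool.Agent.Helper33K9.FQ.St2
import Pool.Agent.Helper33K9.FQ.Nf2

set_option autoImplicit false

/-! # Families over a line: bookkeeping -/

namespace Pool.Agent.Helper33K9.FQ

open MvPowerSeries

section

variable {n : ℕ} {κ : Type} {τ : κ → Type}

/-- the blocks -/
def BB (n : ℕ) (τ : κ → Type) : Option κ → Type
  | none => Option (Fin n)
  | some k => τ k

instance instBB [∀ k, Fintype (τ k)] : ∀ b, Fintype (BB n τ b)
  | none => (inferInstance : Fintype (Option (Fin n)))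
  | some k => (inferInstance : Fintype (τ k))

/-- the union of the blocks -/
def EE (n : ℕ) (τ : κ → Type) : (Σ b, BB n τ b) ≃ Option (Fin n) ⊕ Σ k, τ k where
  toFun := fun
    | ⟨none, i⟩ => Sum.inl i
    | ⟨some k, i⟩ => Sum.inr ⟨k, i⟩
  invFun := fun
    | Sum.inl i => ⟨none, i⟩
    | Sum.inr ⟨k, i⟩ => ⟨some k, i⟩
  left_inv := by
    rintro ⟨_ | k, i⟩ <;> rfl
  right_inv := by
    rintro (i | ⟨k, i⟩) <;> rfl

/-- the coordinates of the blocks -/
noncomputable def yy (z : Fin n → MvPowerSeries (Option (Fin n)) ℂ)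
    (w : ∀ k, τ k → MvPowerSeries (τ k) ℂ) : ∀ b, BB n τ b → MvPowerSeries (BB n τ b) ℂ
  | none => fun i => Option.elim i (X none) z
  | some k => w k

/-- the variable `x` and the others -/
def FF (n : ℕ) (τ : κ → Type) : Unit ⊕ (Fin n ⊕ Σ k, τ k) ≃ Option (Fin n) ⊕ Σ k, τ k where
  toFun := fun
    | Sum.inl _ => Sum.inl none
    | Sum.inr (Sum.inl i) => Sum.inl (some i)
    | Sum.inr (Sum.inr t) => Sum.inr t
  invFun := fun
    | Sum.inl none => Sum.inl ()
    | Sum.inl (some i) => Sum.inr (Sum.inl i)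
    | Sum.inr t => Sum.inr (Sum.inr t)
  left_inv := by
    rintro (_ | _ | _) <;> rfl
  right_inv := by
    rintro ((_ | _) | _) <;> rfl

open Classical in
/-- the exponents -/
noncomputable def mm (d : Fin n → ℕ) {r : κ → ℕ} (m : ∀ k, Fin (r k) → τ k → ℕ) :
    (Fin n ⊕ Σ k, Fin (r k)) → (Fin n ⊕ Σ k, τ k) → ℕ
  | Sum.inl i, Sum.inl j => if j = i then d i else 0
  | Sum.inl _, Sum.inr _ => 0
  | Sum.inr _, Sum.inl _ => 0
  | Sum.inr a, Sum.inr b => if h : b.1 = a.1 then m a.1 a.2 (h ▸ b.2) else 0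

/-- the block of a monomial or of a variable -/
def bk {α : κ → Type} : (Fin n ⊕ Σ k, α k) → Fin n ⊕ κ
  | Sum.inl i => Sum.inl i
  | Sum.inr a => Sum.inr a.1

theorem mm_blk (d : Fin n → ℕ) {r : κ → ℕ} (m : ∀ k, Fin (r k) → τ k → ℕ)
    (j : Fin n ⊕ Σ k, Fin (r k)) (i : Fin n ⊕ Σ k, τ k) (h : mm d m j i ≠ 0) :
    bk i = bk (α := fun k => Fin (r k)) j := by
  rcases j with j | j <;> rcases i with i | i
  · simp only [mm] at h
    split_ifs at h with h1
    · rw [h1]
      rfl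
    · exact absurd rfl h
  · exact absurd rfl h
  · exact absurd rfl h
  · simp only [mm] at h
    split_ifs at h with h1
    · simp only [bk, h1]
    · exact absurd rfl h

theorem mm_self (d : Fin n → ℕ) {r : κ → ℕ} (m : ∀ k, Fin (r k) → τ k → ℕ) (k : κ)
    (j : Fin (r k)) (i : τ k) : mm d m (Sum.inr ⟨k, j⟩) (Sum.inr ⟨k, i⟩) = m k j i := by
  simp [mm]

theorem mm_li [Fintype κ] [∀ k, Fintype (τ k)] (d : Fin n → ℕ) (hd : ∀ i, d i ≠ 0) {r : κ → ℕ}
    (m : ∀ k, Fin (r k) → τ k → ℕ)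
    (hl : ∀ k, LinearIndependent ℚ (fun j i => (m k j i : ℚ))) :
    LinearIndependent ℚ (fun j i => (mm d m j i : ℚ)) := by
  classical
  rw [Fintype.linearIndependent_iff]
  intro g hg
  rw [Fintype.sum_sum_type] at hg
  have h1 : ∀ i, g (Sum.inl i) = 0 := by
    intro i
    have h2 := congrFun hg (Sum.inl i)
    rw [Pi.add_apply, Finset.sum_apply, Finset.sum_apply, Finset.sum_eq_single i,
      Finset.sum_eq_zero (s := Finset.univ) (f := fun c : Σ k, Fin (r k) =>
        (g (Sum.inr c) • fun i => (mm d m (Sum.inr c) i : ℚ)) (Sum.inl i))] at h2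
    · simp only [Pi.smul_apply, mm, if_true, smul_eq_mul, add_zero, Pi.zero_apply, mul_eq_zero,
        Nat.cast_eq_zero] at h2
      exact h2.resolve_right (hd i)
    · intro c _
      simp [mm]
    · intro j _ hj
      simp [mm, Ne.symm hj]
    · intro h
      exact absurd (Finset.mem_univ i) h
  have h2 : ∀ k j, g (Sum.inr ⟨k, j⟩) = 0 := by
    intro k
    refine Fintype.linearIndependent_iff.1 (hl k) (fun j => g (Sum.inr ⟨k, j⟩)) ?_
    funext i
    have h3 := congrFun hg (Sum.inr ⟨k, i⟩)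
    rw [Pi.add_apply, Finset.sum_apply, Finset.sum_apply, Finset.sum_eq_zero
      (s := Finset.univ) (f := fun c : Fin n =>
        (g (Sum.inl c) • fun i => (mm d m (Sum.inl c) i : ℚ)) (Sum.inr ⟨k, i⟩)), zero_add,
      Fintype.sum_sigma, Finset.sum_eq_single k] at h3
    · rw [Finset.sum_apply, Pi.zero_apply]
      rw [Pi.zero_apply] at h3
      rw [← h3]
      refine Finset.sum_congr rfl fun j _ => ?_
      rw [Pi.smul_apply, Pi.smul_apply, mm_self]
    · intro k' _ hk
      refine Finset.sum_eq_zero fun j _ => ?_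
      simp [mm, Ne.symm hk]
    · intro h
      exact absurd (Finset.mem_univ k) h
    · intro c _
      simp [mm]
  rintro (i | ⟨k, j⟩)
  · exact h1 i
  · exact h2 k j

/-- the monomials of the first kind -/
theorem prod_inl [Fintype κ] [∀ k, Fintype (τ k)] {M : Type} [CommMonoid M] (d : Fin n → ℕ)
    {r : κ → ℕ} (m : ∀ k, Fin (r k) → τ k → ℕ) (y : (Fin n ⊕ Σ k, τ k) → M) (i : Fin n) :
    ∏ b, y b ^ mm d m (Sum.inl i) b = y (Sum.inl i) ^ d i := by
  classical
  rw [Fintype.prod_sum_type, Finset.prod_eq_single i, Finset.prod_eq_one]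
  · simp [mm]
  · intro b _
    simp [mm]
  · intro j _ hj
    simp [mm, hj]
  · intro h
    exact absurd (Finset.mem_univ i) h

/-- the monomials of the second kind -/
theorem prod_inr [Fintype κ] [∀ k, Fintype (τ k)] {M : Type} [CommMonoid M] (d : Fin n → ℕ)
    {r : κ → ℕ} (m : ∀ k, Fin (r k) → τ k → ℕ) (y : (Fin n ⊕ Σ k, τ k) → M) (k : κ)
    (j : Fin (r k)) :
    ∏ b, y b ^ mm d m (Sum.inr ⟨k, j⟩) b = ∏ i, y (Sum.inr ⟨k, i⟩) ^ m k j i := by
  classical
  rw [Fintype.prod_sum_type, Finset.prod_eq_one, one_mul, Fintype.prod_sigma,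
    Finset.prod_eq_single k]
  · simp only [mm_self]
  · intro k' _ hk
    refine Finset.prod_eq_one fun i _ => ?_
    simp [mm, hk]
  · intro h
    exact absurd (Finset.mem_univ k) h
  · intro b _
    simp [mm]

end

end Pool.Agent.Helper33K9.FQ
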