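import Pool.Agent.Helper33K9.FQ.Node1
import Pool.Agent.Helper33K9.FQ.Node2

set_option autoImplicit false

/-! # Families over a line: the closure theorem -/

namespace Pool.Agent.Helper33K9.FQ

open MvPowerSeries

/-- the multiplicity -/
def Ty.d : Ty → ℕ
  | .I _ _ => 2
  | _ => 1

/-- the coefficient -/
noncomputable def Ty.c : Ty → PowerSeries ℂ
  | .I _ u => u
  | .J _ => 1
  | .K => 0

theorem Ty.d_ne (T : Ty) : T.d ≠ 0 := by
  cases T <;> simp [Ty.d]

theorem val_dc {n : ℕ} (T : Ty) (z : MvPowerSeries (Option (Fin n)) ℂ) :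
    val n T z = ix n T.c * X none ^ T.e * z ^ T.d := by
  cases T with
  | I e u =>
    simp only [val, Ty.c, Ty.e, Ty.d]
    ring
  | J β =>
    simp [val, Ty.c, Ty.e, Ty.d]
  | K => simp [val, Ty.c]

/-- a power series is zero or a unit times a power of `x` -/
theorem exists_ord' (a : PowerSeries ℂ) : ∃ (e : ℕ) (u : PowerSeries ℂ),
    a = PowerSeries.X ^ e * u ∧ (u = 0 ∨ PowerSeries.constantCoeff u ≠ 0) := by
  by_cases h : a = 0
  · exact ⟨0, 0, by rw [h, mul_zero], Or.inl rfl⟩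
  · obtain ⟨e, u, h1, h2⟩ := exists_ord h
    exact ⟨e, u, h1, Or.inr h2⟩

theorem cc_qd {n : ℕ} (A : Matrix (Fin n) (Fin n) (PowerSeries ℂ)) (B : Fin n → PowerSeries ℂ)
    (c : PowerSeries ℂ) :
    constantCoeff (qd A B c fun i => X (some i)) = PowerSeries.constantCoeff c := by
  unfold qd
  simp only [map_add, map_sum, map_mul, constantCoeff_X, mul_zero, Finset.sum_const_zero,
    zero_add, cc_ix]

theorem coe_poly {n : ℕ} (b : Polynomial ℂ) :
    ((Polynomial.aeval (MvPolynomial.X none : MvPolynomial (Option (Fin n)) ℂ) b :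
      MvPolynomial (Option (Fin n)) ℂ) : MvPowerSeries (Option (Fin n)) ℂ) =
      ix n (b : PowerSeries ℂ) := by
  unfold ix
  rw [PowerSeries.substAlgHom_coe, ← MvPolynomial.coe_X]
  exact (Polynomial.aeval_algHom_apply (MvPolynomial.coeToMvPowerSeries.algHom ℂ)
    (MvPolynomial.X none) b).symm

theorem single_inst {α : Type} (I J : DecidableEq α) (k : α) :
    @Pi.single α (fun _ => ℂ) _ I k 1 = @Pi.single α (fun _ => ℂ) _ J k 1 := by
  have h : I = J := Subsingleton.elim _ _
  rw [h]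

theorem coords_zero {n : ℕ} {z : Fin n → MvPowerSeries (Option (Fin n)) ℂ}
    (hz : ∀ i, constantCoeff (z i) = 0)
    (hsp : ∀ S : Submodule ℂ (Option (Fin n) → ℂ), e0 n ∈ S → (∀ i, lin (z i) ∈ S) →
      ∀ k, (Pi.single k 1 : Option (Fin n) → ℂ) ∈ S) :
    Coords (fun i : Option (Fin n) => Option.elim i (X none) z) := by
  refine ⟨fun i => ?_, fun k => ?_⟩
  · rcases i with _ | i
    · exact constantCoeff_X _
    · exact hz i
  · have h1 := hsp (Submodule.span ℂ (Set.range fun j : Option (Fin n) =>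
      lin (Option.elim j (X none) z))) ?_ ?_ k
    · rw [single_inst] at h1
      exact h1
    · refine Submodule.subset_span ⟨none, ?_⟩
      change lin (X none) = _
      rw [lin_X]
      rfl
    · intro i
      exact Submodule.subset_span ⟨some i, rfl⟩

theorem node_fs (dg : S_DIAG) (poly : S_POLY) (co : S_CO) (emb : S_EMB) (asm : S_ASM)
    {n : ℕ} {κ : Type} [Fintype κ] {τ : κ → Type} [∀ k, Fintype (τ k)]
    (Q : MvPolynomial (Option (Fin n)) ℂ) (hQ : DD 2 Q) (hQ0 : MvPolynomial.constantCoeff Q = 0)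
    (b : κ → Polynomial ℂ) (G : ∀ k, MvPolynomial (τ k) ℂ)
    (hG : ∀ k, FS (G k : MvPowerSeries (τ k) ℂ)) :
    FS ((node Q b G : MvPolynomial (Option (Fin n) ⊕ Σ k, τ k) ℂ) :
      MvPowerSeries (Option (Fin n) ⊕ Σ k, τ k) ℂ) := by
  classical
  obtain ⟨A, B, c, hA, hQ1⟩ := poly n Q hQ
  have hc : PowerSeries.constantCoeff c = 0 := by
    rw [← cc_qd A B c, ← hQ1]
    have := MvPolynomial.coeff_coe Q 0
    rw [← coeff_zero_eq_constantCoeff_apply, this]
    exact hQ0
  obtain ⟨T, z, c', hz, hu, hc', hsp, hF⟩ := stage1 dg A B c hA hc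
  choose Φ r m hl hG1 using hG
  set w : ∀ k, τ k → MvPowerSeries (τ k) ℂ := fun k i => Φ k (X i) with hw
  have hco : ∀ b, Coords (yy z w b) := by
    rintro (_ | k)
    · exact coords_zero hz hsp
    · exact co (τ k) (Φ k)
  have hY := emb (Option (Fin n) ⊕ Σ k, τ k) (Option κ) (BB n τ) (EE n τ) (yy z w) hco
  set Y : (Option (Fin n) ⊕ Σ k, τ k) → MvPowerSeries (Option (Fin n) ⊕ Σ k, τ k) ℂ := fun ω =>
    rename (fun i : BB n τ ((EE n τ).symm ω).1 => (EE n τ) ⟨((EE n τ).symm ω).1, i⟩)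
      (yy z w ((EE n τ).symm ω).1 ((EE n τ).symm ω).2) with hYdef
  set ρ : MvPowerSeries (Option (Fin n)) ℂ →ₐ[ℂ] MvPowerSeries (Option (Fin n) ⊕ Σ k, τ k) ℂ :=
    rename (Sum.inl : Option (Fin n) → Option (Fin n) ⊕ Σ k, τ k) with hρ
  set θ : ∀ k, MvPowerSeries (τ k) ℂ →ₐ[ℂ] MvPowerSeries (Option (Fin n) ⊕ Σ k, τ k) ℂ :=
    fun k => rename (fun i : τ k => (Sum.inr (Sigma.mk k i) : Option (Fin n) ⊕ Σ k, τ k)) with hθ
  have Y0 : Y (Sum.inl none) = ρ (X none) := rfl
  have Y1 : ∀ i, Y (Sum.inl (some i)) = ρ (z i) := fun i => rfl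
  have Y2 : ∀ k i, Y (Sum.inr ⟨k, i⟩) = θ k (Φ k (X i)) := fun k i => rfl
  -- the coefficients
  choose eb ub hb1 hb2 using fun k => exists_ord' (b k : PowerSeries ℂ)
  obtain ⟨γ, u₀, h01, h02⟩ := exists_ord' c'
  have hγ : u₀ = 0 ∨ (γ ≠ 0 ∧ PowerSeries.constantCoeff u₀ ≠ 0) := by
    rcases h02 with h | h
    · exact Or.inl h
    · refine Or.inr ⟨fun h3 => ?_, h⟩
      rw [h01, h3, pow_zero, one_mul] at hc'
      exact h hc'
  have hccρ : ∀ a : PowerSeries ℂ, constantCoeff (ρ (ix n a)) = PowerSeries.constantCoeff a := by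
    intro a
    rw [hρ, constantCoeff_rename, cc_ix]
  have huT : ∀ i, (T i).c = 0 ∨ PowerSeries.constantCoeff (T i).c ≠ 0 := by
    intro i
    rcases hT : T i with ⟨e, u⟩ | β | _
    · exact Or.inr (hu i e u hT)
    · right
      simp [Ty.c]
    · left
      rfl
  have key := asm (Option (Fin n) ⊕ Σ k, τ k) Unit (Fin n ⊕ Σ k, τ k) (Fin n ⊕ κ)
    (Fin n ⊕ Σ k, Fin (r k)) (FF n τ) Y hY (mm (fun i => (T i).d) m)
    (mm_li _ (fun i => (T i).d_ne) m hl) (bk (α := fun k => Fin (r k))) bk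
    (fun j i h => mm_blk _ m j i h)
    (fun k _ => Sum.elim (fun i => (T i).e) eb k)
    (fun k => ρ (ix n (Sum.elim (fun i => (T i).c) ub k)))
    (by
      rintro (i | k)
      · rcases huT i with h | h
        · left
          simp only [Sum.elim_inl, h, map_zero]
        · right
          simp only [Sum.elim_inl, hccρ]
          exact h
      · rcases hb2 k with h | h
        · left
          simp only [Sum.elim_inr, h, map_zero]
        · right
          simp only [Sum.elim_inr, hccρ]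
          exact h)
    (fun _ => γ) (ρ (ix n u₀))
    (by
      rcases hγ with h | ⟨h1, h2⟩
      · left
        rw [h, map_zero, map_zero]
      · right
        refine ⟨fun h3 => h1 (congrFun h3 ()), ?_⟩
        rw [hccρ]
        exact h2)
  -- the sums over the monomials of a block
  have s1 : ∀ i : Fin n, (∑ j, if bk (α := fun k => Fin (r k)) j = (Sum.inl i : Fin n ⊕ κ) then
      ∏ a, Y (FF n τ (Sum.inr a)) ^ mm (fun i => (T i).d) m j a else 0) = ρ (z i) ^ (T i).d := by
    intro i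
    rw [Fintype.sum_sum_type, Finset.sum_eq_single i, Finset.sum_eq_zero
      (s := Finset.univ) (f := fun c : Σ k, Fin (r k) => if bk (α := fun k => Fin (r k))
        (Sum.inr c) = (Sum.inl i : Fin n ⊕ κ) then
        ∏ a, Y (FF n τ (Sum.inr a)) ^ mm (fun i => (T i).d) m (Sum.inr c) a else 0), add_zero,
      if_pos (show bk (α := fun k => Fin (r k)) (Sum.inl i) = (Sum.inl i : Fin n ⊕ κ) from rfl)]
    · exact prod_inl (fun i => (T i).d) m (fun a => Y (FF n τ (Sum.inr a))) i
    · intro c _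
      exact if_neg (by simp [bk])
    · intro j _ hj
      refine if_neg fun h => hj ?_
      simpa [bk] using h
    · intro h
      exact absurd (Finset.mem_univ i) h
  have s2 : ∀ k : κ, (∑ j, if bk (α := fun k => Fin (r k)) j = (Sum.inr k : Fin n ⊕ κ) then
      ∏ a, Y (FF n τ (Sum.inr a)) ^ mm (fun i => (T i).d) m j a else 0) =
      θ k (G k : MvPowerSeries (τ k) ℂ) := by
    intro k
    rw [Fintype.sum_sum_type, Finset.sum_eq_zero (s := Finset.univ) (f := fun c : Fin n =>
        if bk (α := fun k => Fin (r k)) (Sum.inl c) = (Sum.inr k : Fin n ⊕ κ) then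
        ∏ a, Y (FF n τ (Sum.inr a)) ^ mm (fun i => (T i).d) m (Sum.inl c) a else 0), zero_add,
      Fintype.sum_sigma, Finset.sum_eq_single k]
    · rw [hG1 k]
      have h1 : ((∑ j, ∏ i, MvPolynomial.X i ^ m k j i : MvPolynomial (τ k) ℂ) :
          MvPowerSeries (τ k) ℂ) = ∑ j, ∏ i, X i ^ m k j i := by
        rw [← MvPolynomial.coeToMvPowerSeries.ringHom_apply, map_sum]
        refine Finset.sum_congr rfl fun j _ => ?_
        rw [map_prod]
        refine Finset.prod_congr rfl fun i _ => ?_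
        rw [map_pow, MvPolynomial.coeToMvPowerSeries.ringHom_apply, MvPolynomial.coe_X]
      rw [h1, map_sum, map_sum]
      refine Finset.sum_congr rfl fun j _ => ?_
      rw [if_pos (show bk (α := fun k => Fin (r k)) (Sum.inr ⟨k, j⟩) = (Sum.inr k : Fin n ⊕ κ) from rfl),
        map_prod, map_prod]
      refine (prod_inr (fun i => (T i).d) m (fun a => Y (FF n τ (Sum.inr a))) k j).trans ?_
      refine Finset.prod_congr rfl fun i _ => ?_
      rw [map_pow, map_pow, ← Y2]
      rfl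
    · intro k' _ hk
      refine Finset.sum_eq_zero fun j _ => if_neg fun h => hk ?_
      simpa [bk] using h
    · intro h
      exact absurd (Finset.mem_univ k) h
    · intro c _
      exact if_neg (by simp [bk])
  have e1 : ((node Q b G : MvPolynomial (Option (Fin n) ⊕ Σ k, τ k) ℂ) :
      MvPowerSeries (Option (Fin n) ⊕ Σ k, τ k) ℂ) =
      ρ (Q : MvPowerSeries (Option (Fin n)) ℂ) +
        ∑ k, ρ (ix n (b k : PowerSeries ℂ)) * θ k (G k : MvPowerSeries (τ k) ℂ) := by
    unfold node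
    rw [MvPolynomial.coe_add, ← rename_coe]
    congr 1
    rw [← MvPolynomial.coeToMvPowerSeries.ringHom_apply, map_sum]
    refine Finset.sum_congr rfl fun k _ => ?_
    have h5 : Polynomial.aeval (MvPolynomial.X (Sum.inl none) :
        MvPolynomial (Option (Fin n) ⊕ Σ k, τ k) ℂ) (b k) =
        MvPolynomial.rename (Sum.inl : Option (Fin n) → Option (Fin n) ⊕ Σ k, τ k)
          (Polynomial.aeval (MvPolynomial.X none) (b k)) := by
      rw [← Polynomial.aeval_algHom_apply, MvPolynomial.rename_X]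
    rw [map_mul, MvPolynomial.coeToMvPowerSeries.ringHom_apply,
      MvPolynomial.coeToMvPowerSeries.ringHom_apply, h5, ← rename_coe, ← rename_coe, coe_poly]
  have e2 : ρ (Q : MvPowerSeries (Option (Fin n)) ℂ) =
      (∑ i, ρ (ix n (T i).c) * ρ (X none) ^ (T i).e * ρ (z i) ^ (T i).d) +
        ρ (ix n u₀) * ρ (X none) ^ γ := by
    rw [hQ1, hF, map_add, map_sum]
    congr 1
    · refine Finset.sum_congr rfl fun i _ => ?_
      rw [val_dc]
      simp only [map_mul, map_pow]
    · rw [h01, ix_Xpow, map_mul, map_pow, mul_comm]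
  have e3 : ∀ k, ρ (ix n (b k : PowerSeries ℂ)) = ρ (ix n (ub k)) * ρ (X none) ^ (eb k) := by
    intro k
    rw [hb1 k, ix_Xpow, map_mul, map_pow, mul_comm]
  have e4 : ((node Q b G : MvPolynomial (Option (Fin n) ⊕ Σ k, τ k) ℂ) :
      MvPowerSeries (Option (Fin n) ⊕ Σ k, τ k) ℂ) =
      (∑ k : Fin n ⊕ κ, ρ (ix n (Sum.elim (fun i => (T i).c) ub k)) *
        (∏ s : Unit, Y (FF n τ (Sum.inl s)) ^ Sum.elim (fun i => (T i).e) eb k) *
          ∑ j, if bk (α := fun k => Fin (r k)) j = k then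
            ∏ i, Y (FF n τ (Sum.inr i)) ^ mm (fun i => (T i).d) m j i else 0) +
        ρ (ix n u₀) * ∏ s : Unit, Y (FF n τ (Sum.inl s)) ^ γ := by
    rw [Fintype.sum_sum_type]
    simp only [s1, s2, Sum.elim_inl, Sum.elim_inr, Finset.univ_unique, Finset.prod_singleton]
    rw [e1, e2]
    simp only [e3]
    change _ = (∑ i, ρ (ix n (T i).c) * ρ (X none) ^ (T i).e * ρ (z i) ^ (T i).d) +
      (∑ k, ρ (ix n (ub k)) * ρ (X none) ^ (eb k) * θ k (G k : MvPowerSeries (τ k) ℂ)) +
      ρ (ix n u₀) * ρ (X none) ^ γ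
    ring
  rw [e4]
  exact key

theorem node_lfs (dg : S_DIAG) (poly : S_POLY) (co : S_CO) (emb : S_EMB) (asm : S_ASM) :
    S_NODE := by
  intro n κ _ τ _ q a g hq hg p
  obtain ⟨Q, b, h1, h2, h3⟩ := node_trn q a g hq p
  rw [h3]
  exact node_fs dg poly co emb asm Q h1 h2 b _ fun k => hg k _

end Pool.Agent.Helper33K9.FQ
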