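import Pool.Agent.Helper33K9.FQ.St3

/-!
[PB] functional equations of external products: if `b` satisfies a local functional equation for
`f(x) g(y)` then it satisfies one for `f(x)`.
-/

set_option autoImplicit false
set_option linter.unusedSectionVars false

namespace Pool.Agent.Helper33K9.FQ

open Pool.Agent.H628R4.TP Pool.Agent.Helper33K9.HP

namespace PbL

open MvPolynomial

variable {σ τ : Type}

/-- the product `u(x) v(y)` -/
noncomputable def pr (u : MvPolynomial σ ℂ) (v : MvPolynomial τ ℂ) : MvPolynomial (σ ⊕ τ) ℂ :=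
  rename Sum.inl u * rename Sum.inr v

theorem pderiv_inl (i : σ) (u : MvPolynomial σ ℂ) (v : MvPolynomial τ ℂ) :
    pderiv (Sum.inl i) (pr u v) = pr (pderiv i u) v := by
  classical
  unfold pr
  have h1 : pderiv (Sum.inl i : σ ⊕ τ) (rename Sum.inr v : MvPolynomial (σ ⊕ τ) ℂ) = 0 := by
    refine pderiv_eq_zero_of_notMem_vars fun h => ?_
    have h2 := vars_rename _ _ h
    simp at h2
  rw [Derivation.leibniz, h1, smul_zero, zero_add, pderiv_rename Sum.inl_injective, smul_eq_mul,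
    mul_comm]

theorem pderiv_inr (i : τ) (u : MvPolynomial σ ℂ) (v : MvPolynomial τ ℂ) :
    pderiv (Sum.inr i) (pr u v) = pr u (pderiv i v) := by
  classical
  unfold pr
  have h1 : pderiv (Sum.inr i : σ ⊕ τ) (rename Sum.inl u : MvPolynomial (σ ⊕ τ) ℂ) = 0 := by
    refine pderiv_eq_zero_of_notMem_vars fun h => ?_
    have h2 := vars_rename _ _ h
    simp at h2
  rw [Derivation.leibniz, h1, smul_zero, add_zero, pderiv_rename Sum.inr_injective, smul_eq_mul]

/-- operators on products -/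
theorem dec (Q : Module.End ℂ (MvPolynomial (σ ⊕ τ) ℂ)) (hQ : Q ∈ weylS (σ ⊕ τ)) :
    ∃ (ι : Type) (_ : Fintype ι) (P : ι → weylS σ) (R : ι → weylS τ),
      ∀ u v, Q (pr u v) = ∑ k, pr ((P k : Module.End ℂ (MvPolynomial σ ℂ)) u)
        ((R k : Module.End ℂ (MvPolynomial τ ℂ)) v) := by
  induction hQ using Algebra.adjoin_induction with
  | mem Q hQ =>
    rcases hQ with ⟨i, rfl⟩ | ⟨i, rfl⟩
    · rcases i with i | i
      · refine ⟨Unit, inferInstance, fun _ => mulW (X i), fun _ => 1, fun u v => ?_⟩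
        rw [Fintype.sum_unique, LinearMap.mulLeft_apply, mulW_apply]
        unfold pr
        rw [map_mul, rename_X, mul_assoc]
        rfl
      · refine ⟨Unit, inferInstance, fun _ => 1, fun _ => mulW (X i), fun u v => ?_⟩
        rw [Fintype.sum_unique, LinearMap.mulLeft_apply, mulW_apply]
        unfold pr
        rw [map_mul, rename_X, mul_left_comm]
        rfl
    · rcases i with i | i
      · refine ⟨Unit, inferInstance, fun _ => dW i, fun _ => 1, fun u v => ?_⟩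
        rw [Fintype.sum_unique, dW_apply]
        exact pderiv_inl i u v
      · refine ⟨Unit, inferInstance, fun _ => 1, fun _ => dW i, fun u v => ?_⟩
        rw [Fintype.sum_unique, dW_apply]
        exact pderiv_inr i u v
  | algebraMap c =>
    refine ⟨Unit, inferInstance, fun _ => mulW (C c), fun _ => 1, fun u v => ?_⟩
    rw [Fintype.sum_unique, mulW_apply, Module.algebraMap_end_apply, smul_eq_C_mul]
    unfold pr
    rw [map_mul, rename_C, mul_assoc]
    rfl
  | add Q1 Q2 _ _ h1 h2 =>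
    obtain ⟨ι, _, P, R, h1⟩ := h1
    obtain ⟨ι', _, P', R', h2⟩ := h2
    refine ⟨ι ⊕ ι', inferInstance, Sum.elim P P', Sum.elim R R', fun u v => ?_⟩
    rw [LinearMap.add_apply, Fintype.sum_sum_type, h1, h2]
    rfl
  | mul Q1 Q2 _ _ h1 h2 =>
    obtain ⟨ι, _, P, R, h1⟩ := h1
    obtain ⟨ι', _, P', R', h2⟩ := h2
    refine ⟨ι' × ι, inferInstance, fun k => P k.2 * P' k.1, fun k => R k.2 * R' k.1,
      fun u v => ?_⟩
    rw [Module.End.mul_apply, h2, map_sum, Fintype.sum_prod_type]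
    refine Finset.sum_congr rfl fun k _ => ?_
    rw [h1]
    rfl

/-- the sequences of polynomials which are polynomials in `s` -/
noncomputable def KK (τ : Type) : Submodule (MvPolynomial τ ℂ) (ℕ → MvPolynomial τ ℂ) :=
  Submodule.span _ (Set.range fun j : ℕ => fun s : ℕ => (C ((s : ℂ) ^ j) : MvPolynomial τ ℂ))

theorem KK_one : (fun _ => 1 : ℕ → MvPolynomial τ ℂ) ∈ KK τ := by
  refine Submodule.subset_span ⟨0, ?_⟩
  funext s
  simp

theorem KK_mul {k : ℕ → MvPolynomial τ ℂ} (hk : k ∈ KK τ) (a : MvPolynomial τ ℂ) :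
    (fun s => a * k s) ∈ KK τ := Submodule.smul_mem _ a hk

theorem KK_s {k : ℕ → MvPolynomial τ ℂ} (hk : k ∈ KK τ) :
    (fun s : ℕ => C (s : ℂ) * k s) ∈ KK τ := by
  unfold KK at hk
  induction hk using Submodule.span_induction with
  | mem x hx =>
    obtain ⟨j, rfl⟩ := hx
    refine Submodule.subset_span ⟨j + 1, ?_⟩
    funext s
    change C ((s : ℂ) ^ (j + 1)) = C (s : ℂ) * C ((s : ℂ) ^ j)
    rw [← C_mul, pow_succ, mul_comm]
  | zero =>
    convert Submodule.zero_mem _ using 1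
    funext s
    simp
  | add x y _ _ hx hy =>
    convert Submodule.add_mem _ hx hy using 1
    funext s
    simp [mul_add]
  | smul a x _ hx =>
    convert Submodule.smul_mem _ a hx using 1
    funext s
    simp only [Pi.smul_apply, smul_eq_mul]
    ring

theorem KK_d (i : τ) {k : ℕ → MvPolynomial τ ℂ} (hk : k ∈ KK τ) :
    (fun s : ℕ => pderiv i (k s)) ∈ KK τ := by
  have hk' := hk
  unfold KK at hk
  induction hk using Submodule.span_induction with
  | mem x hx =>
    obtain ⟨j, rfl⟩ := hx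
    convert Submodule.zero_mem (KK τ) using 1
    funext s
    simp only [Pi.zero_apply]
    exact pderiv_C
  | zero =>
    convert Submodule.zero_mem (KK τ) using 1
    funext s
    simp
  | add x y hx0 hy0 hx hy =>
    convert Submodule.add_mem _ (hx hx0) (hy hy0) using 1
    funext s
    simp
  | smul a x hx0 hx =>
    have h1 := KK_mul (hx hx0) a
    have h2 := KK_mul hx0 (pderiv i a)
    convert Submodule.add_mem _ h1 h2 using 1
    funext s
    simp only [Pi.smul_apply, Pi.add_apply, smul_eq_mul, Derivation.leibniz]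
    ring

/-- the sequences `g ^ (s + 1) k(s) / g ^ N` -/
def Good (g : MvPolynomial τ ℂ) (h : ℕ → MvPolynomial τ ℂ) : Prop :=
  ∃ (N : ℕ) (k : ℕ → MvPolynomial τ ℂ), k ∈ KK τ ∧ ∀ s, g ^ N * h s = g ^ (s + 1) * k s

theorem good_pow (g : MvPolynomial τ ℂ) : Good g fun s => g ^ (s + 1) :=
  ⟨0, _, KK_one, fun s => by ring⟩

theorem good_mul {g : MvPolynomial τ ℂ} {h : ℕ → MvPolynomial τ ℂ} (hh : Good g h)
    (a : MvPolynomial τ ℂ) : Good g fun s => a * h s := by
  obtain ⟨N, k, hk, h1⟩ := hh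
  refine ⟨N, _, KK_mul hk a, fun s => ?_⟩
  rw [mul_left_comm, h1, mul_left_comm]

theorem good_add {g : MvPolynomial τ ℂ} {h h' : ℕ → MvPolynomial τ ℂ} (hh : Good g h)
    (hh' : Good g h') : Good g fun s => h s + h' s := by
  obtain ⟨N, k, hk, h1⟩ := hh
  obtain ⟨N', k', hk', h1'⟩ := hh'
  refine ⟨N + N', _, Submodule.add_mem _ (KK_mul hk (g ^ N')) (KK_mul hk' (g ^ N)), fun s => ?_⟩
  rw [Pi.add_apply]
  linear_combination g ^ N' * h1 s + g ^ N * h1' s

theorem good_d (i : τ) {g : MvPolynomial τ ℂ} {h : ℕ → MvPolynomial τ ℂ} (hh : Good g h) :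
    Good g fun s => pderiv i (h s) := by
  obtain ⟨N, k, hk, h1⟩ := hh
  refine ⟨N + 1, fun s => (pderiv i g * (C (s : ℂ) * k s) + pderiv i g * k s) +
    (g * pderiv i (k s) + (-(C (N : ℂ) * pderiv i g)) * k s),
    Submodule.add_mem _ (Submodule.add_mem _ (KK_mul (KK_s hk) _) (KK_mul hk _))
      (Submodule.add_mem _ (KK_mul (KK_d i hk) _) (KK_mul hk _)), fun s => ?_⟩
  have h2 := congrArg (pderiv i) (h1 s)
  rw [Derivation.leibniz, Derivation.leibniz, Derivation.leibniz_pow, Derivation.leibniz_pow] at h2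
  simp only [smul_eq_mul, nsmul_eq_mul, Nat.add_sub_cancel] at h2
  have h3 : g * ((N : MvPolynomial τ ℂ) * (g ^ (N - 1) * pderiv i g)) = C (N : ℂ) * g ^ N * pderiv i g := by
    rcases Nat.eq_zero_or_pos N with hN | hN
    · subst hN
      simp
    · obtain ⟨M, rfl⟩ := Nat.exists_eq_succ_of_ne_zero hN.ne'
      simp only [Nat.succ_sub_one, pow_succ, map_natCast]
      ring
  have h4 : (C (s : ℂ) : MvPolynomial τ ℂ) = s := map_natCast C s
  have h5 : ((s + 1 : ℕ) : MvPolynomial τ ℂ) = s + 1 := Nat.cast_succ s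
  rw [h5] at h2
  change g ^ (N + 1) * pderiv i (h s) = g ^ (s + 1) *
    ((pderiv i g * (C (s : ℂ) * k s) + pderiv i g * k s) +
      (g * pderiv i (k s) + (-(C (N : ℂ) * pderiv i g)) * k s))
  rw [h4]
  have h6 := h1 s
  linear_combination g * h2 - h s * h3 - (C (N : ℂ) * pderiv i g) * h6

theorem good_weyl {g : MvPolynomial τ ℂ} (R : Module.End ℂ (MvPolynomial τ ℂ)) (hR : R ∈ weylS τ)
    {h : ℕ → MvPolynomial τ ℂ} (hh : Good g h) : Good g fun s => R (h s) := by
  induction hR using Algebra.adjoin_induction generalizing h with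
  | mem Q hQ =>
    rcases hQ with ⟨i, rfl⟩ | ⟨i, rfl⟩
    · exact good_mul hh _
    · exact good_d i hh
  | algebraMap c =>
    have h1 := good_mul hh (C c)
    convert h1 using 1
    funext s
    rw [Module.algebraMap_end_apply, smul_eq_C_mul]
  | add Q1 Q2 _ _ h1 h2 => exact good_add (h1 hh) (h2 hh)
  | mul Q1 Q2 _ _ h1 h2 => exact h1 (h2 hh)

/-- the coefficient of `y ^ μ` -/
noncomputable def kap (μ : τ →₀ ℕ) : MvPowerSeries (σ ⊕ τ) ℂ →ₗ[ℂ] MvPowerSeries σ ℂ where
  toFun A := fun α => MvPowerSeries.coeff (Finsupp.sumElim α μ) A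
  map_add' A B := by
    funext α
    exact map_add _ _ _
  map_smul' c A := by
    funext α
    exact map_smul _ _ _

theorem coeff_kap (μ : τ →₀ ℕ) (A : MvPowerSeries (σ ⊕ τ) ℂ) (α : σ →₀ ℕ) :
    MvPowerSeries.coeff α (kap μ A) = MvPowerSeries.coeff (Finsupp.sumElim α μ) A := rfl

theorem kap_X (μ : τ →₀ ℕ) (A : MvPowerSeries (σ ⊕ τ) ℂ) (i : σ) :
    kap μ (MvPowerSeries.X (Sum.inl i) * A) = MvPowerSeries.X i * kap μ A := by
  classical
  ext α
  rw [coeff_kap, MvPowerSeries.X, MvPowerSeries.X, MvPowerSeries.coeff_monomial_mul,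
    MvPowerSeries.coeff_monomial_mul]
  have h1 : Finsupp.single (Sum.inl i) 1 ≤ Finsupp.sumElim α μ ↔ Finsupp.single i 1 ≤ α := by
    rw [Finsupp.single_le_iff, Finsupp.single_le_iff, Finsupp.sumElim_inl]
  by_cases h : Finsupp.single i 1 ≤ α
  · rw [if_pos h, if_pos (h1.2 h), coeff_kap]
    have h2 : Finsupp.sumElim α μ - Finsupp.single (Sum.inl i) 1 =
        Finsupp.sumElim (α - Finsupp.single i 1) μ := ?_
    rw [h2]
    ext j
    rcases j with j | j
    · rw [Finsupp.tsub_apply, Finsupp.sumElim_inl, Finsupp.sumElim_inl, Finsupp.tsub_apply,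
        Finsupp.single_apply, Finsupp.single_apply]
      simp only [Sum.inl.injEq]
    · rw [Finsupp.tsub_apply, Finsupp.sumElim_inr, Finsupp.sumElim_inr, Finsupp.single_apply,
        if_neg (by simp)]
      rfl
  · rw [if_neg h, if_neg (fun h' => h (h1.1 h'))]

theorem kap_mul (μ : τ →₀ ℕ) (F : MvPolynomial σ ℂ) (A : MvPowerSeries (σ ⊕ τ) ℂ) :
    kap μ (((rename Sum.inl F : MvPolynomial (σ ⊕ τ) ℂ) : MvPowerSeries (σ ⊕ τ) ℂ) * A) =
      (F : MvPowerSeries σ ℂ) * kap μ A := by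
  induction F using MvPolynomial.induction_on generalizing A with
  | C r =>
    rw [rename_C, coe_C, coe_C]
    ext α
    rw [coeff_kap, MvPowerSeries.coeff_C_mul, MvPowerSeries.coeff_C_mul, coeff_kap]
  | add p q hp hq => rw [map_add, coe_add, coe_add, add_mul, add_mul, map_add, hp, hq]
  | mul_X p i hp =>
    rw [map_mul (rename Sum.inl), coe_mul, coe_mul, rename_X, coe_X, coe_X, mul_assoc, hp, kap_X,
      mul_assoc]

theorem kap_inr (μ : τ →₀ ℕ) (G : MvPolynomial τ ℂ) :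
    kap μ (((rename Sum.inr G : MvPolynomial (σ ⊕ τ) ℂ) : MvPowerSeries (σ ⊕ τ) ℂ)) =
      MvPowerSeries.C (coeff μ G) := by
  classical
  ext α
  rw [coeff_kap, coeff_coe, MvPowerSeries.coeff_C]
  have hin : ∀ (u : τ →₀ ℕ), Finsupp.mapDomain (Sum.inr : τ → σ ⊕ τ) u = Finsupp.sumElim 0 u := by
    intro u
    ext j
    rcases j with j | j
    · rw [Finsupp.mapDomain_notin_range _ _ (by simp), Finsupp.sumElim_inl]
      rfl
    · rw [Finsupp.mapDomain_apply Sum.inr_injective, Finsupp.sumElim_inr]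
  by_cases h : α = 0
  · rw [if_pos h, h, ← hin, coeff_rename_mapDomain _ Sum.inr_injective]
  · rw [if_neg h]
    apply coeff_rename_eq_zero
    intro u hu
    exfalso
    apply h
    rw [hin] at hu
    ext j
    have := DFunLike.congr_fun hu (Sum.inl j)
    rw [Finsupp.sumElim_inl, Finsupp.sumElim_inl] at this
    exact this.symm

/-- the sequences `s ^ m a(x) Q(f ^ (s + 1))` -/
noncomputable def VV (f : MvPolynomial σ ℂ) : Submodule ℂ (ℕ → MvPowerSeries σ ℂ) :=
  Submodule.span ℂ (Set.range fun (p : ℕ × MvPowerSeries σ ℂ × weylS σ) => fun s : ℕ =>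
    MvPowerSeries.C ((s : ℂ) ^ p.1) * (p.2.1 *
        (((p.2.2 : Module.End ℂ (MvPolynomial σ ℂ)) (f ^ (s + 1)) : MvPolynomial σ ℂ) :
          MvPowerSeries σ ℂ)))

theorem of_VV (f : MvPolynomial σ ℂ) (b : Polynomial ℂ)
    (h : (fun s : ℕ => MvPowerSeries.C (b.eval (s : ℂ)) *
      ((f ^ s : MvPolynomial σ ℂ) : MvPowerSeries σ ℂ)) ∈ VV f) : IsLocalBFunction f b := by
  unfold VV at h
  rw [Submodule.mem_span_set'] at h
  obtain ⟨n, c, g, hg⟩ := h
  choose p hp using fun i => (g i).2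
  refine ⟨n, fun i => (p i).1, fun i => MvPowerSeries.C (c i) * (p i).2.1, fun i => (p i).2.2,
    fun s => ?_⟩
  have h1 := congrFun hg s
  rw [Finset.sum_apply] at h1
  rw [← h1]
  refine Finset.sum_congr rfl fun i _ => ?_
  rw [Pi.smul_apply, ← hp i, MvPowerSeries.smul_eq_C_mul]
  ring

theorem mem_VV (f : MvPolynomial σ ℂ) (μ : τ →₀ ℕ) (m : ℕ) (P : weylS σ)
    {k : ℕ → MvPolynomial τ ℂ} (hk : k ∈ KK τ) (A : MvPowerSeries (σ ⊕ τ) ℂ) :
    (fun s : ℕ => kap μ (MvPowerSeries.C ((s : ℂ) ^ m) * (A *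
      (((rename Sum.inl ((P : Module.End ℂ (MvPolynomial σ ℂ)) (f ^ (s + 1))) :
        MvPolynomial (σ ⊕ τ) ℂ) : MvPowerSeries (σ ⊕ τ) ℂ) *
      ((rename Sum.inr (k s) : MvPolynomial (σ ⊕ τ) ℂ) : MvPowerSeries (σ ⊕ τ) ℂ))))) ∈ VV f := by
  unfold KK at hk
  induction hk using Submodule.span_induction generalizing A with
  | mem x hx =>
    obtain ⟨j, rfl⟩ := hx
    refine Submodule.subset_span ⟨(m + j, kap μ A, P), ?_⟩
    funext s
    have h1 : (MvPowerSeries.C ((s : ℂ) ^ m) * (A *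
        (((rename Sum.inl ((P : Module.End ℂ (MvPolynomial σ ℂ)) (f ^ (s + 1))) :
        MvPolynomial (σ ⊕ τ) ℂ) : MvPowerSeries (σ ⊕ τ) ℂ) *
        ((rename Sum.inr (C ((s : ℂ) ^ j) : MvPolynomial τ ℂ) : MvPolynomial (σ ⊕ τ) ℂ) :
          MvPowerSeries (σ ⊕ τ) ℂ)))) =
        ((rename Sum.inl (C ((s : ℂ) ^ (m + j)) *
          (P : Module.End ℂ (MvPolynomial σ ℂ)) (f ^ (s + 1))) :
          MvPolynomial (σ ⊕ τ) ℂ) : MvPowerSeries (σ ⊕ τ) ℂ) * A := by
      rw [map_mul (rename Sum.inl), rename_C, rename_C, coe_mul, coe_C, coe_C, pow_add (s : ℂ),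
        map_mul MvPowerSeries.C]
      ring
    change _ = kap μ (_)
    rw [h1, kap_mul, coe_mul, coe_C]
    ring
  | zero =>
    convert Submodule.zero_mem (VV f) using 1
    funext s
    simp
  | add x y _ _ hx hy =>
    convert Submodule.add_mem _ (hx A) (hy A) using 1
    funext s
    simp only [Pi.add_apply, map_add, coe_add, mul_add]
  | smul a x _ hx =>
    convert hx (((rename Sum.inr a : MvPolynomial (σ ⊕ τ) ℂ) : MvPowerSeries (σ ⊕ τ) ℂ) * A)
      using 1
    funext s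
    simp only [Pi.smul_apply, smul_eq_mul, map_mul, coe_mul]
    congr 1
    ring

end PbL

open PbL MvPolynomial in
theorem pb : S_PB := by
  classical
  intro σ τ _ _ f g hg b hb
  obtain ⟨L, m, a, Q, hQ⟩ := hb
  choose ι hι P R hdec using fun i => dec (Q i : Module.End ℂ (MvPolynomial (σ ⊕ τ) ℂ)) (Q i).2
  choose N k hk hN using fun (i : Fin L) (j : ι i) =>
    good_weyl (g := g) (R i j : Module.End ℂ (MvPolynomial τ ℂ)) (R i j).2 (good_pow g)
  let M : ℕ := ∑ i, ∑ j, N i j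
  have hM : ∀ i j, N i j ≤ M := fun i j =>
    (Finset.single_le_sum (f := fun j => N i j) (fun _ _ => Nat.zero_le _)
      (Finset.mem_univ j)).trans
      (Finset.single_le_sum (f := fun i => ∑ j, N i j) (fun _ _ => Nat.zero_le _)
        (Finset.mem_univ i))
  let k' : ∀ (i : Fin L) (j : ι i), ℕ → MvPolynomial τ ℂ := fun i j s => (g * g ^ (M - N i j)) * k i j s
  have hk' : ∀ i j, k' i j ∈ KK τ := fun i j => KK_mul (hk i j) _
  have hN' : ∀ i j s, g ^ M * ((R i j : Module.End ℂ (MvPolynomial τ ℂ)) (g ^ (s + 1))) =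
      g ^ s * k' i j s := by
    intro i j s
    have h1 := hN i j s
    change _ = g ^ s * ((g * g ^ (M - N i j)) * k i j s)
    obtain ⟨D, hD⟩ := Nat.exists_eq_add_of_le (hM i j)
    rw [hD, Nat.add_sub_cancel_left, pow_add]
    linear_combination g ^ D * h1
  obtain ⟨μ, hμ⟩ : ∃ μ, coeff μ (g ^ M) ≠ 0 := by
    rw [← ne_zero_iff]
    exact pow_ne_zero _ hg
  -- the equation without g ^ s
  let G : ℕ → MvPowerSeries (σ ⊕ τ) ℂ := fun s =>
    ((rename Sum.inr (g ^ s) : MvPolynomial (σ ⊕ τ) ℂ) : MvPowerSeries (σ ⊕ τ) ℂ)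
  have hG : ∀ s, G s ≠ 0 := by
    intro s h
    have h1 : (rename Sum.inr (g ^ s) : MvPolynomial (σ ⊕ τ) ℂ) = 0 := by
      apply coe_injective
      rw [coe_zero]
      exact h
    rw [rename_eq_zero_iff_of_injective _ Sum.inr_injective] at h1
    exact pow_ne_zero _ hg h1
  have key : ∀ s : ℕ, ((rename Sum.inl (C (b.eval (s : ℂ)) * f ^ s) : MvPolynomial (σ ⊕ τ) ℂ) :
      MvPowerSeries (σ ⊕ τ) ℂ) * G M =
      ∑ i, ∑ j, (MvPowerSeries.C ((s : ℂ) ^ m i) * (a i *
      (((rename Sum.inl ((P i j : Module.End ℂ (MvPolynomial σ ℂ)) (f ^ (s + 1))) :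
        MvPolynomial (σ ⊕ τ) ℂ) : MvPowerSeries (σ ⊕ τ) ℂ) *
      ((rename Sum.inr (k' i j s) : MvPolynomial (σ ⊕ τ) ℂ) : MvPowerSeries (σ ⊕ τ) ℂ)))) := by
    intro s
    apply mul_left_cancel₀ (hG s)
    have h1 := congrArg (fun z => G M * z) (hQ s)
    have h2 : ((f.rename Sum.inl * g.rename Sum.inr : MvPolynomial (σ ⊕ τ) ℂ) ^ s) =
        pr (f ^ s) (g ^ s) := by
      unfold pr
      rw [map_pow, map_pow, mul_pow]
    have h3 : ((f.rename Sum.inl * g.rename Sum.inr : MvPolynomial (σ ⊕ τ) ℂ) ^ (s + 1)) =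
        pr (f ^ (s + 1)) (g ^ (s + 1)) := by
      unfold pr
      rw [map_pow, map_pow, mul_pow]
    rw [h2, h3] at h1
    have h4 : G s * (((rename Sum.inl (C (b.eval (s : ℂ)) * f ^ s) : MvPolynomial (σ ⊕ τ) ℂ) :
      MvPowerSeries (σ ⊕ τ) ℂ) * G M) = G M * (MvPowerSeries.C (b.eval (s : ℂ)) *
        ((pr (f ^ s) (g ^ s) : MvPolynomial (σ ⊕ τ) ℂ) : MvPowerSeries (σ ⊕ τ) ℂ)) := by
      unfold pr
      rw [map_mul (rename Sum.inl), rename_C, coe_mul, coe_C, coe_mul]
      ring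
    rw [h4, h1, Finset.mul_sum, Finset.mul_sum]
    refine Finset.sum_congr rfl fun i _ => ?_
    rw [hdec]
    have h5 : ((∑ j, pr ((P i j : Module.End ℂ (MvPolynomial σ ℂ)) (f ^ (s + 1)))
        ((R i j : Module.End ℂ (MvPolynomial τ ℂ)) (g ^ (s + 1))) : MvPolynomial (σ ⊕ τ) ℂ) :
        MvPowerSeries (σ ⊕ τ) ℂ) = ∑ j, ((pr ((P i j : Module.End ℂ (MvPolynomial σ ℂ)) (f ^ (s + 1)))
        ((R i j : Module.End ℂ (MvPolynomial τ ℂ)) (g ^ (s + 1))) : MvPolynomial (σ ⊕ τ) ℂ) :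
        MvPowerSeries (σ ⊕ τ) ℂ) := by
      rw [← coeToMvPowerSeries.ringHom_apply, map_sum]
      rfl
    rw [h5, Finset.mul_sum, Finset.mul_sum, Finset.mul_sum, Finset.mul_sum]
    refine Finset.sum_congr rfl fun j _ => ?_
    have h6 := congrArg (fun z => ((rename Sum.inr z : MvPolynomial (σ ⊕ τ) ℂ) :
      MvPowerSeries (σ ⊕ τ) ℂ)) (hN' i j s)
    rw [map_mul (rename Sum.inr), map_mul (rename Sum.inr), coe_mul, coe_mul] at h6
    change G M * _ = G s * _ at h6
    unfold pr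
    rw [coe_mul]
    linear_combination (MvPowerSeries.C ((s : ℂ) ^ m i) * (a i *
      (((rename Sum.inl ((P i j : Module.End ℂ (MvPolynomial σ ℂ)) (f ^ (s + 1))) :
        MvPolynomial (σ ⊕ τ) ℂ) : MvPowerSeries (σ ⊕ τ) ℂ)))) * h6
  apply of_VV
  have h7 : (fun s : ℕ => MvPowerSeries.C (b.eval (s : ℂ)) *
      ((f ^ s : MvPolynomial σ ℂ) : MvPowerSeries σ ℂ)) = (coeff μ (g ^ M))⁻¹ •
      ∑ i, ∑ j, (fun s : ℕ => kap μ (MvPowerSeries.C ((s : ℂ) ^ m i) * (a i *
      (((rename Sum.inl ((P i j : Module.End ℂ (MvPolynomial σ ℂ)) (f ^ (s + 1))) :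
        MvPolynomial (σ ⊕ τ) ℂ) : MvPowerSeries (σ ⊕ τ) ℂ) *
      ((rename Sum.inr (k' i j s) : MvPolynomial (σ ⊕ τ) ℂ) : MvPowerSeries (σ ⊕ τ) ℂ))))) := by
    funext s
    rw [Pi.smul_apply, Finset.sum_apply]
    simp only [Finset.sum_apply]
    have h8 := congrArg (kap μ) (key s)
    rw [map_sum] at h8
    simp only [map_sum] at h8
    rw [← h8, kap_mul, kap_inr, MvPowerSeries.smul_eq_C_mul, coe_mul, coe_C, mul_left_comm,
      ← map_mul, inv_mul_cancel₀ hμ, map_one, mul_one]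
  rw [h7]
  exact Submodule.smul_mem _ _ (Submodule.sum_mem _ fun i _ => Submodule.sum_mem _ fun j _ =>
    mem_VV f μ (m i) (P i j) (hk' i j) (a i))

end Pool.Agent.Helper33K9.FQ
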