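import Pool.Agent.Helper33K9.FQ.St

set_option autoImplicit false
set_option linter.unusedSectionVars false
set_option linter.unusedVariables false

/-! # Polynomials of degree at most two in all variables but one -/

namespace Pool.Agent.Helper33K9.FQ.PolyL

variable {n : ℕ}

/-- the quadratic polynomials in the `v i` -/
def PQ (n : ℕ) (F : MvPowerSeries (Option (Fin n)) ℂ) : Prop :=
  ∃ (A : Matrix (Fin n) (Fin n) (PowerSeries ℂ)) (B : Fin n → PowerSeries ℂ) (c : PowerSeries ℂ),
    A.transpose = A ∧ F = qd A B c fun i => MvPowerSeries.X (some i)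

theorem PQ.zero : PQ n 0 := by
  refine ⟨0, 0, 0, Matrix.transpose_zero, ?_⟩
  simp [qd]

theorem PQ.add {F G : MvPowerSeries (Option (Fin n)) ℂ} (hF : PQ n F) (hG : PQ n G) :
    PQ n (F + G) := by
  obtain ⟨A, B, c, hA, rfl⟩ := hF
  obtain ⟨A', B', c', hA', rfl⟩ := hG
  refine ⟨A + A', B + B', c + c', by rw [Matrix.transpose_add, hA, hA'], ?_⟩
  simp only [qd, Matrix.add_apply, Pi.add_apply, map_add, add_mul, Finset.sum_add_distrib]
  ring

theorem PQ.sum {ι : Type} (s : Finset ι) (F : ι → MvPowerSeries (Option (Fin n)) ℂ)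
    (h : ∀ i ∈ s, PQ n (F i)) : PQ n (∑ i ∈ s, F i) := by
  classical
  induction s using Finset.induction_on with
  | empty => exact PQ.zero
  | insert a s ha ih =>
    rw [Finset.sum_insert ha]
    exact (h a (Finset.mem_insert_self _ _)).add
      (ih fun i hi => h i (Finset.mem_insert_of_mem hi))

theorem PQ.c0 (c : PowerSeries ℂ) : PQ n (ix n c) := by
  refine ⟨0, 0, c, Matrix.transpose_zero, ?_⟩
  simp [qd]

theorem PQ.c1 (b : PowerSeries ℂ) (i : Fin n) : PQ n (ix n b * MvPowerSeries.X (some i)) := by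
  classical
  refine ⟨0, Pi.single i b, 0, Matrix.transpose_zero, ?_⟩
  unfold qd
  rw [map_zero, add_zero]
  rw [Finset.sum_eq_zero fun i _ => Finset.sum_eq_zero fun j _ => by
    rw [Matrix.zero_apply, map_zero, zero_mul, zero_mul], zero_add, Finset.sum_eq_single i]
  · rw [Pi.single_eq_same]
  · intro j _ hj
    rw [Pi.single_eq_of_ne hj, map_zero, zero_mul]
  · intro h
    exact absurd (Finset.mem_univ i) h

theorem PQ.c2 (a : PowerSeries ℂ) (i j : Fin n) :
    PQ n (ix n (a + a) * MvPowerSeries.X (some i) * MvPowerSeries.X (some j)) := by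
  classical
  refine ⟨Matrix.single i j a + Matrix.single j i a, 0, 0, ?_, ?_⟩
  · rw [Matrix.transpose_add, Matrix.transpose_single, Matrix.transpose_single, add_comm]
  · unfold qd
    rw [map_zero, add_zero]
    have h0 : ∑ i : Fin n, ix n ((0 : Fin n → PowerSeries ℂ) i) *
        (MvPowerSeries.X (some i) : MvPowerSeries (Option (Fin n)) ℂ) = 0 :=
      Finset.sum_eq_zero fun i _ => by rw [Pi.zero_apply, map_zero, zero_mul]
    rw [h0, add_zero]
    have h1 : ∀ k l : Fin n, ∑ p, ∑ q, ix n (Matrix.single k l a p q) *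
        (MvPowerSeries.X (some p) : MvPowerSeries (Option (Fin n)) ℂ) *
        MvPowerSeries.X (some q) = ix n a * MvPowerSeries.X (some k) *
          MvPowerSeries.X (some l) := by
      intro k l
      rw [Finset.sum_eq_single k, Finset.sum_eq_single l]
      · rw [Matrix.single_apply_same]
      · intro q _ hq
        rw [Matrix.single_apply_of_col_ne _ _ (fun h => hq h.symm), map_zero, zero_mul, zero_mul]
      · intro h
        exact absurd (Finset.mem_univ l) h
      · intro p _ hp
        refine Finset.sum_eq_zero fun q _ => ?_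
        rw [Matrix.single_apply_of_row_ne (fun h => hp h.symm), map_zero, zero_mul, zero_mul]
      · intro h
        exact absurd (Finset.mem_univ k) h
    simp only [Matrix.add_apply, map_add, add_mul, Finset.sum_add_distrib, h1]
    ring

theorem split_prod {ι M : Type} [Fintype ι] [CommMonoid M] (x : ι → M) (e : ι → ℕ) (k : ℕ)
    (h : ∑ i, e i = k + 1) : ∃ (i : ι) (e' : ι → ℕ), ∑ i, e' i = k ∧
      ∏ i, x i ^ e i = x i * ∏ i, x i ^ e' i := by
  classical
  obtain ⟨i, -, hi⟩ : ∃ i ∈ Finset.univ, e i ≠ 0 := Finset.exists_ne_zero_of_sum_ne_zero (by omega)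
  refine ⟨i, Function.update e i (e i - 1), ?_, ?_⟩
  · rw [← Finset.add_sum_erase _ _ (Finset.mem_univ i)] at h ⊢
    have h1 : ∑ j ∈ Finset.univ.erase i, Function.update e i (e i - 1) j =
        ∑ j ∈ Finset.univ.erase i, e j :=
      Finset.sum_congr rfl fun j hj => Function.update_of_ne (Finset.ne_of_mem_erase hj) _ _
    rw [h1, Function.update_self]
    omega
  · rw [← Finset.mul_prod_erase _ _ (Finset.mem_univ i),
      ← Finset.mul_prod_erase (s := Finset.univ)
        (f := fun j => x j ^ Function.update e i (e i - 1) j) (h := Finset.mem_univ i)]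
    have h1 : ∏ j ∈ Finset.univ.erase i, x j ^ Function.update e i (e i - 1) j =
        ∏ j ∈ Finset.univ.erase i, x j ^ e j :=
      Finset.prod_congr rfl fun j hj => by
        rw [Function.update_of_ne (Finset.ne_of_mem_erase hj)]
    rw [h1, Function.update_self, ← mul_assoc, ← pow_succ']
    have h2 : e i - 1 + 1 = e i := by omega
    rw [h2]

theorem ix_X : ix n PowerSeries.X = MvPowerSeries.X none := by
  unfold ix
  rw [PowerSeries.coe_substAlgHom, PowerSeries.subst_X]
  exact PowerSeries.HasSubst.X none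

theorem mon (m : Option (Fin n) →₀ ℕ) (a : ℂ) :
    ((MvPolynomial.monomial m a : MvPolynomial (Option (Fin n)) ℂ) :
      MvPowerSeries (Option (Fin n)) ℂ) =
      ix n (PowerSeries.C a * PowerSeries.X ^ m none) *
        ∏ i, (MvPowerSeries.X (some i) : MvPowerSeries (Option (Fin n)) ℂ) ^ m (some i) := by
  rw [MvPolynomial.monomial_eq, MvPolynomial.coe_mul, MvPolynomial.coe_C, map_mul, map_pow, ix_X,
    mul_assoc]
  have h1 : ix n (PowerSeries.C a) = MvPowerSeries.C a := (ix n).commutes a
  rw [h1]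
  congr 1
  rw [Finsupp.prod_fintype _ _ fun i => pow_zero _, Fintype.prod_option, MvPolynomial.coe_mul,
    MvPolynomial.coe_pow, MvPolynomial.coe_X]
  congr 1
  have h2 := map_prod (MvPolynomial.coeToMvPowerSeries.ringHom (σ := Option (Fin n)) (R := ℂ))
    (fun i : Fin n => (MvPolynomial.X (some i) : MvPolynomial (Option (Fin n)) ℂ) ^ m (some i))
    Finset.univ
  simp only [MvPolynomial.coeToMvPowerSeries.ringHom_apply, MvPolynomial.coe_pow,
    MvPolynomial.coe_X] at h2
  exact h2

theorem PQ.mon (m : Option (Fin n) →₀ ℕ) (a : ℂ) (hm : ∑ i, m (some i) ≤ 2) :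
    PQ n ((MvPolynomial.monomial m a : MvPolynomial (Option (Fin n)) ℂ) :
      MvPowerSeries (Option (Fin n)) ℂ) := by
  rw [PolyL.mon]
  generalize PowerSeries.C a * PowerSeries.X ^ m none = c
  generalize he : (fun i => m (some i)) = e at hm ⊢
  have he' : ∀ i, m (some i) = e i := fun i => congrFun he i
  simp only [he'] at hm ⊢
  rcases Nat.lt_or_ge (∑ i, e i) 1 with h0 | h0
  · have h1 : ∀ i, e i = 0 := fun i =>
      Finset.sum_eq_zero_iff.1 (by omega : ∑ i, e i = 0) i (Finset.mem_univ i)
    simp only [h1, pow_zero, Finset.prod_const_one, mul_one]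
    exact PQ.c0 c
  · obtain ⟨k, hk⟩ : ∃ k, ∑ i, e i = k + 1 := ⟨_, (Nat.sub_add_cancel h0).symm⟩
    obtain ⟨i, e1, h1, h2⟩ := split_prod
      (fun i => (MvPowerSeries.X (some i) : MvPowerSeries (Option (Fin n)) ℂ)) e k hk
    rw [h2]
    rcases Nat.lt_or_ge k 1 with h3 | h3
    · have h4 : ∀ i, e1 i = 0 := fun i =>
        Finset.sum_eq_zero_iff.1 (by omega : ∑ i, e1 i = 0) i (Finset.mem_univ i)
      simp only [h4, pow_zero, Finset.prod_const_one, mul_one]
      exact PQ.c1 c i
    · have hm2 : k + 1 ≤ 2 := hk ▸ hm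
      have h5 : k = 0 + 1 := by omega
      rw [h5] at h1
      obtain ⟨j, e2, h6, h7⟩ := split_prod
        (fun i => (MvPowerSeries.X (some i) : MvPowerSeries (Option (Fin n)) ℂ)) e1 0 h1
      rw [h7]
      have h8 : ∀ i, e2 i = 0 := fun i =>
        Finset.sum_eq_zero_iff.1 h6 i (Finset.mem_univ i)
      simp only [h8, pow_zero, Finset.prod_const_one, mul_one]
      have h9 := PQ.c2 (PowerSeries.C (1 / 2 : ℂ) * c) i j
      have h10 : PowerSeries.C (1 / 2 : ℂ) * c + PowerSeries.C (1 / 2 : ℂ) * c = c := by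
        rw [← add_mul, ← map_add]
        norm_num
      rw [h10, mul_assoc] at h9
      exact h9

end Pool.Agent.Helper33K9.FQ.PolyL

namespace Pool.Agent.Helper33K9.FQ

theorem poly : S_POLY := by
  intro n f hf
  have h1 : PolyL.PQ n (f : MvPowerSeries (Option (Fin n)) ℂ) := by
    have h2 : (f : MvPowerSeries (Option (Fin n)) ℂ) = ∑ m ∈ f.support,
        ((MvPolynomial.monomial m (f.coeff m) : MvPolynomial (Option (Fin n)) ℂ) :
          MvPowerSeries (Option (Fin n)) ℂ) := by
      conv_lhs => rw [f.as_sum]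
      have h3 := map_sum (MvPolynomial.coeToMvPowerSeries.ringHom (σ := Option (Fin n)) (R := ℂ))
        (fun m => MvPolynomial.monomial m (f.coeff m)) f.support
      simp only [MvPolynomial.coeToMvPowerSeries.ringHom_apply] at h3
      exact h3
    rw [h2]
    exact PolyL.PQ.sum _ _ fun m hm => PolyL.PQ.mon m _ (hf m hm)
  exact h1

end Pool.Agent.Helper33K9.FQ
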