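import Pool.Agent.Helper33K9.FQ.Kz

set_option autoImplicit false
set_option linter.unusedSectionVars false
set_option linter.unusedVariables false

/-! # Zeta functions of external products -/

namespace Pool.Agent.Helper33K9.FQ.PzL

open MvPolynomial Pool.Agent.W428.MOT Pool.Agent.TH192.MT Pool.Agent.Helper33K9.HP
  Pool.Agent.Helper33K9.FQ.KzL

variable {K : Type} [Field K] {σ τ : Type} [Fintype σ] [Fintype τ] {R : Type} [CommRing R]
  (M : Meas K R)

/-- the `d`-jets at the origin on which `f` has order `i` -/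
def OJ (f : MvPolynomial σ K) (W : Set (Pt K σ)) (d i : ℕ) : Set (Pt K (σ × Fin (d + 1))) :=
  {z | (fun i => z (i, 0)) ∈ W ∧ (aeval (ar z) f : PowerSeries (AlgebraicClosure K)).order = i}

theorem AJ_eq (f : MvPolynomial σ K) (W : Set (Pt K σ)) (d i : ℕ) :
    AJ f W d i = OJ f W d i ∪ AJ f W d (i + 1) := by
  ext z
  unfold AJ OJ
  simp only [Set.mem_union, Set.mem_ofPred_eq]
  rw [← le_order_iff', ← le_order_iff']
  constructor
  · rintro ⟨h1, h2⟩
    rcases h2.lt_or_eq with h | h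
    · exact Or.inr ⟨h1, by rw [Nat.cast_add, Nat.cast_one]; exact Order.add_one_le_of_lt h⟩
    · exact Or.inl ⟨h1, h.symm⟩
  · rintro (⟨h1, h2⟩ | ⟨h1, h2⟩)
    · exact ⟨h1, h2.ge⟩
    · exact ⟨h1, le_trans (by exact_mod_cast Nat.le_succ i) h2⟩

theorem constr_OJ (f : MvPolynomial σ K) {W : Set (Pt K σ)} (hW : Constr W) (d i : ℕ) :
    Constr (OJ f W d i) := by
  have h1 : OJ f W d i = {z | z ∈ AJ f W d i ∧ ¬ z ∈ AJ f W d (i + 1)} := by
    ext z
    unfold AJ OJ
    simp only [Set.mem_ofPred_eq]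
    rw [← le_order_iff', ← le_order_iff']
    constructor
    · rintro ⟨h1, h2⟩
      refine ⟨⟨h1, h2.ge⟩, fun h => ?_⟩
      have := h.2
      rw [h2, Nat.cast_le] at this
      omega
    · rintro ⟨⟨h1, h2⟩, h3⟩
      refine ⟨h1, le_antisymm ?_ h2⟩
      by_contra h4
      refine h3 ⟨h1, ?_⟩
      rw [Nat.cast_add, Nat.cast_one]
      exact Order.add_one_le_of_lt (not_le.1 h4)
  rw [h1]
  exact Constr.and (constr_AJ f hW d i) (Constr.not (constr_AJ f hW d (i + 1)))

theorem chi_OJ (v : R) (hv : M.L * v = 1) (f : MvPolynomial σ K) {W : Set (Pt K σ)}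
    (hW : Constr W) (d i : ℕ) (hi : i ≤ d) :
    M.χ _ (OJ f W d i) * v ^ (d * Fintype.card σ) = aa M v f W i := by
  have h1 := M.add _ _ (constr_OJ f hW d i) (constr_AJ f hW d (i + 1)) (by
    rw [Set.disjoint_left]
    rintro z ⟨_, h4⟩ ⟨_, h5⟩
    rw [← le_order_iff', h4, Nat.cast_le] at h5
    omega)
  rw [← AJ_eq] at h1
  rw [aa_eq M v hv f hW, ← bb_eq M v hv f hW d i (by omega),
    ← bb_eq M v hv f hW d (i + 1) (by omega), h1]
  ring

/-- finite disjoint unions -/
theorem chi_sum {ι : Type} [Fintype ι] {α : Type} (A : Finset α) (S : α → Set (Pt K ι))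
    (hS : ∀ a ∈ A, Constr (S a)) (hd : ∀ a ∈ A, ∀ b ∈ A, a ≠ b → Disjoint (S a) (S b)) :
    Constr {z | ∃ a ∈ A, z ∈ S a} ∧
      M.χ ι {z | ∃ a ∈ A, z ∈ S a} = ∑ a ∈ A, M.χ ι (S a) := by
  classical
  induction A using Finset.induction_on with
  | empty =>
    have h0 : {z : Pt K ι | ∃ a ∈ (∅ : Finset α), z ∈ S a} = ∅ := by
      ext z
      simp
    have h1 : Constr (∅ : Set (Pt K ι)) := by
      have := Constr.not (Constr.univ (K := K) (ι := ι))
      convert this using 1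
      ext z
      simp
    rw [h0, Finset.sum_empty]
    refine ⟨h1, ?_⟩
    have h2 := M.add ∅ ∅ h1 h1 (Set.disjoint_empty _)
    rw [Set.union_empty] at h2
    exact left_eq_add.1 h2
  | insert a A ha ih =>
    obtain ⟨h1, h2⟩ := ih (fun b hb => hS b (Finset.mem_insert_of_mem hb))
      (fun b hb c hc => hd b (Finset.mem_insert_of_mem hb) c (Finset.mem_insert_of_mem hc))
    have h3 : {z : Pt K ι | ∃ b ∈ insert a A, z ∈ S b} = S a ∪ {z | ∃ b ∈ A, z ∈ S b} := by
      ext z
      simp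
    have h4 := hS a (Finset.mem_insert_self _ _)
    rw [h3, Finset.sum_insert ha]
    refine ⟨h4.union h1, ?_⟩
    rw [M.add _ _ h4 h1, h2]
    rw [Set.disjoint_left]
    rintro z hz ⟨b, hb, hz'⟩
    refine Set.disjoint_left.1 (hd a (Finset.mem_insert_self _ _) b (Finset.mem_insert_of_mem hb)
      ?_) hz hz'
    rintro rfl
    exact ha hb

/-- products -/
theorem chi_prod {ι κ μ : Type} [Fintype ι] [Fintype κ] [Fintype μ] (e : κ ⊕ μ ≃ ι)
    (S : Set (Pt K ι)) (S1 : Set (Pt K κ)) (S2 : Set (Pt K μ)) (h1 : Constr S1)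
    (h2 : Constr S2) (h : ∀ z : Pt K ι, z ∈ S ↔ (fun i => z (e (Sum.inl i))) ∈ S1 ∧
      (fun i => z (e (Sum.inr i))) ∈ S2) :
    Constr S ∧ M.χ ι S = M.χ κ S1 * M.χ μ S2 := by
  have hS : Constr S := by
    have h3 := (h1.preimage (fun z : Pt K ι => fun i => z (e (Sum.inl i)))
      fun i => IsPF.coord _).and (h2.preimage (fun z : Pt K ι => fun i => z (e (Sum.inr i)))
      fun i => IsPF.coord _)
    have h4 : S = {z : Pt K ι | (fun i => z (e (Sum.inl i))) ∈ S1 ∧
      (fun i => z (e (Sum.inr i))) ∈ S2} := Set.ext h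
    rw [h4]
    exact h3
  refine ⟨hS, ?_⟩
  rw [← M.prod S1 S2 h1 h2]
  have hT : Constr {z : Pt K (κ ⊕ μ) | (fun i => z (Sum.inl i)) ∈ S1 ∧
      (fun i => z (Sum.inr i)) ∈ S2} := by
    refine Constr.and ?_ ?_
    · exact h1.preimage (fun z : Pt K (κ ⊕ μ) => fun i => z (Sum.inl i)) fun i => IsPF.coord _
    · exact h2.preimage (fun z : Pt K (κ ⊕ μ) => fun i => z (Sum.inr i)) fun i => IsPF.coord _
  refine M.iso _ _ hS hT (fun z i => z (e i)) (fun w i => w (e.symm i))
    (regularOn_poly (fun i => IsPF.coord _) _) (regularOn_poly (fun i => IsPF.coord _) _) ?_ ?_ ?_ ?_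
  · intro z hz
    exact (h z).1 hz
  · intro w hw
    rw [h]
    simp only [Equiv.symm_apply_apply]
    exact hw
  · intro z _
    funext i
    simp
  · intro w _
    funext i
    simp

theorem aeval_prod (f : MvPolynomial σ K) (g : MvPolynomial τ K) {d : ℕ}
    (z : Pt K ((σ ⊕ τ) × Fin (d + 1))) :
    (aeval (ar z) (rename Sum.inl f * rename Sum.inr g) : PowerSeries (AlgebraicClosure K)) =
      aeval (ar fun x : σ × Fin (d + 1) => z (Sum.inl x.1, x.2)) f *
        aeval (ar fun x : τ × Fin (d + 1) => z (Sum.inr x.1, x.2)) g := by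
  rw [map_mul, aeval_rename, aeval_rename]
  rfl

theorem order_zero_lt {f : MvPolynomial σ K} (h0 : constantCoeff f = 0) {d : ℕ}
    {z : Pt K (σ × Fin (d + 1))} (hz : (fun i => z (i, 0)) ∈ ({0} : Set (Pt K σ))) :
    1 ≤ (aeval (ar z) f : PowerSeries (AlgebraicClosure K)).order := by
  have h1 := (le_order_iff' (aeval (ar z) f : PowerSeries (AlgebraicClosure K)) 1).2 fun i hi => ?_
  · exact_mod_cast h1
  · obtain rfl : i = 0 := by omega
    rw [coeff_zero_aevalK]
    have h1 : (fun i => PowerSeries.coeff 0 (ar z i)) = (0 : σ → AlgebraicClosure K) := by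
      funext i
      rw [coeff_ar_zero]
      exact congrFun hz i
    rw [h1]
    have h2 : aeval (0 : σ → AlgebraicClosure K) f
        = algebraMap K _ (constantCoeff f) := aeval_zero _
    rw [h2, h0, map_zero]

theorem mem_jet_iff (f : MvPolynomial σ K) (W : Set (Pt K σ)) (d : ℕ)
    (z : Pt K (σ × Fin (d + 1))) : z ∈ JetS f W {c | c ≠ 0} d ↔ z ∈ OJ f W d d := by
  unfold JetS OJ
  constructor
  · rintro ⟨h1, h2, h3⟩
    exact ⟨h1, PowerSeries.order_eq_nat.2 ⟨h3, h2⟩⟩
  · rintro ⟨h1, h2⟩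
    have h3 := PowerSeries.order_eq_nat.1 h2
    exact ⟨h1, h3.2, h3.1⟩

/-- **External products.** -/
theorem aa_prod (v : R) (hv : M.L * v = 1) (f : MvPolynomial σ K) (g : MvPolynomial τ K)
    (hf : constantCoeff f = 0) (hg : constantCoeff g = 0) (d : ℕ) :
    aa M v (rename Sum.inl f * rename Sum.inr g : MvPolynomial (σ ⊕ τ) K) {0} d =
      ∑ p ∈ Finset.HasAntidiagonal.antidiagonal d, (if p.1 = 0 then 0 else aa M v f {0} p.1) *
        (if p.2 = 0 then 0 else aa M v g {0} p.2) := by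
  classical
  let e : (σ × Fin (d + 1)) ⊕ (τ × Fin (d + 1)) ≃ (σ ⊕ τ) × Fin (d + 1) :=
    (Equiv.sumProdDistrib σ τ (Fin (d + 1))).symm
  let A : Finset (ℕ × ℕ) := (Finset.HasAntidiagonal.antidiagonal d).filter fun p => ¬ (p.1 = 0 ∨ p.2 = 0)
  let PS : ℕ × ℕ → Set (Pt K ((σ ⊕ τ) × Fin (d + 1))) := fun p =>
    {z | (fun i => z (e (Sum.inl i))) ∈ OJ f {0} d p.1 ∧
      (fun i => z (e (Sum.inr i))) ∈ OJ g {0} d p.2}
  have h1 : ∀ p, Constr (PS p) ∧ M.χ _ (PS p) = M.χ _ (OJ f {0} d p.1) * M.χ _ (OJ g {0} d p.2) :=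
    fun p => chi_prod M e (PS p) _ _ (constr_OJ f constr0 d p.1) (constr_OJ g constr0 d p.2)
      fun z => Iff.rfl
  have h2 := chi_sum M A PS (fun p _ => (h1 p).1) (by
    intro p hp q hq hpq
    rw [Set.disjoint_left]
    rintro z ⟨⟨_, h3⟩, ⟨_, h4⟩⟩ ⟨⟨_, h5⟩, ⟨_, h6⟩⟩
    apply hpq
    rw [h3, Nat.cast_inj] at h5
    rw [h4, Nat.cast_inj] at h6
    exact Prod.ext h5 h6)
  have h3 : JetS (rename Sum.inl f * rename Sum.inr g : MvPolynomial (σ ⊕ τ) K) {0}
      {c | c ≠ 0} d = {z | ∃ p ∈ A, z ∈ PS p} := by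
    ext z
    rw [mem_jet_iff]
    unfold OJ
    rw [Set.mem_ofPred_eq, Set.mem_ofPred_eq, aeval_prod, PowerSeries.order_mul]
    constructor
    · rintro ⟨h3, h4⟩
      have h5 : (fun i : σ => z (e (Sum.inl (i, 0)))) ∈ ({0} : Set (Pt K σ)) := by
        funext i
        exact congrFun h3 (Sum.inl i)
      have h6 : (fun i : τ => z (e (Sum.inr (i, 0)))) ∈ ({0} : Set (Pt K τ)) := by
        funext i
        exact congrFun h3 (Sum.inr i)
      have h7 := order_zero_lt hf (z := fun i => z (e (Sum.inl i))) h5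
      have h8 := order_zero_lt hg (z := fun i => z (e (Sum.inr i))) h6
      have h9 : (aeval (ar fun i => z (e (Sum.inl i))) f : PowerSeries (AlgebraicClosure K)).order +
        (aeval (ar fun i => z (e (Sum.inr i))) g : PowerSeries (AlgebraicClosure K)).order = d := h4
      obtain ⟨a, ha⟩ := ENat.ne_top_iff_exists.1 (show (aeval (ar fun i => z (e (Sum.inl i))) f :
        PowerSeries (AlgebraicClosure K)).order ≠ ⊤ from fun h => by
          rw [h, top_add] at h9; exact ENat.natCast_ne_top d h9.symm)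
      obtain ⟨b, hb⟩ := ENat.ne_top_iff_exists.1 (show (aeval (ar fun i => z (e (Sum.inr i))) g :
        PowerSeries (AlgebraicClosure K)).order ≠ ⊤ from fun h => by
          rw [h, add_top] at h9; exact ENat.natCast_ne_top d h9.symm)
      rw [← ha, ← hb] at h9
      rw [← ha] at h7
      rw [← hb] at h8
      have h10 : a + b = d := by exact_mod_cast h9
      have h11 : 1 ≤ a := by exact_mod_cast h7
      have h12 : 1 ≤ b := by exact_mod_cast h8
      refine ⟨(a, b), Finset.mem_filter.2 ⟨Finset.HasAntidiagonal.mem_antidiagonal.2 h10, by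
        simp only; omega⟩, ⟨h5, ha.symm⟩, ⟨h6, hb.symm⟩⟩
    · rintro ⟨p, hp, ⟨h4, h5⟩, ⟨h6, h7⟩⟩
      have h8 := Finset.HasAntidiagonal.mem_antidiagonal.1 (Finset.mem_filter.1 hp).1
      refine ⟨?_, ?_⟩
      · funext i
        rcases i with i | i
        · exact congrFun h4 i
        · exact congrFun h6 i
      · have h9 : (aeval (ar fun i => z (e (Sum.inl i))) f :
            PowerSeries (AlgebraicClosure K)).order + (aeval (ar fun i => z (e (Sum.inr i))) g :
              PowerSeries (AlgebraicClosure K)).order = d := by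
          rw [h5, h7, ← Nat.cast_add, h8]
        exact h9
  rw [aa, h3, h2.2, Finset.sum_mul, Fintype.card_sum, Nat.mul_add, pow_add]
  have h4 : ∀ p ∈ A, M.χ _ (PS p) * (v ^ (d * Fintype.card σ) * v ^ (d * Fintype.card τ)) =
      (if p.1 = 0 then 0 else aa M v f {0} p.1) * (if p.2 = 0 then 0 else aa M v g {0} p.2) := by
    intro p hp
    obtain ⟨h5, h6⟩ := Finset.mem_filter.1 hp
    have h7 := Finset.HasAntidiagonal.mem_antidiagonal.1 h5
    rw [not_or] at h6
    rw [if_neg h6.1, if_neg h6.2, (h1 p).2, ← chi_OJ M v hv f constr0 d p.1 (by omega),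
      ← chi_OJ M v hv g constr0 d p.2 (by omega)]
    ring
  rw [Finset.sum_congr rfl h4, Finset.sum_filter]
  refine Finset.sum_congr rfl fun p _ => ?_
  split_ifs with h5 h6 h7 h8 h9
  all_goals first | rfl | simp | tauto

end Pool.Agent.Helper33K9.FQ.PzL

namespace Pool.Agent.Helper33K9.FQ

open MvPolynomial Pool.Agent.W428.MOT Pool.Agent.TH192.MT Pool.Agent.Helper33K9.HP

theorem pz : S_PZ := by
  intro σ τ _ _ f g hf hg
  obtain ⟨M, hL, hM⟩ := exists_meas ℂ
  have hv : M.L * iL = 1 := by rw [hL, iL, Units.mul_inv]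
  rw [zetaO_eq M hM, zetaO_eq M hM, zetaO_eq M hM, Fintype.card_sum, pow_add, map_mul]
  have h1 : zA M iL (rename Sum.inl f * rename Sum.inr g : MvPolynomial (σ ⊕ τ) ℂ) =
      zA M iL f * zA M iL g := by
    ext d
    rw [PowerSeries.coeff_mul, zA, zA, zA, PowerSeries.coeff_mk]
    simp only [PowerSeries.coeff_mk]
    rw [← PzL.aa_prod M iL hv f g hf hg]
    split_ifs with h
    · subst h
      rw [PzL.aa_prod M iL hv f g hf hg]
      simp
    · rfl
  rw [h1]
  ring

end Pool.Agent.Helper33K9.FQ
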