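import Pool.Agent.Helper33K9.FQ.St

set_option autoImplicit false

namespace Pool.Agent.Helper33K9.FQ

namespace RootL

open PowerSeries in
theorem uni (k : ℕ) (hk : 0 < k) :
    (binomialSeries ℂ (1 / k : ℚ) : PowerSeries ℂ) ^ k = 1 + PowerSeries.X := by
  have h : ∀ m : ℕ, (binomialSeries ℂ (1 / k : ℚ) : PowerSeries ℂ) ^ m
      = PowerSeries.binomialSeries ℂ ((m : ℚ) * (1 / k) : ℚ) := by
    intro m
    induction m with
    | zero => simp
    | succ m ih =>
      rw [pow_succ, ih, ← binomialSeries_add]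
      congr 1
      push_cast
      ring
  rw [h k]
  have hk' : (k : ℚ) ≠ 0 := by exact_mod_cast hk.ne'
  have h1 : ((k : ℚ) * (1 / k) : ℚ) = ((1 : ℕ) : ℚ) := by
    field_simp
    simp
  rw [h1, binomialSeries_nat]
  simp

end RootL

theorem root : S_ROOT := by
  intro σ _ u k hk hu
  set c := MvPowerSeries.constantCoeff u with hc
  obtain ⟨d, hd⟩ : ∃ d : ℂ, d ^ k = c := IsAlgClosed.exists_pow_nat_eq c hk
  set z : MvPowerSeries σ ℂ := MvPowerSeries.C c⁻¹ * u - 1 with hz
  have hz0 : MvPowerSeries.constantCoeff z = 0 := by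
    rw [hz, map_sub, map_mul, MvPowerSeries.constantCoeff_C, ← hc, inv_mul_cancel₀ hu, map_one,
      sub_self]
  have hs : PowerSeries.HasSubst z := PowerSeries.HasSubst.of_constantCoeff_zero hz0
  refine ⟨MvPowerSeries.C d *
    PowerSeries.substAlgHom (R := ℂ) hs (PowerSeries.binomialSeries ℂ (1 / k : ℚ)), ?_⟩
  rw [mul_pow, ← map_pow, ← map_pow, RootL.uni k hk, hd, map_add, map_one,
    PowerSeries.substAlgHom_X, hz, add_sub_cancel, ← mul_assoc, ← map_mul,
    mul_inv_cancel₀ hu, map_one, one_mul]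

end Pool.Agent.Helper33K9.FQ
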