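import Pool.Agent.Helper33K9.FQ.St2

set_option autoImplicit false

/-! # Families over a line: translations -/

namespace Pool.Agent.Helper33K9.FQ

open MvPolynomial

/-- degree at most `d` in the variables `some i` -/
def DD {n : ℕ} (d : ℕ) (q : MvPolynomial (Option (Fin n)) ℂ) : Prop :=
  ∀ m ∈ q.support, ∑ i, m (some i) ≤ d

section

variable {n : ℕ}

theorem DD.add {d : ℕ} {p q : MvPolynomial (Option (Fin n)) ℂ} (hp : DD d p) (hq : DD d q) :
    DD d (p + q) := by
  classical
  intro m hm
  rcases Finset.mem_union.1 (support_add hm) with h | h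
  · exact hp m h
  · exact hq m h

theorem DD.neg {d : ℕ} {p : MvPolynomial (Option (Fin n)) ℂ} (hp : DD d p) : DD d (-p) := by
  intro m hm
  rw [support_neg] at hm
  exact hp m hm

theorem DD.mul {d e : ℕ} {p q : MvPolynomial (Option (Fin n)) ℂ} (hp : DD d p) (hq : DD e q) :
    DD (d + e) (p * q) := by
  classical
  intro m hm
  obtain ⟨a, ha, b, hb, rfl⟩ := Finset.mem_add.1 (support_mul p q hm)
  simp only [Finsupp.add_apply, Finset.sum_add_distrib]
  exact add_le_add (hp a ha) (hq b hb)

theorem DD.mono {d e : ℕ} {p : MvPolynomial (Option (Fin n)) ℂ} (hp : DD d p) (h : d ≤ e) :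
    DD e p := fun m hm => (hp m hm).trans h

theorem DD_C (d : ℕ) (c : ℂ) : DD (n := n) d (C c) := by
  intro m hm
  rw [mem_support_iff, coeff_C] at hm
  split_ifs at hm with h
  · rw [← h]
    simp
  · exact absurd rfl hm

theorem DD_X_none : DD (n := n) 0 (X none) := by
  classical
  intro m hm
  rw [support_X, Finset.mem_singleton] at hm
  rw [hm]
  simp

theorem DD_X_some (i : Fin n) : DD (n := n) 1 (X (some i)) := by
  classical
  intro m hm
  rw [support_X, Finset.mem_singleton] at hm
  rw [hm]
  have : ∀ j : Fin n, (Finsupp.single (some i) 1 : Option (Fin n) →₀ ℕ) (some j) =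
      if j = i then 1 else 0 := by
    intro j
    rw [Finsupp.single_apply]
    simp [eq_comm]
  simp only [this]
  simp

theorem DD.pow {d : ℕ} {p : MvPolynomial (Option (Fin n)) ℂ} (hp : DD d p) (k : ℕ) :
    DD (k * d) (p ^ k) := by
  induction k with
  | zero =>
    rw [pow_zero]
    exact (DD_C _ 1)
  | succ k ih =>
    rw [pow_succ, Nat.succ_mul]
    exact ih.mul hp

theorem DD.prod {ι : Type} (s : Finset ι) (d : ι → ℕ) (p : ι → MvPolynomial (Option (Fin n)) ℂ)
    (hp : ∀ i ∈ s, DD (d i) (p i)) : DD (∑ i ∈ s, d i) (∏ i ∈ s, p i) := by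
  classical
  induction s using Finset.induction_on with
  | empty => exact DD_C _ 1
  | insert a s ha ih =>
    rw [Finset.sum_insert ha, Finset.prod_insert ha]
    exact (hp a (Finset.mem_insert_self _ _)).mul
      (ih fun i hi => hp i (Finset.mem_insert_of_mem hi))

theorem DD.sum {ι : Type} (s : Finset ι) (d : ℕ) (p : ι → MvPolynomial (Option (Fin n)) ℂ)
    (hp : ∀ i ∈ s, DD d (p i)) : DD d (∑ i ∈ s, p i) := by
  classical
  induction s using Finset.induction_on with
  | empty =>
    intro m hm
    simp at hm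
  | insert a s ha ih =>
    rw [Finset.sum_insert ha]
    exact (hp a (Finset.mem_insert_self _ _)).add
      (ih fun i hi => hp i (Finset.mem_insert_of_mem hi))

theorem DD_trn {d : ℕ} {q : MvPolynomial (Option (Fin n)) ℂ} (hq : DD d q)
    (p : Option (Fin n) → ℂ) : DD d (trn p q) := by
  classical
  unfold trn
  rw [aeval_def, eval₂_eq']
  refine DD.sum _ _ _ fun m hm => ?_
  have h1 : DD (∑ i, (if i = none then 0 else m i)) (∏ i, (X i + C (p i) :
      MvPolynomial (Option (Fin n)) ℂ) ^ m i) := by
    refine DD.prod _ _ _ fun i _ => ?_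
    rcases i with _ | i
    · have := ((DD_X_none (n := n)).add (DD_C 0 (p none))).pow (m none)
      simpa using this
    · have := ((DD_X_some i).add (DD_C 1 (p (some i)))).pow (m (some i))
      simpa using this
  have h2 : (∑ i, (if i = none then 0 else m i)) = ∑ i, m (some i) := by
    rw [Fintype.sum_option]
    simp
  rw [h2] at h1
  have h3 := ((DD_C 0 (coeff m q)).mul h1).mono (e := d) (by
    rw [zero_add]
    exact hq m hm)
  exact h3

theorem DD_poly (b : Polynomial ℂ) : DD (n := n) 0 (Polynomial.aeval (X none) b) := by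
  rw [Polynomial.aeval_eq_sum_range]
  refine DD.sum _ _ _ fun i _ => ?_
  rw [Algebra.smul_def]
  have h1 := (DD_X_none (n := n)).pow i
  have h2 := (DD_C (n := n) 0 (b.coeff i)).mul h1
  simpa using h2

end

section

variable {Ω Ω' : Type}

theorem trn_rename (e : Ω → Ω') (p : Ω' → ℂ) (f : MvPolynomial Ω ℂ) :
    trn p (rename e f) = rename e (trn (fun i => p (e i)) f) := by
  unfold trn
  rw [aeval_rename]
  have : ((rename e).comp (aeval fun i => X i + C (p (e i)) : MvPolynomial Ω ℂ →ₐ[ℂ]
      MvPolynomial Ω ℂ)) = aeval ((fun i => X i + C (p i)) ∘ e) := by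
    refine algHom_ext fun i => ?_
    simp
  rw [← this]
  rfl

theorem trn_poly (x : Ω) (p : Ω → ℂ) (b : Polynomial ℂ) :
    trn p (Polynomial.aeval (X x) b) =
      Polynomial.aeval (X x) (b.comp (Polynomial.X + Polynomial.C (p x))) := by
  unfold trn
  rw [Polynomial.aeval_comp, ← Polynomial.aeval_algHom_apply, aeval_X]
  congr 1
  simp [Polynomial.aeval_C]

theorem cc_trn (p : Ω → ℂ) (f : MvPolynomial Ω ℂ) : constantCoeff (trn p f) = eval p f := by
  unfold trn
  have : (constantCoeff.comp (aeval fun i => X i + C (p i) : MvPolynomial Ω ℂ →ₐ[ℂ]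
      MvPolynomial Ω ℂ).toRingHom) = eval p := by
    refine ringHom_ext (fun r => ?_) fun i => ?_
    · simp
    · simp
  rw [← this]
  rfl

theorem trn_add (p : Ω → ℂ) (f g : MvPolynomial Ω ℂ) : trn p (f + g) = trn p f + trn p g :=
  map_add _ _ _

theorem trn_mul (p : Ω → ℂ) (f g : MvPolynomial Ω ℂ) : trn p (f * g) = trn p f * trn p g :=
  map_mul _ _ _

theorem trn_sum {ι : Type} (s : Finset ι) (p : Ω → ℂ) (f : ι → MvPolynomial Ω ℂ) :
    trn p (∑ i ∈ s, f i) = ∑ i ∈ s, trn p (f i) := map_sum _ _ _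

end

/-- translations of families over a line -/
theorem node_trn {n : ℕ} {κ : Type} [Fintype κ] {τ : κ → Type}
    (q : MvPolynomial (Option (Fin n)) ℂ) (a : κ → Polynomial ℂ)
    (g : ∀ k, MvPolynomial (τ k) ℂ) (hq : DD 2 q)
    (p : Option (Fin n) ⊕ (Σ k, τ k) → ℂ) :
    ∃ (Q : MvPolynomial (Option (Fin n)) ℂ) (b : κ → Polynomial ℂ), DD 2 Q ∧
      constantCoeff Q = 0 ∧
      trn p (node q a g) - C (eval p (node q a g)) =
        node Q b fun k => trn (fun i => p (Sum.inr ⟨k, i⟩)) (g k) -
          C (eval (fun i => p (Sum.inr ⟨k, i⟩)) (g k)) := by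
  set P := eval p (node q a g) with hP
  set b : κ → Polynomial ℂ := fun k => (a k).comp
    (Polynomial.X + Polynomial.C (p (Sum.inl none))) with hb
  set Q : MvPolynomial (Option (Fin n)) ℂ := trn (fun i => p (Sum.inl i)) q +
    (∑ k, C (eval (fun i => p (Sum.inr ⟨k, i⟩)) (g k)) * Polynomial.aeval (X none) (b k)) +
    -(C P) with hQ
  have key : trn p (node q a g) - C P =
      node Q b fun k => trn (fun i => p (Sum.inr ⟨k, i⟩)) (g k) -
          C (eval (fun i => p (Sum.inr ⟨k, i⟩)) (g k)) := by
    unfold node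
    rw [trn_add, trn_rename, trn_sum, hQ, map_add, map_add, map_sum, map_neg, rename_C]
    have h1 : ∀ k, trn p (Polynomial.aeval (X (Sum.inl none)) (a k) *
        rename (fun i : τ k => (Sum.inr (Sigma.mk k i) : Option (Fin n) ⊕ Σ k, τ k)) (g k)) =
        rename Sum.inl (C (eval (fun i => p (Sum.inr ⟨k, i⟩)) (g k)) *
          Polynomial.aeval (X none) (b k)) +
        Polynomial.aeval (X (Sum.inl none)) (b k) *
        rename (fun i : τ k => (Sum.inr (Sigma.mk k i) : Option (Fin n) ⊕ Σ k, τ k))
          (trn (fun i => p (Sum.inr ⟨k, i⟩)) (g k) -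
          C (eval (fun i => p (Sum.inr ⟨k, i⟩)) (g k))) := by
      intro k
      rw [trn_mul, trn_poly, trn_rename, map_mul, rename_C, map_sub, rename_C,
        ← Polynomial.aeval_algHom_apply, rename_X]
      ring
    simp only [h1]
    rw [Finset.sum_add_distrib]
    ring
  refine ⟨Q, b, ?_, ?_, key⟩
  · refine (DD.add (DD.add (DD_trn hq _) (DD.sum _ _ _ fun k _ => ?_)) ((DD_C _ _).neg))
    exact ((DD_C 0 _).mul (DD_poly (b k))).mono (by omega)
  · have h1 := congrArg constantCoeff key
    rw [map_sub, cc_trn, constantCoeff_C, ← hP, sub_self] at h1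
    unfold node at h1
    rw [map_add, map_sum, constantCoeff_rename] at h1
    rw [Finset.sum_eq_zero, add_zero] at h1
    · exact h1.symm
    · intro k _
      rw [map_mul, constantCoeff_rename, map_sub, cc_trn, constantCoeff_C, sub_self, mul_zero]

end Pool.Agent.Helper33K9.FQ
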