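import Pool.Agent.Helper33K9.FQ.St3
import Pool.Agent.Helper33K9.FQ.Node1
import Pool.Agent.Helper33K9.FQ.Inv
import Pool.Agent.Helper33K9.FQ.Co
import Pool.Agent.Helper33K9.FQ.Emb
import Pool.Agent.Helper33K9.FQ.Asm

/-!
[SUM] sums of locally formally sparse polynomials in separate variables.
-/

set_option autoImplicit false

namespace Pool.Agent.Helper33K9.FQ

namespace SumL

open MvPowerSeries

theorem single_inst {α : Type} (I J : DecidableEq α) (k : α) :
    @Pi.single α (fun _ => ℂ) _ I k 1 = @Pi.single α (fun _ => ℂ) _ J k 1 := by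
  have h : I = J := Subsingleton.elim _ _
  rw [h]

theorem coe_mon {Ω : Type} [Fintype Ω] {r : ℕ} (m : Fin r → Ω → ℕ) :
    ((∑ j, ∏ i, MvPolynomial.X i ^ m j i : MvPolynomial Ω ℂ) : MvPowerSeries Ω ℂ) =
      ∑ j, ∏ i, X i ^ m j i := by
  rw [← MvPolynomial.coeToMvPowerSeries.ringHom_apply, map_sum]
  refine Finset.sum_congr rfl fun j _ => ?_
  rw [map_prod]
  refine Finset.prod_congr rfl fun i _ => ?_
  rw [map_pow, MvPolynomial.coeToMvPowerSeries.ringHom_apply, MvPolynomial.coe_X]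

theorem li_sum {Ω Ω' J J' : Type} [Fintype J] [Fintype J'] (m : J → Ω → ℕ) (m' : J' → Ω' → ℕ)
    (h : LinearIndependent ℚ (fun j i => (m j i : ℚ)))
    (h' : LinearIndependent ℚ (fun j i => (m' j i : ℚ))) :
    LinearIndependent ℚ (fun (o : J ⊕ J') (ω : Ω ⊕ Ω') =>
      ((Sum.elim (fun j => Sum.elim (m j) 0) (fun j => Sum.elim 0 (m' j)) o ω : ℕ) : ℚ)) := by
  rw [Fintype.linearIndependent_iff] at h h' ⊢
  intro g hg
  rw [Fintype.sum_sum_type] at hg
  have h1 : ∀ j, g (Sum.inl j) = 0 := by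
    refine h (fun j => g (Sum.inl j)) ?_
    funext i
    have h2 := congrFun hg (Sum.inl i)
    rw [Pi.add_apply, Finset.sum_apply, Finset.sum_apply] at h2
    rw [Finset.sum_apply]
    simpa using h2
  have h3 : ∀ j, g (Sum.inr j) = 0 := by
    refine h' (fun j => g (Sum.inr j)) ?_
    funext i
    have h2 := congrFun hg (Sum.inr i)
    rw [Pi.add_apply, Finset.sum_apply, Finset.sum_apply] at h2
    rw [Finset.sum_apply]
    simpa using h2
  rintro (j | j)
  · exact h1 j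
  · exact h3 j

variable {Ω Ω' : Type} [Fintype Ω] [Fintype Ω']

open EmbL in
theorem coords_sum (y : Ω → MvPowerSeries Ω ℂ) (y' : Ω' → MvPowerSeries Ω' ℂ) (hy : Coords y)
    (hy' : Coords y') :
    Coords (Sum.elim (fun i => rename (Sum.inl : Ω → Ω ⊕ Ω') (y i))
      fun i => rename (Sum.inr : Ω' → Ω ⊕ Ω') (y' i)) := by
  classical
  refine ⟨?_, ?_⟩
  · rintro (i | i)
    · rw [Sum.elim_inl, constantCoeff_rename, hy.1]
    · rw [Sum.elim_inr, constantCoeff_rename, hy'.1]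
  · rintro (i | i)
    · have h4 := Submodule.mem_map_of_mem (f := ext0 (Function.Embedding.inl : Ω ↪ Ω ⊕ Ω')) (hy.2 i)
      rw [ext0_single, Submodule.map_span] at h4
      have h5 : (Pi.single (Sum.inl i) (1 : ℂ) : Ω ⊕ Ω' → ℂ) =
          @Pi.single (Ω ⊕ Ω') (fun _ => ℂ) _ (fun a b => Classical.propDecidable (a = b))
            (Sum.inl i) 1 := single_inst _ _ _
      change (Pi.single (Sum.inl i) (1 : ℂ) : Ω ⊕ Ω' → ℂ) ∈ _ at h4
      rw [h5] at h4
      refine Submodule.span_mono ?_ h4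
      rintro _ ⟨_, ⟨k, rfl⟩, rfl⟩
      refine ⟨Sum.inl k, ?_⟩
      change lin (rename (⇑(Function.Embedding.inl : Ω ↪ Ω ⊕ Ω')) (y k)) = _
      rw [lin_rename]
    · have h4 := Submodule.mem_map_of_mem (f := ext0 (Function.Embedding.inr : Ω' ↪ Ω ⊕ Ω')) (hy'.2 i)
      rw [ext0_single, Submodule.map_span] at h4
      have h5 : (Pi.single (Sum.inr i) (1 : ℂ) : Ω ⊕ Ω' → ℂ) =
          @Pi.single (Ω ⊕ Ω') (fun _ => ℂ) _ (fun a b => Classical.propDecidable (a = b))
            (Sum.inr i) 1 := single_inst _ _ _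
      change (Pi.single (Sum.inr i) (1 : ℂ) : Ω ⊕ Ω' → ℂ) ∈ _ at h4
      rw [h5] at h4
      refine Submodule.span_mono ?_ h4
      rintro _ ⟨_, ⟨k, rfl⟩, rfl⟩
      refine ⟨Sum.inr k, ?_⟩
      change lin (rename (⇑(Function.Embedding.inr : Ω' ↪ Ω ⊕ Ω')) (y' k)) = _
      rw [lin_rename]

theorem fs_sum (F : MvPowerSeries Ω ℂ) (G : MvPowerSeries Ω' ℂ) (hF : FS F) (hG : FS G) :
    FS (rename (Sum.inl : Ω → Ω ⊕ Ω') F + rename (Sum.inr : Ω' → Ω ⊕ Ω') G) := by
  obtain ⟨Φ, r, m, hm, h⟩ := hF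
  obtain ⟨Φ', r', m', hm', h'⟩ := hG
  rw [coe_mon, map_sum] at h h'
  have hc := coords_sum _ _ (co Ω Φ) (co Ω' Φ')
  refine AsmL.fs_of inv _ _ hc _ (li_sum m m' hm hm') ?_
  rw [Fintype.sum_sum_type, h, h', map_sum, map_sum]
  congr 1
  · refine Finset.sum_congr rfl fun j _ => ?_
    rw [Fintype.prod_sum_type]
    simp only [Sum.elim_inl, Sum.elim_inr, map_prod, map_pow, Pi.zero_apply, pow_zero,
      Finset.prod_const_one, mul_one]
  · refine Finset.sum_congr rfl fun j _ => ?_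
    rw [Fintype.prod_sum_type]
    simp only [Sum.elim_inl, Sum.elim_inr, map_prod, map_pow, Pi.zero_apply, pow_zero,
      Finset.prod_const_one, one_mul]

end SumL

open SumL in
theorem sum : S_SUM := by
  intro Ω Ω' _ _ f g hf hg p
  have h1 := fs_sum _ _ (hf fun i => p (Sum.inl i)) (hg fun i => p (Sum.inr i))
  rw [MvPowerSeries.rename_coe, MvPowerSeries.rename_coe, ← MvPolynomial.coe_add] at h1
  convert h1 using 2
  rw [trn_add, trn_rename, trn_rename, map_add, map_sub, map_sub, MvPolynomial.rename_C,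
    MvPolynomial.rename_C, MvPolynomial.eval_rename, MvPolynomial.eval_rename, map_add]
  simp only [Function.comp_def]
  ring

end Pool.Agent.Helper33K9.FQ
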