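import Pool.Agent.Helper33K9.FQ.St2

/-!
[WT] weights with prescribed positive value on linearly independent exponents.
-/

set_option autoImplicit false

namespace Pool.Agent.Helper33K9.FQ

theorem wt : S_WT := by
  classical
  intro σ ι _ _ m hm
  obtain ⟨f, hf⟩ : ∃ f : (σ → ℚ) →ₗ[ℚ] ℚ, ∀ j, f (fun i => (m j i : ℚ)) = 1 := by
    let b := Module.Basis.extend (hm.linearIndepOn_id)
    refine ⟨b.constr ℚ fun _ => (1 : ℚ), fun j => ?_⟩
    have h1 : (fun i => (m j i : ℚ)) ∈ Set.range (fun j i => (m j i : ℚ)) := ⟨j, rfl⟩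
    have h2 := (hm.linearIndepOn_id).subset_extend (Set.subset_univ _) h1
    have h3 : b ⟨_, h2⟩ = fun i => (m j i : ℚ) := Module.Basis.extend_apply_self _ _
    rw [← h3, Module.Basis.constr_basis]
  have h1 : ∀ j, ∑ i, (m j i : ℚ) * f (Pi.single i 1) = 1 := by
    intro j
    refine Eq.trans ?_ (hf j)
    rw [LinearMap.pi_apply_eq_sum_univ f fun i => (m j i : ℚ)]
    refine Finset.sum_congr rfl fun i _ => ?_
    rw [smul_eq_mul]
    congr 2
    funext k
    rw [Pi.single_apply]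
    simp only [eq_comm]
  let D : ℕ := ∏ i, (f (Pi.single i 1)).den
  have hD : 0 < D := Finset.prod_pos fun i _ => Rat.den_pos _
  have h2 : ∀ i, ∃ w : ℤ, (w : ℚ) = f (Pi.single i 1) * D := by
    intro i
    obtain ⟨k, hk⟩ : (f (Pi.single i 1)).den ∣ D := Finset.dvd_prod_of_mem _ (Finset.mem_univ i)
    refine ⟨(f (Pi.single i 1)).num * k, ?_⟩
    rw [hk]
    push_cast
    rw [← mul_assoc]
    congr 1
    exact (Rat.mul_den_eq_num _).symm
  choose w hw using h2
  refine ⟨w, D, hD, fun j => ?_⟩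
  have h3 : ((∑ i, w i * (m j i : ℤ) : ℤ) : ℚ) = ((D : ℤ) : ℚ) := by
    push_cast
    rw [← one_mul (D : ℚ), ← h1 j, Finset.sum_mul]
    refine Finset.sum_congr rfl fun i _ => ?_
    rw [hw]
    ring
  exact_mod_cast h3

end Pool.Agent.Helper33K9.FQ
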