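import Pool.Agent.Helper33K9.FQ.Mc
import Pool.Agent.Helper33K9.FQ.Kb
import Pool.Agent.Helper33K9.FQ.Pz
import Pool.Agent.Helper33K9.FQ.Pb
import Pool.Agent.Helper33K9.FQ.Sum
import Pool.Agent.Helper33K9.FQ.Iso
import Pool.Agent.Helper33K9.FQ.Node3
import Pool.Agent.Helper33K9.FQ.Asm
import Pool.Agent.Helper33K9.FQ.Emb
import Pool.Agent.Helper33K9.FQ.Co
import Pool.Agent.Helper33K9.FQ.Wt
import Pool.Agent.Helper33K9.FQ.Inv
import Pool.Agent.Helper33K9.FQ.Root
import Pool.Agent.Helper33K9.FQ.Diag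
import Pool.Agent.Helper33K9.FQ.Poly

set_option autoImplicit false

/-! # The strong motivic monodromy conjecture for formally sparse polynomials: assembly -/

namespace Pool.Agent.Helper33K9.FQ

open MvPolynomial Pool.Agent.H628R4.TP Pool.Agent.W428.MOT Pool.Agent.TH192.MT
  Pool.Agent.Helper33K9.HP

/-- The strong motivic monodromy conjecture at the origin for `f`: there is a finite set of pairs
`(a, b) = (-σ, m)`, `σ, m > 0`, such that `-σ / m` is a root of every `b` with
`b(s) f ^ s = P(s) f ^ (s + 1)`, `P(s)` a differential operator with formal power series coefficients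
at the origin (so of the local Bernstein-Sato polynomial of `f` at the origin), and the local motivic
zeta function of `f` is in the ring generated by `T` and the `1 / (1 - 𝕃 ^ a T ^ b)`. -/
def Strong {Ω : Type} [Fintype Ω] (f : MvPolynomial Ω ℂ) : Prop :=
  ∃ S : Finset (ℤ × ℤ), (∀ p ∈ S, p.1 < 0 ∧ 0 < p.2 ∧ ∀ b : Polynomial ℂ,
    IsLocalBFunction f b → b.eval ((p.1 : ℂ) / p.2) = 0) ∧
    zetaO f ∈ ratRing ℂ (S : Set (ℤ × ℤ))

theorem Strong.mmc {Ω : Type} [Fintype Ω] {f : MvPolynomial Ω ℂ} (h : Strong f) : MMC f := by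
  obtain ⟨S, h1, h2⟩ := h
  refine ⟨S, fun p hp => ⟨(h1 p hp).1, (h1 p hp).2.1, fun b hb => ⟨0, ?_⟩⟩, h2⟩
  rw [Int.cast_zero, add_zero]
  exact (h1 p hp).2.2 b hb

theorem ratRing_mono {S T : Set (ℤ × ℤ)} (h : S ⊆ T) : ratRing ℂ S ≤ ratRing ℂ T := by
  refine Algebra.adjoin_mono (Set.union_subset_union_right _ ?_)
  rintro g ⟨p, hp, rfl⟩
  exact ⟨p, h hp, rfl⟩

/-- external products -/
theorem strong_prod {Ω Ω' : Type} [Fintype Ω] [Fintype Ω'] {f : MvPolynomial Ω ℂ}
    {g : MvPolynomial Ω' ℂ} (hf : f ≠ 0) (hg : g ≠ 0) (hf0 : constantCoeff f = 0)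
    (hg0 : constantCoeff g = 0) (h1 : Strong f) (h2 : Strong g) :
    Strong (rename Sum.inl f * rename Sum.inr g : MvPolynomial (Ω ⊕ Ω') ℂ) := by
  classical
  obtain ⟨S, hS, hZ⟩ := h1
  obtain ⟨S', hS', hZ'⟩ := h2
  refine ⟨S ∪ S', fun p hp => ?_, ?_⟩
  · rcases Finset.mem_union.1 hp with hp | hp
    · exact ⟨(hS p hp).1, (hS p hp).2.1, fun b hb => (hS p hp).2.2 b (pb _ _ f g hg b hb)⟩
    · refine ⟨(hS' p hp).1, (hS' p hp).2.1, fun b hb => (hS' p hp).2.2 b
        (pb _ _ g f hf b ?_)⟩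
      refine bf der _ _ (MvPowerSeries.renameEquiv ℂ (Equiv.sumComm Ω Ω')) _ _ ?_ b hb
      refine (MvPowerSeries.rename_coe _ _).trans ?_
      rw [map_mul, rename_rename, rename_rename, mul_comm]
      rfl
  · rw [pz _ _ f g hf0 hg0, Finset.coe_union]
    exact Subalgebra.mul_mem _ (ratRing_mono Set.subset_union_left hZ)
      (ratRing_mono Set.subset_union_right hZ')

theorem expand_geo {a b : ℤ} (hb : 0 < b) {k : ℕ} (hk : 0 < k) :
    PowerSeries.expand k hk.ne' (geo ℂ a b) = geo ℂ a (k * b) := by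
  have h1 : ∀ {a b : ℤ}, 0 < b → (1 - PowerSeries.C (((Lu ℂ) ^ a : (MK ℂ)ˣ) : MK ℂ) *
      PowerSeries.X ^ b.toNat) * geo ℂ a b = 1 := by
    intro a b hb
    refine PowerSeries.mul_invOfUnit _ 1 ?_
    have : b.toNat ≠ 0 := by omega
    simp [this]
  have h2 := congrArg (PowerSeries.expand k hk.ne') (h1 (a := a) hb)
  rw [map_mul, map_sub, map_one, map_mul, PowerSeries.expand_C, map_pow, PowerSeries.expand_X,
    ← pow_mul, show k * b.toNat = (k * b : ℤ).toNat by
      rw [Int.toNat_mul (by positivity) hb.le, Int.toNat_natCast]] at h2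
  have h3 := h1 (a := a) (b := k * b) (by positivity)
  have h4 := congrArg (fun x => geo ℂ a (k * b) * x) h2
  simp only [mul_one] at h4
  rw [← h4, ← mul_assoc, mul_comm (geo ℂ a (k * b)), h3, one_mul]

/-- powers -/
theorem strong_pow {Ω : Type} [Fintype Ω] {f : MvPolynomial Ω ℂ} (hf0 : constantCoeff f = 0)
    {k : ℕ} (hk : 0 < k) (h : Strong f) : Strong (f ^ k) := by
  classical
  obtain ⟨S, hS, hZ⟩ := h
  refine ⟨S.image fun p => (p.1, (k : ℤ) * p.2), fun p hp => ?_, ?_⟩
  · obtain ⟨q, hq, rfl⟩ := Finset.mem_image.1 hp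
    obtain ⟨h1, h2, h3⟩ := hS q hq
    refine ⟨h1, by positivity, fun b hb => ?_⟩
    have h4 := h3 _ (kb _ f k hk b hb)
    rw [Polynomial.eval_comp, Polynomial.eval_mul, Polynomial.eval_C, Polynomial.eval_X] at h4
    rw [← h4]
    congr 1
    have h5 : (k : ℂ) ≠ 0 := by exact_mod_cast hk.ne'
    have h6 : (q.2 : ℂ) ≠ 0 := by exact_mod_cast h2.ne'
    push_cast
    field_simp
  · have h1 : zetaO (f ^ k) = PowerSeries.expand k hk.ne' (zetaO f) := by
      ext N
      rw [kz _ f k hk hf0 N, PowerSeries.coeff_expand]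
    rw [h1]
    unfold ratRing at hZ
    generalize zetaO f = Z at hZ
    induction hZ using Algebra.adjoin_induction with
    | mem x hx =>
      rcases hx with hx | ⟨p, hp, rfl⟩
      · rw [Set.mem_singleton_iff] at hx
        rw [hx, PowerSeries.expand_X]
        refine Subalgebra.pow_mem _ ?_ _
        exact Algebra.subset_adjoin (Set.mem_union_left _ (Set.mem_singleton _))
      · rw [expand_geo (hS p hp).2.1 hk]
        refine Algebra.subset_adjoin (Set.mem_union_right _ ⟨(p.1, (k : ℤ) * p.2), ?_, rfl⟩)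
        exact Finset.mem_coe.2 (Finset.mem_image_of_mem _ hp)
    | algebraMap r =>
      rw [AlgHom.commutes]
      exact Subalgebra.algebraMap_mem _ _
    | add x y _ _ hx hy =>
      rw [map_add]
      exact Subalgebra.add_mem _ hx hy
    | mul x y _ _ hx hy =>
      rw [map_mul]
      exact Subalgebra.mul_mem _ hx hy

theorem strong_fs {Ω : Type} [Fintype Ω] {f : MvPolynomial Ω ℂ} (hf : f ≠ 0)
    (h : FS (f : MvPowerSeries Ω ℂ)) : Strong f := mc Ω f hf h

theorem node' : S_NODE := node_lfs diag poly co emb (asm inv root wt)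

theorem lfs_quad {n : ℕ} (q : MvPolynomial (Option (Fin n)) ℂ)
    (hq : ∀ m ∈ q.support, ∑ i, m (some i) ≤ 2) : LFS q := by
  have h1 := node' n Empty (fun _ => Empty) q (fun k => k.elim) (fun k => k.elim) hq
    (fun k => k.elim)
  have h2 := iso _ _ (renameEquiv ℂ (Equiv.sumEmpty (Option (Fin n)) (Σ _ : Empty, Empty))) _ h1
  have h3 : renameEquiv ℂ (Equiv.sumEmpty (Option (Fin n)) (Σ _ : Empty, Empty))
      (node (τ := fun _ : Empty => Empty) q (fun k => k.elim) (fun k => k.elim)) = q := by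
    unfold node
    rw [Finset.univ_eq_empty, Finset.sum_empty, add_zero]
    change rename _ (rename _ q) = q
    rw [rename_rename]
    exact (congrFun (congrArg _ rfl) q).trans (rename_id_apply q)
  rw [h3] at h2
  exact h2

theorem trn_ne_zero {Ω : Type} {f : MvPolynomial Ω ℂ} (hf : f ≠ 0) (p : Ω → ℂ) :
    trn p f ≠ 0 := by
  rw [← IsoL.trnE_apply]
  exact (map_ne_zero_iff _ (IsoL.trnE p).injective).2 hf

theorem lfs_strong {Ω : Type} [Fintype Ω] {f : MvPolynomial Ω ℂ} (hf : f ≠ 0) (h : LFS f)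
    (p : Ω → ℂ) (hp : eval p f = 0) : Strong (trn p f) := by
  have h1 := h p
  rw [hp, map_zero, sub_zero] at h1
  exact strong_fs (trn_ne_zero hf p) h1

end Pool.Agent.Helper33K9.FQ
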