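import Pool.Agent.Helper33K9.FQ.Aut

/-!
[DER] the chain rule.
-/

set_option autoImplicit false

namespace Pool.Agent.Helper33K9.FQ

open AutL in
theorem der : S_DER := by
  classical
  intro σ τ _ _ Φ i F
  let D1 : Derivation ℂ (MvPowerSeries τ ℂ) (MvPowerSeries τ ℂ) :=
    Derivation.mk' (Φ.toLinearMap ∘ₗ (MvPowerSeries.pderiv ℂ i).toLinearMap ∘ₗ Φ.symm.toLinearMap)
      (fun a b => by
        change Φ (MvPowerSeries.pderiv ℂ i (Φ.symm (a * b))) = a • Φ (MvPowerSeries.pderiv ℂ i (Φ.symm b))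
          + b • Φ (MvPowerSeries.pderiv ℂ i (Φ.symm a))
        rw [map_mul, Derivation.leibniz, map_add, smul_eq_mul, smul_eq_mul, map_mul, map_mul,
          AlgEquiv.apply_symm_apply, AlgEquiv.apply_symm_apply, smul_eq_mul, smul_eq_mul])
  have hD1 : ∀ H, D1 H = Φ (MvPowerSeries.pderiv ℂ i (Φ.symm H)) := fun H => rfl
  let D2 : Derivation ℂ (MvPowerSeries τ ℂ) (MvPowerSeries τ ℂ) :=
    ∑ j, D1 (MvPowerSeries.X j) • MvPowerSeries.pderiv ℂ j
  have hD2 : ∀ H, D2 H = ∑ j, D1 (MvPowerSeries.X j) * MvPowerSeries.pderiv ℂ j H := by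
    intro H
    simp only [D2]
    rw [← Derivation.coeFnAddMonoidHom_apply, map_sum, Finset.sum_apply]
    rfl
  have h1 := der_zero (D1 - D2) (fun j => by
    rw [Derivation.sub_apply, hD2, Finset.sum_eq_single j]
    · rw [MvPowerSeries.pderiv_X_self, mul_one, sub_self]
    · intro b _ hb
      rw [MvPowerSeries.pderiv_X_of_ne hb.symm, mul_zero]
    · intro h; exact absurd (Finset.mem_univ _) h) (Φ F)
  rw [Derivation.sub_apply, hD2, sub_eq_zero, hD1, AlgEquiv.symm_apply_apply] at h1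
  exact h1

end Pool.Agent.Helper33K9.FQ
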