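import Pool.Agent.Helper33K9.FQ.St

set_option autoImplicit false

/-! # Symmetric matrices over a discrete valuation ring -/

namespace Pool.Agent.Helper33K9.FQ

namespace DiagL

open Matrix

variable {R : Type} [CommRing R]

/-- diagonalisable by congruence -/
def Dg {ι : Type} [Fintype ι] [DecidableEq ι] (A : Matrix ι ι R) : Prop :=
  ∃ P : Matrix ι ι R, IsUnit P.det ∧ (P.transpose * A * P).IsDiag

theorem Dg_cong {ι : Type} [Fintype ι] [DecidableEq ι] {A P₀ : Matrix ι ι R}
    (h₀ : IsUnit P₀.det) (h : Dg (P₀.transpose * A * P₀)) : Dg A := by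
  obtain ⟨P, hP, hd⟩ := h
  refine ⟨P₀ * P, ?_, ?_⟩
  · rw [Matrix.det_mul]
    exact h₀.mul hP
  · have : (P₀ * P).transpose * A * (P₀ * P) = P.transpose * (P₀.transpose * A * P₀) * P := by
      rw [Matrix.transpose_mul]
      simp only [Matrix.mul_assoc]
    rw [this]
    exact hd

theorem Dg_reindex {ι κ : Type} [Fintype ι] [DecidableEq ι] [Fintype κ] [DecidableEq κ]
    (e : ι ≃ κ) {A : Matrix ι ι R} (h : Dg (A.submatrix e.symm e.symm)) : Dg A := by
  obtain ⟨P, hP, hd⟩ := h
  refine ⟨P.submatrix e e, ?_, ?_⟩
  · rwa [Matrix.det_submatrix_equiv_self]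
  · have h1 : (P.submatrix e e).transpose * A * (P.submatrix e e) =
        (P.transpose * A.submatrix e.symm e.symm * P).submatrix e e := by
      have h2 : A = (A.submatrix e.symm e.symm).submatrix e e := by
        ext i j
        simp
      conv_lhs => rw [h2]
      rw [Matrix.transpose_submatrix, Matrix.submatrix_mul_equiv, Matrix.submatrix_mul_equiv]
    rw [h1]
    exact hd.submatrix e.injective

/-- the case in which the first entry divides the first row -/
theorem Dg_good {κ : Type} [Fintype κ] [DecidableEq κ]
    (ih : ∀ C : Matrix κ κ R, C.transpose = C → Dg C)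
    (A : Matrix (Unit ⊕ κ) (Unit ⊕ κ) R) (hA : A.transpose = A)
    (hdvd : ∀ j, A (Sum.inl ()) (Sum.inl ()) ∣ A (Sum.inl ()) (Sum.inr j)) : Dg A := by
  choose c hc using hdvd
  set a := A (Sum.inl ()) (Sum.inl ()) with ha
  have hsym : ∀ i j, A i j = A j i := by
    intro i j
    conv_lhs => rw [← hA]
    rfl
  let C : Matrix κ κ R := Matrix.of fun i j => A (Sum.inr i) (Sum.inr j) - a * c i * c j
  have hC : C.transpose = C := by
    ext i j
    simp only [Matrix.transpose_apply, C, Matrix.of_apply]
    rw [hsym (Sum.inr j) (Sum.inr i)]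
    ring
  obtain ⟨Q, hQ, hd⟩ := ih C hC
  let P₂ : Matrix (Unit ⊕ κ) (Unit ⊕ κ) R :=
    Matrix.fromBlocks 1 (Matrix.of fun _ j => - c j) 0 1
  have hP₂ : IsUnit P₂.det := by
    simp only [P₂, Matrix.det_fromBlocks_zero₂₁, Matrix.det_one, mul_one, isUnit_one]
  apply Dg_cong hP₂
  have hB : P₂.transpose * A * P₂ = Matrix.fromBlocks (Matrix.of fun _ _ => a) 0 0 C := by
    have hA' : A = Matrix.fromBlocks (Matrix.of fun _ _ => a) (Matrix.of fun _ j => a * c j)
        (Matrix.of fun i _ => a * c i) (Matrix.of fun i j => A (Sum.inr i) (Sum.inr j)) := by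
      ext i j
      rcases i with i | i <;> rcases j with j | j
      · rfl
      · simp only [Matrix.fromBlocks_apply₁₂, Matrix.of_apply]
        exact hc j
      · simp only [Matrix.fromBlocks_apply₂₁, Matrix.of_apply]
        rw [hsym]
        exact hc i
      · rfl
    rw [hA']
    simp only [P₂, Matrix.fromBlocks_transpose, Matrix.fromBlocks_multiply]
    ext i j
    rcases i with i | i <;> rcases j with j | j
    · simp
    · simp [Matrix.mul_apply]
    · simp [Matrix.mul_apply]
      ring
    · simp [Matrix.mul_apply, C]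
      ring
  rw [hB]
  refine ⟨Matrix.fromBlocks 1 0 0 Q, ?_, ?_⟩
  · rw [Matrix.det_fromBlocks_zero₂₁, Matrix.det_one, one_mul]
    exact hQ
  · rw [Matrix.fromBlocks_transpose, Matrix.fromBlocks_multiply, Matrix.fromBlocks_multiply]
    simp only [Matrix.transpose_zero, Matrix.transpose_one, Matrix.zero_mul, Matrix.mul_zero,
      add_zero, zero_add, Matrix.one_mul, Matrix.mul_one]
    intro i j hij
    rcases i with i | i <;> rcases j with j | j
    · exact absurd rfl hij
    · simp
    · simp
    · simp only [Matrix.fromBlocks_apply₂₂]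
      exact hd (fun h => hij (by rw [h]))

theorem exists_min {T : Type} [Finite T] [Nonempty T] [IsDomain R] [ValuationRing R] (f : T → R) :
    ∃ t, ∀ t', f t ∣ f t' := by
  classical
  have := Fintype.ofFinite T
  have h : ∀ s : Finset T, s.Nonempty → ∃ t ∈ s, ∀ t' ∈ s, f t ∣ f t' := by
    intro s hs
    induction hs using Finset.Nonempty.cons_induction with
    | singleton a => exact ⟨a, by simp, by simp⟩
    | cons a s ha hs ih =>
      obtain ⟨t, ht, htt⟩ := ih
      rcases ValuationRing.dvd_total (f a) (f t) with h | h
      · refine ⟨a, by simp, ?_⟩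
        intro t' ht'
        rw [Finset.mem_cons] at ht'
        rcases ht' with rfl | ht'
        · exact dvd_rfl
        · exact h.trans (htt t' ht')
      · refine ⟨t, by simp [ht], ?_⟩
        intro t' ht'
        rw [Finset.mem_cons] at ht'
        rcases ht' with rfl | ht'
        · exact h
        · exact htt t' ht'
  obtain ⟨t, _, ht⟩ := h Finset.univ Finset.univ_nonempty
  exact ⟨t, fun t' => ht t' (Finset.mem_univ _)⟩

theorem sym_cong {ι : Type} [Fintype ι] {A P : Matrix ι ι R}
    (hA : A.transpose = A) : (P.transpose * A * P).transpose = P.transpose * A * P := by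
  rw [Matrix.transpose_mul, Matrix.transpose_mul, Matrix.transpose_transpose, hA,
    Matrix.mul_assoc]

/-- the case in which a diagonal entry divides everything -/
theorem Dg_diag {κ : Type} [Fintype κ] [DecidableEq κ]
    (ih : ∀ C : Matrix κ κ R, C.transpose = C → Dg C)
    (A : Matrix (Unit ⊕ κ) (Unit ⊕ κ) R) (hA : A.transpose = A) (i : Unit ⊕ κ)
    (hdvd : ∀ j k, A i i ∣ A j k) : Dg A := by
  apply Dg_reindex (Equiv.swap (Sum.inl ()) i)
  apply Dg_good ih
  · rw [Matrix.transpose_submatrix, hA]
  · intro j
    simp only [Matrix.submatrix_apply, Equiv.symm_swap, Equiv.swap_apply_left]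
    exact hdvd _ _

theorem Dg_step {κ : Type} [Fintype κ] [DecidableEq κ] [IsDomain R] [ValuationRing R]
    (h2 : IsUnit (2 : R)) (ih : ∀ C : Matrix κ κ R, C.transpose = C → Dg C)
    (A : Matrix (Unit ⊕ κ) (Unit ⊕ κ) R) (hA : A.transpose = A) : Dg A := by
  obtain ⟨⟨i, j⟩, hij⟩ := exists_min (fun t : (Unit ⊕ κ) × (Unit ⊕ κ) => A t.1 t.2)
  have hdvd : ∀ k l, A i j ∣ A k l := fun k l => hij (k, l)
  by_cases h : i = j
  · subst h
    exact Dg_diag ih A hA i hdvd
  · have hsym : A j i = A i j := by
      conv_lhs => rw [← hA]
      rfl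
    obtain ⟨s, hs⟩ : A i j ∣ A i i + A j j := dvd_add (hdvd _ _) (hdvd _ _)
    have hu : ∃ c : R, (c = 1 ∨ c = -1) ∧ IsUnit (s + 2 * c) := by
      have h4 : IsUnit ((s + 2 * 1) + (-(s + 2 * (-1)))) := by
        have : (s + 2 * 1) + (-(s + 2 * (-1))) = 2 * 2 := by ring
        rw [this]
        exact h2.mul h2
      rcases IsLocalRing.isUnit_or_isUnit_of_isUnit_add h4 with h5 | h5
      · exact ⟨1, Or.inl rfl, h5⟩
      · refine ⟨-1, Or.inr rfl, ?_⟩
        have := h5.neg
        rwa [neg_neg] at this
    obtain ⟨c, hc, hu⟩ := hu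
    have hc2 : c ^ 2 = 1 := by
      rcases hc with rfl | rfl <;> ring
    have hdet : IsUnit (Matrix.transvection j i c).det := by
      rw [Matrix.det_transvection_of_ne j i (Ne.symm h)]
      exact isUnit_one
    apply Dg_cong hdet
    have hcol : ∀ k l, ((Matrix.transvection j i c).transpose * A *
        (Matrix.transvection j i c)) k l = A k l + (if k = i then c * A j l else 0) +
          (if l = i then c * A k j else 0) +
          (if k = i ∧ l = i then c ^ 2 * A j j else 0) := by
      intro k l
      have e1 : (Matrix.transvection j i c) = 1 + Matrix.single j i c := rfl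
      rw [e1, Matrix.transpose_add, Matrix.transpose_one, Matrix.transpose_single]
      have e5 : (1 + Matrix.single i j c) * A * (1 + Matrix.single j i c) =
          A + Matrix.single i j c * A + A * Matrix.single j i c +
            Matrix.single i j c * A * Matrix.single j i c := by
        noncomm_ring
      rw [e5]
      simp only [Matrix.add_apply]
      have e2 : (Matrix.single i j c * A) k l = if k = i then c * A j l else 0 := by
        by_cases hk : k = i
        · subst hk
          simp
        · rw [Matrix.single_mul_apply_of_ne (h := hk), if_neg hk]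
      have e3 : (A * Matrix.single j i c) k l = if l = i then c * A k j else 0 := by
        by_cases hl : l = i
        · subst hl
          simp [mul_comm]
        · rw [Matrix.mul_single_apply_of_ne (hbj := hl), if_neg hl]
      have e4 : (Matrix.single i j c * A * Matrix.single j i c) k l =
          if k = i ∧ l = i then c ^ 2 * A j j else 0 := by
        by_cases hl : l = i
        · subst hl
          rw [Matrix.mul_single_apply_same]
          by_cases hk : k = l
          · subst hk
            simp
            ring
          · rw [Matrix.single_mul_apply_of_ne (h := hk)]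
            simp [hk]
        · rw [Matrix.mul_single_apply_of_ne (hbj := hl)]
          simp [hl]
      rw [e2, e3, e4]
    apply Dg_diag ih _ (sym_cong hA) i
    have hii : ((Matrix.transvection j i c).transpose * A *
        (Matrix.transvection j i c)) i i = A i j * (s + 2 * c) := by
      rw [hcol]
      simp only [if_true, and_self]
      rw [hc2, hsym]
      linear_combination hs
    intro k l
    rw [hii]
    have h6 : A i j ∣ ((Matrix.transvection j i c).transpose * A *
        (Matrix.transvection j i c)) k l := by
      rw [hcol]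
      refine dvd_add (dvd_add (dvd_add (hdvd _ _) ?_) ?_) ?_
      · split_ifs
        · exact (hdvd _ _).mul_left _
        · exact dvd_zero _
      · split_ifs
        · exact (hdvd _ _).mul_left _
        · exact dvd_zero _
      · split_ifs
        · exact (hdvd _ _).mul_left _
        · exact dvd_zero _
    obtain ⟨u, hu'⟩ := hu
    rw [← hu']
    exact (Units.mul_right_dvd).2 h6

theorem main [IsDomain R] [ValuationRing R] (h2 : IsUnit (2 : R)) (n : ℕ) :
    ∀ A : Matrix (Fin n) (Fin n) R, A.transpose = A → Dg A := by
  induction n with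
  | zero =>
    intro A _
    refine ⟨1, by simp, ?_⟩
    intro i
    exact i.elim0
  | succ n ih =>
    intro A hA
    let e : Fin (n + 1) ≃ Unit ⊕ Fin n :=
      (finSuccEquiv n).trans ((Equiv.optionEquivSumPUnit (Fin n)).trans (Equiv.sumComm _ _))
    apply Dg_reindex e
    apply Dg_step h2 ih
    rw [Matrix.transpose_submatrix, hA]

end DiagL

theorem diag : S_DIAG := by
  intro n A hA
  have h2 : IsUnit (2 : PowerSeries ℂ) := by
    have h : IsUnit (2 : ℂ) := isUnit_iff_ne_zero.2 two_ne_zero
    have h' : IsUnit (PowerSeries.C (2 : ℂ)) := h.map (PowerSeries.C (R := ℂ))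
    rwa [map_ofNat] at h'
  exact DiagL.main h2 n A hA

end Pool.Agent.Helper33K9.FQ
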