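import Pool.Agent.Helper33K9.FQ.Aut

/-!
[JET] invariance of the local motivic zeta function under formal changes of coordinates.
-/

set_option autoImplicit false

namespace Pool.Agent.Helper33K9.FQ

open MvPolynomial Pool.Agent.H628R4.TP Pool.Agent.W428.MOT Pool.Agent.TH192.MT
  Pool.Agent.Helper33K9.HP

namespace JetL

variable {σ : Type} [Fintype σ]

/-- polynomials without terms of degree at most `d` vanish to order `d + 1` on the arcs at the
origin -/
theorem kill {d : ℕ} {h : MvPolynomial σ ℂ}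
    (hh : ((d + 1 : ℕ) : ℕ∞) ≤ (h : MvPowerSeries σ ℂ).order)
    (γ : σ → PowerSeries (AlgebraicClosure ℂ)) (hγ : ∀ i, PowerSeries.coeff 0 (γ i) = 0) :
    ∀ k ≤ d, PowerSeries.coeff k (aeval γ h) = 0 := by
  intro k hk
  have hX : ∀ i, PowerSeries.X ∣ γ i := fun i => by
    rw [PowerSeries.X_dvd_iff, ← PowerSeries.coeff_zero_eq_constantCoeff_apply]
    exact hγ i
  choose δ hδ using hX
  rw [aeval_def, eval₂_eq', map_sum]
  refine Finset.sum_eq_zero fun m hm => ?_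
  have h1 : d + 1 ≤ ∑ i, m i := by
    by_contra hcon
    apply mem_support_iff.1 hm
    rw [← MvPolynomial.coeff_coe]
    apply MvPowerSeries.coeff_of_lt_order
    refine lt_of_lt_of_le ?_ hh
    rw [Finsupp.degree_eq_sum]
    exact_mod_cast not_le.1 hcon
  have h2 : ∏ i, γ i ^ m i = PowerSeries.X ^ (∑ i, m i) * ∏ i, δ i ^ m i := by
    rw [← Finset.prod_pow_eq_pow_sum, ← Finset.prod_mul_distrib]
    exact Finset.prod_congr rfl fun i _ => by rw [← mul_pow, ← hδ]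
  rw [h2, mul_left_comm, PowerSeries.coeff_X_pow_mul', if_neg (by omega)]

/-- the truncation of a formal change of coordinates -/
noncomputable def tr (Φ : MvPowerSeries σ ℂ ≃ₐ[ℂ] MvPowerSeries σ ℂ) (d : ℕ) :
    MvPolynomial σ ℂ →ₐ[ℂ] MvPolynomial σ ℂ :=
  aeval fun i => MvPowerSeries.truncTotal (d + 1) (Φ (MvPowerSeries.X i))

theorem order_trunc (F : MvPowerSeries σ ℂ) (d : ℕ) :
    ((d + 1 : ℕ) : ℕ∞) ≤ (((MvPowerSeries.truncTotal (d + 1) F : MvPolynomial σ ℂ) :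
      MvPowerSeries σ ℂ) - F).order := by
  apply MvPowerSeries.nat_le_order
  intro m hm
  rw [map_sub, MvPolynomial.coeff_coe, MvPowerSeries.coeff_truncTotal _ hm, sub_self]

theorem le_order_sub {F G H : MvPowerSeries σ ℂ} {n : ℕ∞} (h1 : n ≤ (F - G).order)
    (h2 : n ≤ (G - H).order) : n ≤ (F - H).order := by
  have h3 : F - H = (F - G) + (G - H) := by ring
  rw [h3]
  exact (le_min h1 h2).trans MvPowerSeries.min_order_le_add

theorem tr_sub (Φ : MvPowerSeries σ ℂ ≃ₐ[ℂ] MvPowerSeries σ ℂ) (d : ℕ) (f : MvPolynomial σ ℂ) :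
    ((d + 1 : ℕ) : ℕ∞) ≤ (((tr Φ d f : MvPolynomial σ ℂ) : MvPowerSeries σ ℂ)
      - Φ (f : MvPowerSeries σ ℂ)).order := by
  induction f using MvPolynomial.induction_on with
  | C a =>
    have h1 : Φ ((C a : MvPolynomial σ ℂ) : MvPowerSeries σ ℂ) = MvPowerSeries.C a := by
      rw [MvPolynomial.coe_C]
      exact Φ.commutes a
    have h2 : tr Φ d (C a) = C a := by
      rw [tr, aeval_C]
      rfl
    rw [h1, h2, MvPolynomial.coe_C, sub_self, MvPowerSeries.order_zero]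
    exact le_top
  | add p q hp hq =>
    have h1 : ((tr Φ d (p + q) : MvPolynomial σ ℂ) : MvPowerSeries σ ℂ)
        - Φ ((p + q : MvPolynomial σ ℂ) : MvPowerSeries σ ℂ)
        = (((tr Φ d p : MvPolynomial σ ℂ) : MvPowerSeries σ ℂ) - Φ (p : MvPowerSeries σ ℂ))
        + (((tr Φ d q : MvPolynomial σ ℂ) : MvPowerSeries σ ℂ) - Φ (q : MvPowerSeries σ ℂ)) := by
      rw [map_add, MvPolynomial.coe_add, MvPolynomial.coe_add, map_add]
      ring
    rw [h1]
    exact (le_min hp hq).trans MvPowerSeries.min_order_le_add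
  | mul_X p i hp =>
    have h0 : tr Φ d (X i) = MvPowerSeries.truncTotal (d + 1) (Φ (MvPowerSeries.X i)) := by
      rw [tr, aeval_X]
    have h1 : ((tr Φ d (p * X i) : MvPolynomial σ ℂ) : MvPowerSeries σ ℂ)
        - Φ ((p * X i : MvPolynomial σ ℂ) : MvPowerSeries σ ℂ)
        = (((tr Φ d p : MvPolynomial σ ℂ) : MvPowerSeries σ ℂ) - Φ (p : MvPowerSeries σ ℂ))
          * ((tr Φ d (X i) : MvPolynomial σ ℂ) : MvPowerSeries σ ℂ)
        + Φ (p : MvPowerSeries σ ℂ) *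
          (((tr Φ d (X i) : MvPolynomial σ ℂ) : MvPowerSeries σ ℂ) - Φ (MvPowerSeries.X i)) := by
      rw [map_mul, MvPolynomial.coe_mul, MvPolynomial.coe_mul, map_mul, MvPolynomial.coe_X]
      ring
    rw [h1]
    refine le_trans (le_min ?_ ?_) MvPowerSeries.min_order_le_add
    · exact (hp.trans le_self_add).trans MvPowerSeries.le_order_mul
    · rw [h0]
      exact ((order_trunc _ d).trans le_add_self).trans MvPowerSeries.le_order_mul

theorem coe_sub' (f g : MvPolynomial σ ℂ) :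
    ((f - g : MvPolynomial σ ℂ) : MvPowerSeries σ ℂ) = (f : MvPowerSeries σ ℂ) - g := by
  ext m
  rw [map_sub, MvPolynomial.coeff_coe, MvPolynomial.coeff_coe, MvPolynomial.coeff_coe,
    MvPolynomial.coeff_sub]

/-- congruent polynomials agree on the arcs at the origin -/
theorem cg_of_order {d : ℕ} {f g : MvPolynomial σ ℂ}
    (h : ((d + 1 : ℕ) : ℕ∞) ≤ ((f : MvPowerSeries σ ℂ) - g).order)
    {z : Pt ℂ (σ × Fin (d + 1))} (hz : ∀ i, z (i, 0) = 0) :
    Cg d (aeval (ar z) f) (aeval (ar z) g) := by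
  intro k hk
  rw [← coe_sub'] at h
  have h1 := kill h (ar z) (fun i => by rw [coeff_ar_zero, hz]) k hk
  rw [map_sub, map_sub, sub_eq_zero] at h1
  exact h1

theorem center (Φ : MvPowerSeries σ ℂ ≃ₐ[ℂ] MvPowerSeries σ ℂ) {d : ℕ}
    {z : Pt ℂ (σ × Fin (d + 1))} (hz : ∀ i, z (i, 0) = 0) (i : σ) : jT (tr Φ d) z (i, 0) = 0 := by
  change PowerSeries.coeff 0 (aeval (ar z) (tr Φ d (X i))) = 0
  rw [coeff_zero_aevalK]
  have h1 : (fun i => PowerSeries.coeff 0 (ar z i)) = (0 : σ → AlgebraicClosure ℂ) := by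
    funext i
    rw [coeff_ar_zero, hz]
    rfl
  rw [h1]
  have h2 : aeval (0 : σ → AlgebraicClosure ℂ) (tr Φ d (X i))
      = algebraMap ℂ _ (constantCoeff (tr Φ d (X i))) := aeval_zero _
  rw [h2, tr, aeval_X, MvPowerSeries.constantCoeff_truncTotal_eq_ite, if_pos (Nat.succ_pos d),
    MvPowerSeries.one_le_order_iff_constCoeff_eq_zero.1 (AutL.one_le_order_image Φ i), map_zero]

theorem mem_tr (Φ : MvPowerSeries σ ℂ ≃ₐ[ℂ] MvPowerSeries σ ℂ) {f g : MvPolynomial σ ℂ}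
    (hfg : Φ (f : MvPowerSeries σ ℂ) = (g : MvPowerSeries σ ℂ)) {d : ℕ}
    {z : Pt ℂ (σ × Fin (d + 1))} (hz : ∀ i, z (i, 0) = 0) (E : Set (AlgebraicClosure ℂ)) :
    jT (tr Φ d) z ∈ JetS f {0} E d ↔ z ∈ JetS g {0} E d := by
  have h1 := cg_jT (tr Φ d) z f
  have h2 : Cg d (aeval (ar z) (tr Φ d f)) (aeval (ar z) g) := by
    apply cg_of_order _ hz
    rw [← hfg]
    exact tr_sub Φ d f
  have h3 : ∀ k ≤ d, PowerSeries.coeff k (aeval (ar (jT (tr Φ d) z)) f)
      = PowerSeries.coeff k (aeval (ar z) g) := fun k hk => (h1 k hk).trans (h2 k hk)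
  have h4 : (fun i => jT (tr Φ d) z (i, 0)) = fun i => z (i, 0) := by
    funext i
    rw [center Φ hz, hz]
  unfold JetS
  rw [Set.mem_ofPred_eq, Set.mem_ofPred_eq, h4, h3 d le_rfl]
  refine and_congr Iff.rfl (and_congr (forall₂_congr fun j hj => ?_) Iff.rfl)
  rw [h3 j hj.le]

theorem jT_tr (Φ : MvPowerSeries σ ℂ ≃ₐ[ℂ] MvPowerSeries σ ℂ) {d : ℕ}
    {z : Pt ℂ (σ × Fin (d + 1))} (hz : ∀ i, z (i, 0) = 0) :
    jT (tr Φ.symm d) (jT (tr Φ d) z) = z := by
  funext ⟨j, k⟩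
  have h1 := cg_jT (tr Φ d) z (tr Φ.symm d (X j)) k (by have := k.2; omega)
  have h2 : Cg d (aeval (ar z) (tr Φ d (tr Φ.symm d (X j))))
      (aeval (ar z) (X j : MvPolynomial σ ℂ)) := by
    apply cg_of_order _ hz
    refine le_order_sub (tr_sub Φ d _) ?_
    have h3 : (((X j : MvPolynomial σ ℂ)) : MvPowerSeries σ ℂ)
        = Φ (Φ.symm (MvPowerSeries.X j)) := by
      rw [AlgEquiv.apply_symm_apply, MvPolynomial.coe_X]
    rw [h3, ← map_sub]
    refine le_trans ?_ (aut σ σ Φ _)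
    rw [tr, aeval_X]
    exact order_trunc _ d
  have h3 := h2 k (by have := k.2; omega)
  rw [aeval_X, coeff_ar, dif_pos k.2] at h3
  exact h1.trans h3

theorem center_of_mem {f : MvPolynomial σ ℂ} {d : ℕ} {E : Set (AlgebraicClosure ℂ)}
    {z : Pt ℂ (σ × Fin (d + 1))} (h : z ∈ JetS f {0} E d) : ∀ i, z (i, 0) = 0 :=
  fun i => congrFun h.1 i

theorem constr_jet (f : MvPolynomial σ ℂ) (d : ℕ) :
    Constr (JetS f ({0} : Set (Pt ℂ σ)) {c | c ≠ 0} d) := by
  have hW : Constr ({0} : Set (Pt ℂ σ)) := by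
    have h := constr_point (K := ℂ) (fun _ : σ => (0 : ℂ))
    simp only [map_zero] at h
    exact h
  refine Constr.and (hW.preimage _ fun i => IsPF.coord _) (Constr.and ?_ ?_)
  · exact Constr.allLt _ fun k _ => Constr.eqz (pf_ck _ (fun i => IsPF.coord _) _ _)
  · exact Constr.not (Constr.eqz (pf_ck _ (fun i => IsPF.coord _) _ _))

end JetL

open JetL in
theorem jet : S_JET := by
  intro σ _ Φ f g hfg
  obtain ⟨M, -, hM⟩ := exists_meas ℂ
  have hgf : Φ.symm (g : MvPowerSeries σ ℂ) = (f : MvPowerSeries σ ℂ) := by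
    rw [← hfg, AlgEquiv.symm_apply_apply]
  unfold zetaO
  congr 2
  funext l
  rw [← hM, ← hM]
  congr 2
  symm
  refine M.iso _ _ (constr_jet g l) (constr_jet f l) (jT (tr Φ l)) (jT (tr Φ.symm l))
    (regularOn_poly (pf_jT _) _) (regularOn_poly (pf_jT _) _) ?_ ?_ ?_ ?_
  · intro z hz
    exact (mem_tr Φ hfg (center_of_mem hz) _).2 hz
  · intro w hw
    exact (mem_tr Φ.symm hgf (center_of_mem hw) _).2 hw
  · intro z hz
    exact jT_tr Φ (center_of_mem hz)
  · intro w hw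
    have h1 := jT_tr Φ.symm (center_of_mem hw)
    rw [AlgEquiv.symm_symm] at h1
    exact h1

end Pool.Agent.Helper33K9.FQ
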