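import Pool.Agent.Helper33K9.FQ.St3
import Pool.Agent.Helper33K9.HP.Loc

set_option autoImplicit false
set_option linter.unusedSectionVars false
set_option linter.unusedVariables false

/-! # Zeta functions of powers -/

namespace Pool.Agent.Helper33K9.FQ.KzL

open MvPolynomial Pool.Agent.W428.MOT Pool.Agent.TH192.MT Pool.Agent.Helper33K9.HP

theorem le_order_iff' {k : Type} [Field k] (φ : PowerSeries k) (n : ℕ) :
    (n : ℕ∞) ≤ φ.order ↔ ∀ i < n, PowerSeries.coeff i φ = 0 :=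
  ⟨fun h i hi => PowerSeries.coeff_of_lt_order i (lt_of_lt_of_le (by exact_mod_cast hi) h),
    PowerSeries.nat_le_order φ n⟩

theorem le_order_pow {k : Type} [Field k] (φ : PowerSeries k) (m : ℕ) {a : ℕ} (ha : 0 < a) :
    (m : ℕ∞) ≤ (φ ^ a).order ↔ (((m + a - 1) / a : ℕ) : ℕ∞) ≤ φ.order := by
  rw [PowerSeries.order_pow, nsmul_eq_mul]
  induction φ.order using ENat.recTopCoe with
  | top =>
    rw [ENat.mul_top (by exact_mod_cast ha.ne')]
    simp
  | coe b =>
    have h1 : (a : ℕ∞) * (b : ℕ∞) = ((a * b : ℕ) : ℕ∞) := by push_cast; rfl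
    rw [h1, Nat.cast_le, Nat.cast_le, Nat.div_le_iff_le_mul_add_pred ha]
    omega

variable {K : Type} [Field K] {σ : Type} [Fintype σ] {R : Type} [CommRing R] (M : Meas K R)

theorem AJ_pow (f : MvPolynomial σ K) (W : Set (Pt K σ)) (d m : ℕ) {k : ℕ} (hk : 0 < k) :
    AJ (f ^ k) W d m = AJ f W d ((m + k - 1) / k) := by
  ext z
  unfold AJ
  rw [Set.mem_ofPred_eq, Set.mem_ofPred_eq, ← le_order_iff', ← le_order_iff', map_pow,
    le_order_pow _ _ hk]

theorem bb_pow (v : R) (hv : M.L * v = 1) (f : MvPolynomial σ K) {W : Set (Pt K σ)}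
    (hW : Constr W) {k : ℕ} (hk : 0 < k) (m : ℕ) :
    bb M v (f ^ k) W m = bb M v f W ((m + k - 1) / k) := by
  have h1 : (m + k - 1) / k ≤ m + 1 := by
    rw [Nat.div_le_iff_le_mul_add_pred hk]
    have h2 := Nat.le_mul_of_pos_left (m + 1) hk
    omega
  rw [← bb_eq M v hv f hW m _ h1, ← AJ_pow f W m m hk]
  rfl

theorem aa_pow (v : R) (hv : M.L * v = 1) (f : MvPolynomial σ K) {W : Set (Pt K σ)}
    (hW : Constr W) {k : ℕ} (hk : 0 < k) (d : ℕ) :
    aa M v (f ^ k) W d = if k ∣ d then aa M v f W (d / k) else 0 := by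
  rw [aa_eq M v hv _ hW, bb_pow M v hv f hW hk, bb_pow M v hv f hW hk]
  have h1 : d + 1 + k - 1 = (d + k - 1) + 1 := by omega
  rw [h1, Nat.succ_div, show d + k - 1 + 1 = d + k by omega]
  split_ifs with h2 h3 h3
  · obtain ⟨e, rfl⟩ := h3
    rw [aa_eq M v hv _ hW, Nat.mul_div_cancel_left _ hk]
    have h4 : (k * e + k - 1) / k = e := by
      rw [Nat.add_sub_assoc hk, Nat.mul_add_div hk, Nat.div_eq_of_lt (by omega), add_zero]
    rw [h4]
  · exact absurd ((Nat.dvd_add_left dvd_rfl).1 h2) h3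
  · exact absurd ((Nat.dvd_add_left dvd_rfl).2 h3) h2
  · rw [add_zero, sub_self]

theorem constr0 : Constr ({0} : Set (Pt K σ)) := by
  have h := constr_point (K := K) (fun _ : σ => (0 : K))
  simp only [map_zero] at h
  exact h

end Pool.Agent.Helper33K9.FQ.KzL

namespace Pool.Agent.Helper33K9.FQ

open MvPolynomial Pool.Agent.W428.MOT Pool.Agent.TH192.MT Pool.Agent.Helper33K9.HP

theorem kz : S_KZ := by
  intro σ _ f k hk h0 N
  obtain ⟨M, hL, hM⟩ := exists_meas ℂ
  have hv : M.L * iL = 1 := by rw [hL, iL, Units.mul_inv]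
  rw [zetaO_eq M hM, zetaO_eq M hM, PowerSeries.coeff_C_mul, PowerSeries.coeff_C_mul, zA, zA,
    PowerSeries.coeff_mk, PowerSeries.coeff_mk]
  by_cases hN : N = 0
  · subst hN
    simp
  · rw [if_neg hN, KzL.aa_pow M iL hv f KzL.constr0 hk]
    split_ifs with h1 h2
    · exfalso
      obtain ⟨e, rfl⟩ := h1
      rw [Nat.mul_div_cancel_left _ hk] at h2
      exact hN (by rw [h2, mul_zero])
    · rfl
    · exact mul_zero _

end Pool.Agent.Helper33K9.FQ
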