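import Pool.Agent.Helper33K9.FQ.St2
import Pool.Agent.Helper33K9.FQ.Jet
import Pool.Agent.Helper33K9.FQ.Bf
import Pool.Agent.Helper33K9.FQ.Der
import Pool.Agent.TH216.LR.Lr8

set_option autoImplicit false

/-! # The strong motivic monodromy conjecture for formally sparse polynomials -/

namespace Pool.Agent.Helper33K9.FQ

open MvPolynomial Pool.Agent.H628R4.TP Pool.Agent.W428.MOT Pool.Agent.TH192.MT
  Pool.Agent.Helper33K9.HP Pool.Agent.W749.NM

theorem zetaO_eq_zetaN {K : Type} [Field K] {n : ℕ} (f : MvPolynomial (Fin n) K) :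
    zetaO f = zetaN f 0 := by
  unfold zetaO zetaN
  rw [Fintype.card_fin]
  congr 2
  funext l
  by_cases hl : l = 0
  · rw [if_pos hl, if_pos hl]
  · rw [if_neg hl, if_neg hl]
    have h1 : JetS f {0} {c | c ≠ 0} l = JetN f 0 l := by
      ext z
      unfold JetS JetN
      rw [Set.mem_ofPred_eq, Set.mem_ofPred_eq, Set.mem_singleton_iff]
      refine and_congr ?_ Iff.rfl
      constructor
      · intro h i
        have := congrFun h i
        simpa using this
      · intro h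
        funext i
        simpa using h i
    rw [h1]

theorem sparse_fin {n : ℕ} {r : ℕ} (hr : 0 < r) (m : Fin r → Fin n → ℕ)
    (hl : LinearIndependent ℚ (fun j i => (m j i : ℚ))) :
    ∃ S : Finset (ℤ × ℤ), (∀ p ∈ S, p.1 < 0 ∧ 0 < p.2 ∧ ∀ b : Polynomial ℂ,
      IsLocalBFunction (∑ j, ∏ i, X i ^ m j i : MvPolynomial (Fin n) ℂ) b →
        b.eval ((p.1 : ℂ) / p.2) = 0) ∧
      zetaO (∑ j, ∏ i, X i ^ m j i : MvPolynomial (Fin n) ℂ) ∈
        ratRing ℂ (S : Set (ℤ × ℤ)) := by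
  have hm0 : ∀ j, m j ≠ 0 := fun j h => by
    refine hl.ne_zero j ?_
    funext i
    simp [h]
  obtain ⟨S, hS, hz⟩ := Pool.Agent.TH216.LR.ind_loc (k := ℂ) (r := r) (N := n) hr m
    hl.affineIndependent hm0 (fun _ => 1) (fun _ => one_ne_zero)
  have h1 : Pool.Agent.W425.ND.spa m (fun j => algebraMap ℂ ℂ ((fun _ => 1 : Fin r → ℂ) j)) =
      (∑ j, ∏ i, X i ^ m j i : MvPolynomial (Fin n) ℂ) := by
    unfold Pool.Agent.W425.ND.spa
    simp
  refine ⟨S, fun p hp => ?_, ?_⟩
  · have h2 := hS p hp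
    rw [h1] at h2
    exact h2
  · have h2 := hz ℂ {a | a ≠ 0} Pool.Agent.W375.MG.good_units
    rw [h1] at h2
    rw [zetaO_eq_zetaN]
    exact Pool.Agent.TH216.LR.zetaN_mem0 _ _ h2

theorem mc : S_MC := by
  intro Ω _ f hf ⟨Φ, r, m, hl, hF⟩
  classical
  have hr : 0 < r := by
    rcases Nat.eq_zero_or_pos r with h | h
    · exfalso
      subst h
      rw [Finset.univ_eq_empty, Finset.sum_empty, MvPolynomial.coe_zero, map_zero] at hF
      exact hf (MvPolynomial.coe_eq_zero_iff.1 hF)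
    · exact h
  set g : MvPolynomial Ω ℂ := ∑ j, ∏ i, X i ^ m j i with hg
  have h1 : zetaO g = zetaO f := jet Ω Φ g f hF.symm
  have h2 : ∀ b, IsLocalBFunction f b → IsLocalBFunction g b :=
    bf der Ω Ω Φ.symm f g (by rw [hF, AlgEquiv.symm_apply_apply])
  let e : Ω ≃ Fin (Fintype.card Ω) := Fintype.equivFin Ω
  set g' : MvPolynomial (Fin (Fintype.card Ω)) ℂ := rename e g with hg'
  have h3 : ∀ b, IsLocalBFunction g b → IsLocalBFunction g' b :=
    bf der Ω _ (MvPowerSeries.renameEquiv ℂ e) g g' (MvPowerSeries.rename_coe _ g)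
  have h4 : zetaO g' = zetaO g :=
    zetaO_iso (renameEquiv ℂ e) (Fintype.card_fin _).symm
      (fun a => constantCoeff_rename _ _) g
  have h5 : g' = ∑ j, ∏ i, X i ^ (m j (e.symm i)) := by
    rw [hg', hg, map_sum]
    refine Finset.sum_congr rfl fun j _ => ?_
    rw [map_prod, ← Equiv.prod_comp e]
    refine Finset.prod_congr rfl fun i _ => ?_
    rw [map_pow, rename_X, Equiv.symm_apply_apply]
  have h6 : LinearIndependent ℚ (fun (j : Fin r) (i : Fin (Fintype.card Ω)) =>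
      (m j (e.symm i) : ℚ)) := by
    have := hl.map' (LinearMap.funLeft ℚ ℚ e.symm) (by
      rw [LinearMap.ker_eq_bot]
      exact LinearMap.funLeft_injective_of_surjective _ _ _ e.symm.surjective)
    exact this
  obtain ⟨S, hS, hz⟩ := sparse_fin hr (fun j i => m j (e.symm i)) h6
  rw [← h5] at hz hS
  refine ⟨S, fun p hp => ⟨(hS p hp).1, (hS p hp).2.1, fun b hb => ?_⟩, ?_⟩
  · exact (hS p hp).2.2 b (h3 b (h2 b hb))
  · rw [← h1, ← h4]
    exact hz

end Pool.Agent.Helper33K9.FQ
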