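import Pool.Agent.Helper33K9.FQ.Lin

set_option autoImplicit false

/-! # The normal form: one variable at a time -/

namespace Pool.Agent.Helper33K9.FQ

open MvPowerSeries

variable {n : ℕ}

/-- the linear form `x` -/
noncomputable def e0 (n : ℕ) : Option (Fin n) → ℂ := Pi.single none 1

/-- `d w ^ 2 + b w` is `x ^ e u z ^ 2 + k` (type `I`), or `x ^ β z + k` (type `J`), or `0`. -/
inductive Ty where
  | I (e : ℕ) (u : PowerSeries ℂ)
  | J (β : ℕ)
  | K

/-- the value of the term -/
noncomputable def val (n : ℕ) (T : Ty) (z : MvPowerSeries (Option (Fin n)) ℂ) :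
    MvPowerSeries (Option (Fin n)) ℂ :=
  match T with
  | .I e u => X none ^ e * ix n u * z ^ 2
  | .J β => X none ^ β * z
  | .K => 0

theorem lin_ix' (a : PowerSeries ℂ) : ∃ c : ℂ, lin (ix n a) = c • e0 n := lin_ix a

theorem ix_Xpow (e : ℕ) (u : PowerSeries ℂ) :
    ix n (PowerSeries.X ^ e * u) = X none ^ e * ix n u := by
  rw [map_mul, map_pow, ix_X]

theorem one_var (d b : PowerSeries ℂ) (w : MvPowerSeries (Option (Fin n)) ℂ)
    (hw : constantCoeff w = 0) :
    ∃ (T : Ty) (z : MvPowerSeries (Option (Fin n)) ℂ) (k : PowerSeries ℂ),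
      constantCoeff z = 0 ∧ PowerSeries.constantCoeff k = 0 ∧
      (∃ a c : ℂ, a ≠ 0 ∧ lin z = a • lin w + c • e0 n) ∧
      (∀ e u, T = .I e u → PowerSeries.constantCoeff u ≠ 0) ∧
      ix n d * w ^ 2 + ix n b * w = val n T z + ix n k := by
  by_cases hd : d = 0
  · by_cases hb : b = 0
    · refine ⟨.K, w, 0, hw, by simp, ⟨1, 0, one_ne_zero, by simp⟩, (fun e u h => by cases h), ?_⟩
      rw [hd, hb]
      simp [val]
    · obtain ⟨β, u, h1, h2⟩ := exists_ord hb
      refine ⟨.J β, ix n u * w, 0, by rw [map_mul, hw, mul_zero], by simp,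
        ⟨PowerSeries.constantCoeff u, 0, h2, ?_⟩, (fun e u h => by cases h), ?_⟩
      · rw [lin_mul, hw, cc_ix, zero_smul, zero_smul]
      · rw [hd, h1, ix_Xpow]
        simp only [val, map_zero, zero_mul, zero_add, add_zero]
        ring
  · obtain ⟨e, u, h1, h2⟩ := exists_ord hd
    by_cases hX : PowerSeries.X ^ (e + 1) ∣ b
    · obtain ⟨g, hg⟩ := hX
      set h : PowerSeries ℂ := PowerSeries.C (1 / 2) * PowerSeries.X * g * u⁻¹ with hh
      have hu : u * u⁻¹ = 1 := PowerSeries.mul_inv_cancel _ h2
      have h0 : PowerSeries.constantCoeff h = 0 := by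
        rw [hh]
        simp
      have hb : b = 2 * d * h := by
        have h22 : (2 : PowerSeries ℂ) * PowerSeries.C (1 / 2) = 1 := by
          have : (2 : PowerSeries ℂ) = PowerSeries.C 2 := (map_ofNat PowerSeries.C 2).symm
          rw [this, ← map_mul]
          norm_num
        rw [hh, h1, hg]
        calc PowerSeries.X ^ (e + 1) * g
            = (2 * PowerSeries.C (1 / 2)) * (u * u⁻¹) * (PowerSeries.X ^ (e + 1) * g) := by
              rw [h22, hu, one_mul, one_mul]
          _ = _ := by ring
      obtain ⟨c, hc⟩ := lin_ix' (n := n) h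
      refine ⟨.I e u, w + ix n h, - (d * h ^ 2), ?_, ?_, ⟨1, c, one_ne_zero, ?_⟩, ?_, ?_⟩
      · rw [map_add, hw, cc_ix, h0, add_zero]
      · simp [h0]
      · rw [lin_add, hc, one_smul]
      · intro e' u' h'
        cases h'
        exact h2
      · have h3 : ix n d = X none ^ e * ix n u := by rw [h1, ix_Xpow]
        simp only [val, map_neg, map_mul, map_pow, hb, map_ofNat, ← h3]
        ring
    · have hb : b ≠ 0 := fun h => hX (h ▸ dvd_zero _)
      obtain ⟨β, v, h3, h4⟩ := exists_ord hb
      have hβ : β ≤ e := by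
        by_contra hlt
        push Not at hlt
        exact hX (h3 ▸ (pow_dvd_pow _ hlt).mul_right v)
      refine ⟨.J β, (ix n v + ix n (PowerSeries.X ^ (e - β) * u) * w) * w, 0, ?_, by simp,
        ⟨PowerSeries.constantCoeff v, 0, h4, ?_⟩, (fun e u h => by cases h), ?_⟩
      · rw [map_mul, hw, mul_zero]
      · rw [lin_mul, hw, map_add, map_mul, hw, mul_zero, add_zero, cc_ix, zero_smul, zero_smul]
      · have h5 : d = PowerSeries.X ^ β * (PowerSeries.X ^ (e - β) * u) := by
          rw [← mul_assoc, ← pow_add, Nat.add_sub_cancel' hβ, h1]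
        conv_lhs => rw [h5, h3]
        rw [ix_Xpow, ix_Xpow, ix_Xpow]
        simp only [val, map_zero, add_zero]
        ring

/-- the change to the diagonal form -/
theorem diag_form (dg : S_DIAG) (A : Matrix (Fin n) (Fin n) (PowerSeries ℂ))
    (B : Fin n → PowerSeries ℂ) (c : PowerSeries ℂ) (hA : A.transpose = A) :
    ∃ (w : Fin n → MvPowerSeries (Option (Fin n)) ℂ) (d b : Fin n → PowerSeries ℂ),
      (∀ i, constantCoeff (w i) = 0) ∧
      (∀ S : Submodule ℂ (Option (Fin n) → ℂ), (∀ i, lin (w i) ∈ S) →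
        ∀ i, (Pi.single (some i) 1 : Option (Fin n) → ℂ) ∈ S) ∧
      qd A B c (fun i => X (some i)) = (∑ i, (ix n (d i) * w i ^ 2 + ix n (b i) * w i)) + ix n c := by
  classical
  obtain ⟨P, hP, hD⟩ := dg n A hA
  set Q : Matrix (Fin n) (Fin n) (PowerSeries ℂ) := P⁻¹ with hQ
  have hPQ : P * Q = 1 := Matrix.mul_nonsing_inv P hP
  set V : Fin n → MvPowerSeries (Option (Fin n)) ℂ := fun i => X (some i) with hV
  set w : Fin n → MvPowerSeries (Option (Fin n)) ℂ := fun i => ∑ j, ix n (Q i j) * V j with hw
  have hVw : ∀ i, V i = ∑ j, ix n (P i j) * w j := by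
    intro i
    have h1 : ∀ k, ∑ j, ix n (P i j) * ix n (Q j k) = if i = k then 1 else 0 := by
      intro k
      have h2 := congrFun (congrFun hPQ i) k
      rw [Matrix.mul_apply, Matrix.one_apply] at h2
      simp only [← map_mul, ← map_sum, h2]
      split_ifs <;> simp
    calc V i = ∑ k, (if i = k then 1 else 0) * V k := by simp
      _ = ∑ k, (∑ j, ix n (P i j) * ix n (Q j k)) * V k := by simp only [h1]
      _ = ∑ k, ∑ j, ix n (P i j) * ix n (Q j k) * V k := by simp only [Finset.sum_mul]
      _ = ∑ j, ∑ k, ix n (P i j) * ix n (Q j k) * V k := Finset.sum_comm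
      _ = _ := by
        refine Finset.sum_congr rfl fun j _ => ?_
        rw [hw]
        simp only [Finset.mul_sum, mul_assoc]
  have hw0 : ∀ i, constantCoeff (w i) = 0 := by
    intro i
    rw [hw]
    simp only [map_sum, map_mul, hV, constantCoeff_X, mul_zero, Finset.sum_const_zero]
  refine ⟨w, fun i => (P.transpose * A * P) i i, fun i => ∑ j, P j i * B j, hw0, ?_, ?_⟩
  · intro S hS i
    have h1 : lin (V i) = (Pi.single (some i) 1 : Option (Fin n) → ℂ) := lin_X _
    rw [← h1, hVw i, lin_sum]
    refine Submodule.sum_mem _ fun j _ => ?_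
    rw [lin_mul, hw0, zero_smul, add_zero]
    exact S.smul_mem _ (hS j)
  · unfold qd
    congr 1
    rw [Finset.sum_add_distrib]
    congr 1
    · have h1 : ∀ i j, ix n (A i j) * V i * V j =
          ∑ k, ∑ l, ix n (P i k * A i j * P j l) * (w k * w l) := by
        intro i j
        conv_lhs => rw [hVw i, hVw j]
        rw [mul_assoc, Finset.sum_mul_sum, Finset.mul_sum]
        refine Finset.sum_congr rfl fun k _ => ?_
        rw [Finset.mul_sum]
        refine Finset.sum_congr rfl fun l _ => ?_
        rw [map_mul, map_mul]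
        ring
      have h2 : ∀ k l, (∑ i, ∑ j, P i k * A i j * P j l) = (P.transpose * A * P) k l := by
        intro k l
        rw [Matrix.mul_apply]
        simp only [Matrix.mul_apply, Matrix.transpose_apply, Finset.sum_mul]
        exact Finset.sum_comm
      calc ∑ i, ∑ j, ix n (A i j) * V i * V j
          = ∑ i, ∑ j, ∑ k, ∑ l, ix n (P i k * A i j * P j l) * (w k * w l) := by
            simp only [h1]
        _ = ∑ i, ∑ k, ∑ j, ∑ l, ix n (P i k * A i j * P j l) * (w k * w l) :=
            Finset.sum_congr rfl fun i _ => Finset.sum_comm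
        _ = ∑ k, ∑ i, ∑ j, ∑ l, ix n (P i k * A i j * P j l) * (w k * w l) := Finset.sum_comm
        _ = ∑ k, ∑ i, ∑ l, ∑ j, ix n (P i k * A i j * P j l) * (w k * w l) :=
            Finset.sum_congr rfl fun k _ => Finset.sum_congr rfl fun i _ => Finset.sum_comm
        _ = ∑ k, ∑ l, ∑ i, ∑ j, ix n (P i k * A i j * P j l) * (w k * w l) :=
            Finset.sum_congr rfl fun k _ => Finset.sum_comm
        _ = ∑ k, ∑ l, ix n ((P.transpose * A * P) k l) * (w k * w l) := by
            refine Finset.sum_congr rfl fun k _ => Finset.sum_congr rfl fun l _ => ?_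
            rw [← h2 k l]
            simp only [map_sum, Finset.sum_mul]
        _ = ∑ k, ix n ((P.transpose * A * P) k k) * (w k * w k) := by
            refine Finset.sum_congr rfl fun k _ => ?_
            refine Finset.sum_eq_single k (fun l _ hl => ?_) (fun h => absurd (Finset.mem_univ k) h)
            rw [hD hl.symm, map_zero, zero_mul]
        _ = _ := by
            refine Finset.sum_congr rfl fun k _ => ?_
            rw [pow_two]
    · calc ∑ i, ix n (B i) * V i = ∑ i, ∑ j, ix n (P i j * B i) * w j := by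
            refine Finset.sum_congr rfl fun i _ => ?_
            conv_lhs => rw [hVw i]
            rw [Finset.mul_sum]
            refine Finset.sum_congr rfl fun j _ => ?_
            rw [map_mul]
            ring
        _ = ∑ j, ∑ i, ix n (P i j * B i) * w j := Finset.sum_comm
        _ = _ := by
            refine Finset.sum_congr rfl fun j _ => ?_
            rw [map_sum, Finset.sum_mul]

/-- first step -/
theorem stage1 (dg : S_DIAG) (A : Matrix (Fin n) (Fin n) (PowerSeries ℂ))
    (B : Fin n → PowerSeries ℂ) (c : PowerSeries ℂ) (hA : A.transpose = A)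
    (hc : PowerSeries.constantCoeff c = 0) :
    ∃ (T : Fin n → Ty) (z : Fin n → MvPowerSeries (Option (Fin n)) ℂ) (c' : PowerSeries ℂ),
      (∀ i, constantCoeff (z i) = 0) ∧
      (∀ i e u, T i = .I e u → PowerSeries.constantCoeff u ≠ 0) ∧
      PowerSeries.constantCoeff c' = 0 ∧
      (∀ S : Submodule ℂ (Option (Fin n) → ℂ), e0 n ∈ S → (∀ i, lin (z i) ∈ S) →
        ∀ k, (Pi.single k 1 : Option (Fin n) → ℂ) ∈ S) ∧
      qd A B c (fun i => X (some i)) = (∑ i, val n (T i) (z i)) + ix n c' := by
  obtain ⟨w, d, b, h1, h2, h3⟩ := diag_form dg A B c hA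
  choose T z k h4 h5 h6 h7 h8 using fun i => one_var (d i) (b i) (w i) (h1 i)
  refine ⟨T, z, (∑ i, k i) + c, h4, h7, ?_, ?_, ?_⟩
  · rw [map_add, map_sum, hc, add_zero]
    exact Finset.sum_eq_zero fun i _ => h5 i
  · intro S hS hz j
    rcases j with _ | j
    · exact hS
    · refine h2 S (fun i => ?_) j
      obtain ⟨a, c, ha, hac⟩ := h6 i
      have h9 : lin (w i) = a⁻¹ • (lin (z i) - c • e0 n) := by
        rw [hac, add_sub_cancel_right, smul_smul, inv_mul_cancel₀ ha, one_smul]
      rw [h9]
      exact S.smul_mem _ (S.sub_mem (hz i) (S.smul_mem _ hS))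
  · rw [h3]
    simp only [h8]
    rw [Finset.sum_add_distrib, map_add, map_sum, add_assoc]

end Pool.Agent.Helper33K9.FQ
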