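import Pool.Agent.Helper33K9.FQ.Pz
import Pool.Agent.Helper33K9.FQ.Cl

set_option autoImplicit false
set_option linter.unusedSectionVars false
set_option linter.unusedVariables false

/-! # External products, at points where one factor does not vanish -/

namespace Pool.Agent.Helper33K9.FQ.PzL

open MvPolynomial Pool.Agent.W428.MOT Pool.Agent.TH192.MT Pool.Agent.Helper33K9.HP
  Pool.Agent.Helper33K9.FQ.KzL

variable {K : Type} [Field K] {σ τ : Type} [Fintype σ] [Fintype τ] {R : Type} [CommRing R]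
  (M : Meas K R)

/-- **External products.** -/
theorem aa_prod0 (v : R) (hv : M.L * v = 1) (f : MvPolynomial σ K) (g : MvPolynomial τ K)
    (d : ℕ) :
    aa M v (rename Sum.inl f * rename Sum.inr g : MvPolynomial (σ ⊕ τ) K) {0} d =
      ∑ p ∈ Finset.HasAntidiagonal.antidiagonal d, aa M v f {0} p.1 * aa M v g {0} p.2 := by
  classical
  let e : (σ × Fin (d + 1)) ⊕ (τ × Fin (d + 1)) ≃ (σ ⊕ τ) × Fin (d + 1) :=
    (Equiv.sumProdDistrib σ τ (Fin (d + 1))).symm
  let A : Finset (ℕ × ℕ) := Finset.HasAntidiagonal.antidiagonal d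
  let PS : ℕ × ℕ → Set (Pt K ((σ ⊕ τ) × Fin (d + 1))) := fun p =>
    {z | (fun i => z (e (Sum.inl i))) ∈ OJ f {0} d p.1 ∧
      (fun i => z (e (Sum.inr i))) ∈ OJ g {0} d p.2}
  have h1 : ∀ p, Constr (PS p) ∧ M.χ _ (PS p) = M.χ _ (OJ f {0} d p.1) * M.χ _ (OJ g {0} d p.2) :=
    fun p => chi_prod M e (PS p) _ _ (constr_OJ f constr0 d p.1) (constr_OJ g constr0 d p.2)
      fun z => Iff.rfl
  have h2 := chi_sum M A PS (fun p _ => (h1 p).1) (by
    intro p hp q hq hpq
    rw [Set.disjoint_left]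
    rintro z ⟨⟨_, h3⟩, ⟨_, h4⟩⟩ ⟨⟨_, h5⟩, ⟨_, h6⟩⟩
    apply hpq
    rw [h3, Nat.cast_inj] at h5
    rw [h4, Nat.cast_inj] at h6
    exact Prod.ext h5 h6)
  have h3 : JetS (rename Sum.inl f * rename Sum.inr g : MvPolynomial (σ ⊕ τ) K) {0}
      {c | c ≠ 0} d = {z | ∃ p ∈ A, z ∈ PS p} := by
    ext z
    rw [mem_jet_iff]
    unfold OJ
    rw [Set.mem_ofPred_eq, Set.mem_ofPred_eq, aeval_prod, PowerSeries.order_mul]
    constructor
    · rintro ⟨h3, h4⟩
      have h5 : (fun i : σ => z (e (Sum.inl (i, 0)))) ∈ ({0} : Set (Pt K σ)) := by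
        funext i
        exact congrFun h3 (Sum.inl i)
      have h6 : (fun i : τ => z (e (Sum.inr (i, 0)))) ∈ ({0} : Set (Pt K τ)) := by
        funext i
        exact congrFun h3 (Sum.inr i)
      have h9 : (aeval (ar fun i => z (e (Sum.inl i))) f : PowerSeries (AlgebraicClosure K)).order +
        (aeval (ar fun i => z (e (Sum.inr i))) g : PowerSeries (AlgebraicClosure K)).order = d := h4
      obtain ⟨a, ha⟩ := ENat.ne_top_iff_exists.1 (show (aeval (ar fun i => z (e (Sum.inl i))) f :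
        PowerSeries (AlgebraicClosure K)).order ≠ ⊤ from fun h => by
          rw [h, top_add] at h9; exact ENat.natCast_ne_top d h9.symm)
      obtain ⟨b, hb⟩ := ENat.ne_top_iff_exists.1 (show (aeval (ar fun i => z (e (Sum.inr i))) g :
        PowerSeries (AlgebraicClosure K)).order ≠ ⊤ from fun h => by
          rw [h, add_top] at h9; exact ENat.natCast_ne_top d h9.symm)
      rw [← ha, ← hb] at h9
      have h10 : a + b = d := by exact_mod_cast h9
      exact ⟨(a, b), Finset.HasAntidiagonal.mem_antidiagonal.2 h10, ⟨h5, ha.symm⟩, ⟨h6, hb.symm⟩⟩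
    · rintro ⟨p, hp, ⟨h4, h5⟩, ⟨h6, h7⟩⟩
      have h8 := Finset.HasAntidiagonal.mem_antidiagonal.1 hp
      refine ⟨?_, ?_⟩
      · funext i
        rcases i with i | i
        · exact congrFun h4 i
        · exact congrFun h6 i
      · have h9 : (aeval (ar fun i => z (e (Sum.inl i))) f :
            PowerSeries (AlgebraicClosure K)).order + (aeval (ar fun i => z (e (Sum.inr i))) g :
              PowerSeries (AlgebraicClosure K)).order = d := by
          rw [h5, h7, ← Nat.cast_add, h8]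
        exact h9
  rw [aa, h3, h2.2, Finset.sum_mul, Fintype.card_sum, Nat.mul_add, pow_add]
  refine Finset.sum_congr rfl fun p hp => ?_
  have h7 := Finset.HasAntidiagonal.mem_antidiagonal.1 hp
  rw [(h1 p).2, ← chi_OJ M v hv f constr0 d p.1 (by omega),
    ← chi_OJ M v hv g constr0 d p.2 (by omega)]
  ring

theorem aa_zero (v : R) {g : MvPolynomial σ K} (h0 : constantCoeff g = 0) :
    aa M v g {0} 0 = 0 := by
  have h1 : JetS g ({0} : Set (Pt K σ)) {c | c ≠ 0} 0 = ∅ := by
    ext z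
    rw [mem_jet_iff]
    simp only [Set.mem_empty_iff_false, iff_false]
    rintro ⟨h1, h2⟩
    have h3 := order_zero_lt h0 h1
    rw [h2] at h3
    exact absurd (by exact_mod_cast h3 : 1 ≤ 0) (by norm_num)
  have h2 : Constr (∅ : Set (Pt K (σ × Fin (0 + 1)))) := by
    have h3 : (∅ : Set (Pt K (σ × Fin (0 + 1)))) = {z | ¬ z ∈ (Set.univ : Set _)} := by
      ext z
      simp
    rw [h3]
    exact Constr.not Constr.univ
  have h3 := M.add ∅ ∅ h2 h2 (Set.disjoint_empty _)
  rw [Set.union_empty] at h3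
  rw [aa, h1, left_eq_add.1 h3, zero_mul]

theorem order_unit {f : MvPolynomial σ K} (h0 : constantCoeff f ≠ 0) {d : ℕ}
    {z : Pt K (σ × Fin (d + 1))} (hz : (fun i => z (i, 0)) ∈ ({0} : Set (Pt K σ))) :
    (aeval (ar z) f : PowerSeries (AlgebraicClosure K)).order = 0 := by
  have h1 : PowerSeries.coeff 0 (aeval (ar z) f) ≠ 0 := by
    rw [coeff_zero_aevalK]
    have h1 : (fun i => PowerSeries.coeff 0 (ar z i)) = (0 : σ → AlgebraicClosure K) := by
      funext i
      rw [coeff_ar_zero]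
      exact congrFun hz i
    rw [h1]
    have h2 : aeval (0 : σ → AlgebraicClosure K) f
        = algebraMap K _ (constantCoeff f) := aeval_zero _
    rw [h2]
    exact (map_ne_zero_iff _ (algebraMap K (AlgebraicClosure K)).injective).2 h0
  have h2 := PowerSeries.order_le 0 h1
  exact le_antisymm h2 bot_le

theorem aa_unit_pos (v : R) {f : MvPolynomial σ K} (h0 : constantCoeff f ≠ 0) {i : ℕ}
    (hi : 0 < i) : aa M v f {0} i = 0 := by
  have h1 : JetS f ({0} : Set (Pt K σ)) {c | c ≠ 0} i = ∅ := by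
    ext z
    rw [mem_jet_iff]
    simp only [Set.mem_empty_iff_false, iff_false]
    rintro ⟨h1, h2⟩
    rw [order_unit h0 h1] at h2
    have h3 : 0 = i := by exact_mod_cast h2
    omega
  have h2 : Constr (∅ : Set (Pt K (σ × Fin (i + 1)))) := by
    have h3 : (∅ : Set (Pt K (σ × Fin (i + 1)))) = {z | ¬ z ∈ (Set.univ : Set _)} := by
      ext z
      simp
    rw [h3]
    exact Constr.not Constr.univ
  have h3 := M.add ∅ ∅ h2 h2 (Set.disjoint_empty _)
  rw [Set.union_empty] at h3
  rw [aa, h1, left_eq_add.1 h3, zero_mul]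

end Pool.Agent.Helper33K9.FQ.PzL

namespace Pool.Agent.Helper33K9.FQ

open MvPolynomial Pool.Agent.W428.MOT Pool.Agent.TH192.MT Pool.Agent.Helper33K9.HP
  Pool.Agent.H628R4.TP

/-- external products with a unit -/
theorem pz_unit {σ τ : Type} [Fintype σ] [Fintype τ] (f : MvPolynomial σ ℂ)
    (g : MvPolynomial τ ℂ) (hf : constantCoeff f ≠ 0) (hg : constantCoeff g = 0) :
    ∃ c : MK ℂ, zetaO (rename Sum.inl f * rename Sum.inr g : MvPolynomial (σ ⊕ τ) ℂ) =
      PowerSeries.C c * zetaO g := by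
  obtain ⟨M, hL, hM⟩ := exists_meas ℂ
  have hv : M.L * iL = 1 := by rw [hL, iL, Units.mul_inv]
  refine ⟨iL ^ Fintype.card σ * aa M iL f {0} 0, ?_⟩
  rw [zetaO_eq M hM, zetaO_eq M hM, Fintype.card_sum, pow_add]
  have h1 : zA M iL (rename Sum.inl f * rename Sum.inr g : MvPolynomial (σ ⊕ τ) ℂ) =
      PowerSeries.C (aa M iL f {0} 0) * zA M iL g := by
    ext d
    rw [PowerSeries.coeff_C_mul, zA, zA, PowerSeries.coeff_mk, PowerSeries.coeff_mk]
    by_cases h : d = 0
    · rw [if_pos h, if_pos h, mul_zero]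
    · rw [if_neg h, if_neg h, PzL.aa_prod0 M iL hv f g,
        Finset.sum_eq_single (0, d)]
      · intro p hp hne
        have h2 := Finset.HasAntidiagonal.mem_antidiagonal.1 hp
        have h3 : 0 < p.1 := by
          rcases Nat.eq_zero_or_pos p.1 with h3 | h3
          · exact absurd (Prod.ext h3 (by simp only; omega)) hne
          · exact h3
        rw [PzL.aa_unit_pos M iL hf h3, zero_mul]
      · intro h2
        exact absurd (Finset.HasAntidiagonal.mem_antidiagonal.2 (by simp)) h2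
  rw [h1]
  simp only [map_mul, map_pow]
  ring

theorem strong_prod_unit {Ω Ω' : Type} [Fintype Ω] [Fintype Ω'] {f : MvPolynomial Ω ℂ}
    {g : MvPolynomial Ω' ℂ} (hf0 : constantCoeff f ≠ 0)
    (hg0 : constantCoeff g = 0) (h2 : Strong g) :
    Strong (rename Sum.inl f * rename Sum.inr g : MvPolynomial (Ω ⊕ Ω') ℂ) := by
  obtain ⟨S, hS, hZ⟩ := h2
  have hf : f ≠ 0 := by
    rintro rfl
    exact hf0 (map_zero _)
  refine ⟨S, fun p hp => ⟨(hS p hp).1, (hS p hp).2.1, fun b hb => (hS p hp).2.2 b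
      (pb _ _ g f hf b ?_)⟩, ?_⟩
  · refine bf der _ _ (MvPowerSeries.renameEquiv ℂ (Equiv.sumComm Ω Ω')) _ _ ?_ b hb
    refine (MvPowerSeries.rename_coe _ _).trans ?_
    rw [map_mul, rename_rename, rename_rename, mul_comm]
    rfl
  · obtain ⟨c, hc⟩ := pz_unit f g hf0 hg0
    rw [hc]
    refine Subalgebra.mul_mem _ ?_ hZ
    exact (ratRing ℂ (S : Set (ℤ × ℤ))).algebraMap_mem c

/-- isomorphisms of polynomial rings which fix the origin -/
theorem strong_iso {Ω Ω' : Type} [Fintype Ω] [Fintype Ω']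
    (Ψ : MvPolynomial Ω ℂ ≃ₐ[ℂ] MvPolynomial Ω' ℂ)
    (hΨ : ∀ a, constantCoeff (Ψ a) = constantCoeff a) {f : MvPolynomial Ω ℂ} (hf : f ≠ 0)
    (h : Strong f) : Strong (Ψ f) := by
  obtain ⟨S, hS, hZ⟩ := h
  refine ⟨S, fun p hp => ⟨(hS p hp).1, (hS p hp).2.1, fun b hb => (hS p hp).2.2 b ?_⟩, ?_⟩
  · rw [local_UB (by rw [Ne, map_eq_zero_iff Ψ Ψ.injective]; exact hf)] at hb
    obtain ⟨H, hH, hb⟩ := hb
    rw [local_UB hf]
    refine ⟨Ψ.symm H, ?_, ?_⟩
    · rw [← hΨ, AlgEquiv.apply_symm_apply]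
      exact hH
    · have h1 := hb.iso Ψ.symm
      rw [AlgEquiv.symm_apply_apply] at h1
      exact h1
  · rw [zetaO_iso Ψ (le_antisymm (IsoL.card_le Ψ.symm) (IsoL.card_le Ψ)) hΨ]
    exact hZ

/-- the strong conjecture at all points of `f = 0` -/
def StrongAll {Ω : Type} [Fintype Ω] (f : MvPolynomial Ω ℂ) : Prop :=
  ∀ p : Ω → ℂ, eval p f = 0 → Strong (trn p f)

theorem cc_trn' {Ω : Type} (p : Ω → ℂ) (f : MvPolynomial Ω ℂ) :
    constantCoeff (trn p f) = eval p f := cc_trn p f

theorem StrongAll.iso {Ω Ω' : Type} [Fintype Ω] [Fintype Ω']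
    (Φ : MvPolynomial Ω ℂ ≃ₐ[ℂ] MvPolynomial Ω' ℂ) {f : MvPolynomial Ω ℂ} (hf : f ≠ 0)
    (h : StrongAll f) : StrongAll (Φ f) := by
  intro p' hp'
  let p : Ω → ℂ := fun i => eval p' (Φ (X i))
  let Ψ := (IsoL.trnE p).symm.trans (Φ.trans (IsoL.trnE p'))
  have hev : ∀ Q, eval p' (Φ Q) = eval p Q := by
    intro Q
    have : ((eval p').comp (Φ : MvPolynomial Ω ℂ →+* MvPolynomial Ω' ℂ)) = eval p := by
      refine ringHom_ext (fun r => ?_) fun i => ?_
      · have h1 : Φ (C r) = C r := Φ.commutes r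
        change eval p' (Φ (C r)) = eval p (C r)
        rw [h1, eval_C, eval_C]
      · change eval p' (Φ (X i)) = eval p (X i)
        rw [eval_X]
    exact RingHom.congr_fun this Q
  have h1 : Ψ (trn p f) = trn p' (Φ f) := by
    change trn p' (Φ ((IsoL.trnE p).symm (IsoL.trnE p f))) = _
    rw [AlgEquiv.symm_apply_apply]
  have h0 : ∀ a, constantCoeff (Ψ a) = constantCoeff a := by
    intro a
    obtain ⟨a, rfl⟩ := (IsoL.trnE p).surjective a
    change constantCoeff (trn p' (Φ ((IsoL.trnE p).symm (IsoL.trnE p a)))) =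
      constantCoeff (trn p a)
    rw [AlgEquiv.symm_apply_apply, cc_trn, cc_trn, hev]
  rw [← h1]
  exact strong_iso Ψ h0 (trn_ne_zero hf p) (h p (by rw [← hev]; exact hp'))

theorem StrongAll.pow {Ω : Type} [Fintype Ω] {f : MvPolynomial Ω ℂ} (h : StrongAll f) {k : ℕ}
    (hk : 0 < k) : StrongAll (f ^ k) := by
  intro p hp
  rw [map_pow] at hp
  have h1 := eq_zero_of_pow_eq_zero hp
  have h2 : trn p (f ^ k) = trn p f ^ k := map_pow _ _ _
  rw [h2]
  exact strong_pow (by rw [cc_trn]; exact h1) hk (h p h1)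

theorem StrongAll.prod {Ω Ω' : Type} [Fintype Ω] [Fintype Ω'] {f : MvPolynomial Ω ℂ}
    {g : MvPolynomial Ω' ℂ} (hf : f ≠ 0) (hg : g ≠ 0) (h1 : StrongAll f) (h2 : StrongAll g) :
    StrongAll (rename Sum.inl f * rename Sum.inr g : MvPolynomial (Ω ⊕ Ω') ℂ) := by
  intro p hp
  have e1 : trn p (rename Sum.inl f * rename Sum.inr g : MvPolynomial (Ω ⊕ Ω') ℂ) =
      rename Sum.inl (trn (fun i => p (Sum.inl i)) f) *
        rename Sum.inr (trn (fun i => p (Sum.inr i)) g) := by
    have h3 : trn p (rename Sum.inl f * rename Sum.inr g : MvPolynomial (Ω ⊕ Ω') ℂ) =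
      trn p (rename Sum.inl f) * trn p (rename Sum.inr g) := map_mul _ _ _
    rw [h3, trn_rename, trn_rename]
  rw [map_mul, eval_rename, eval_rename] at hp
  rw [e1]
  by_cases hf0 : eval (fun i => p (Sum.inl i)) f = 0
  · by_cases hg0 : eval (fun i => p (Sum.inr i)) g = 0
    · exact strong_prod (trn_ne_zero hf _) (trn_ne_zero hg _) (by rw [cc_trn]; exact hf0)
        (by rw [cc_trn]; exact hg0) (h1 _ hf0) (h2 _ hg0)
    · have h4 := strong_prod_unit (f := trn (fun i => p (Sum.inr i)) g)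
        (g := trn (fun i => p (Sum.inl i)) f) (by rw [cc_trn]; exact hg0)
        (by rw [cc_trn]; exact hf0) (h1 _ hf0)
      have h5 := strong_iso (renameEquiv ℂ (Equiv.sumComm Ω' Ω)) (fun a => by
        change constantCoeff (rename _ a) = _
        exact constantCoeff_rename _ _) (by
          refine mul_ne_zero ?_ ?_
          · exact (map_ne_zero_iff _ (rename_injective _ Sum.inl_injective)).2
              (trn_ne_zero hg _)
          · exact (map_ne_zero_iff _ (rename_injective _ Sum.inr_injective)).2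
              (trn_ne_zero hf _)) h4
      have h6 : renameEquiv ℂ (Equiv.sumComm Ω' Ω)
          (rename Sum.inl (trn (fun i => p (Sum.inr i)) g) *
            rename Sum.inr (trn (fun i => p (Sum.inl i)) f)) =
          rename Sum.inl (trn (fun i => p (Sum.inl i)) f) *
            rename Sum.inr (trn (fun i => p (Sum.inr i)) g) := by
        change rename _ _ = _
        rw [map_mul, rename_rename, rename_rename, mul_comm]
        rfl
      rw [h6] at h5
      exact h5
  · have hg0 : eval (fun i => p (Sum.inr i)) g = 0 := by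
      rcases mul_eq_zero.1 hp with h | h
      · exact absurd h hf0
      · exact h
    exact strong_prod_unit (by rw [cc_trn]; exact hf0) (by rw [cc_trn]; exact hg0) (h2 _ hg0)

end Pool.Agent.Helper33K9.FQ
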