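import Pool.Agent.Helper33K9.HP.LMC

set_option autoImplicit false

/-! # Families of quadrics over a line: statements of the leaves -/

namespace Pool.Agent.Helper33K9.FQ

open Pool.Agent.H628R4.TP Pool.Agent.W428.MOT Pool.Agent.TH192.MT Pool.Agent.Helper33K9.HP

/-- the linear part of a power series -/
noncomputable def lin {σ : Type} (F : MvPowerSeries σ ℂ) : σ → ℂ :=
  fun k => MvPowerSeries.coeff (Finsupp.single k 1) F

/-- [INV] formal inverse function theorem: power series `y i` without constant terms whose linear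
parts span all linear forms are a system of coordinates. -/
def S_INV : Prop :=
  ∀ (σ : Type) [Fintype σ] [DecidableEq σ] (y : σ → MvPowerSeries σ ℂ),
    (∀ i, MvPowerSeries.constantCoeff (y i) = 0) →
    (∀ i, (Pi.single i (1 : ℂ) : σ → ℂ) ∈ Submodule.span ℂ (Set.range fun j => lin (y j))) →
    ∃ Φ : MvPowerSeries σ ℂ ≃ₐ[ℂ] MvPowerSeries σ ℂ, ∀ i, Φ (MvPowerSeries.X i) = y i

/-- [ROOT] roots of units -/
def S_ROOT : Prop :=
  ∀ (σ : Type) [Fintype σ] (u : MvPowerSeries σ ℂ) (k : ℕ), 0 < k →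
    MvPowerSeries.constantCoeff u ≠ 0 → ∃ v : MvPowerSeries σ ℂ, v ^ k = u

/-- [DIAG] symmetric matrices over `ℂ[[x]]` can be diagonalised -/
def S_DIAG : Prop :=
  ∀ (n : ℕ) (A : Matrix (Fin n) (Fin n) (PowerSeries ℂ)), A.transpose = A →
    ∃ P : Matrix (Fin n) (Fin n) (PowerSeries ℂ), IsUnit P.det ∧ (P.transpose * A * P).IsDiag

/-- [AUT] isomorphisms do not decrease the order -/
def S_AUT : Prop :=
  ∀ (σ τ : Type) [Fintype σ] [Fintype τ] (Φ : MvPowerSeries σ ℂ ≃ₐ[ℂ] MvPowerSeries τ ℂ)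
    (F : MvPowerSeries σ ℂ), F.order ≤ (Φ F).order

/-- [DER] chain rule -/
def S_DER : Prop :=
  ∀ (σ τ : Type) [Fintype σ] [Fintype τ] (Φ : MvPowerSeries σ ℂ ≃ₐ[ℂ] MvPowerSeries τ ℂ)
    (i : σ) (F : MvPowerSeries σ ℂ),
    Φ (MvPowerSeries.pderiv ℂ i F) = ∑ j : τ,
      Φ (MvPowerSeries.pderiv ℂ i (Φ.symm (MvPowerSeries.X j))) * MvPowerSeries.pderiv ℂ j (Φ F)

/-- [BF] invariance of the local functional equations under formal changes of coordinates -/
def S_BF : Prop :=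
  ∀ (σ τ : Type) [Fintype σ] [Fintype τ] (Φ : MvPowerSeries σ ℂ ≃ₐ[ℂ] MvPowerSeries τ ℂ)
    (f : MvPolynomial σ ℂ) (g : MvPolynomial τ ℂ),
    Φ (f : MvPowerSeries σ ℂ) = (g : MvPowerSeries τ ℂ) →
    ∀ b : Polynomial ℂ, IsLocalBFunction f b → IsLocalBFunction g b

/-- [JET] invariance of the local motivic zeta function under formal changes of coordinates -/
def S_JET : Prop :=
  ∀ (σ : Type) [Fintype σ] (Φ : MvPowerSeries σ ℂ ≃ₐ[ℂ] MvPowerSeries σ ℂ)
    (f g : MvPolynomial σ ℂ), Φ (f : MvPowerSeries σ ℂ) = (g : MvPowerSeries σ ℂ) →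
    zetaO f = zetaO g

/-- `a(x)`, `x` the variable `none` -/
noncomputable def ix (n : ℕ) : PowerSeries ℂ →ₐ[ℂ] MvPowerSeries (Option (Fin n)) ℂ :=
  PowerSeries.substAlgHom (R := ℂ) (a := (MvPowerSeries.X none : MvPowerSeries (Option (Fin n)) ℂ))
    (PowerSeries.HasSubst.X none)

/-- the quadratic polynomial `∑ a_ij(x) w_i w_j + ∑ b_i(x) w_i + c(x)` in the power series `w i` -/
noncomputable def qd {n : ℕ} (A : Matrix (Fin n) (Fin n) (PowerSeries ℂ))
    (B : Fin n → PowerSeries ℂ) (c : PowerSeries ℂ)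
    (w : Fin n → MvPowerSeries (Option (Fin n)) ℂ) : MvPowerSeries (Option (Fin n)) ℂ :=
  (∑ i, ∑ j, ix n (A i j) * w i * w j) + (∑ i, ix n (B i) * w i) + ix n c

/-- [POLY] polynomials of degree at most two in the `v i = X (some i)` -/
def S_POLY : Prop :=
  ∀ (n : ℕ) (f : MvPolynomial (Option (Fin n)) ℂ), (∀ m ∈ f.support, ∑ i, m (some i) ≤ 2) →
    ∃ (A : Matrix (Fin n) (Fin n) (PowerSeries ℂ)) (B : Fin n → PowerSeries ℂ) (c : PowerSeries ℂ),
      A.transpose = A ∧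
      (f : MvPowerSeries (Option (Fin n)) ℂ) = qd A B c fun i => MvPowerSeries.X (some i)

/-- [NF] the normal form -/
def S_NF : Prop :=
  ∀ (n : ℕ) (A : Matrix (Fin n) (Fin n) (PowerSeries ℂ)) (B : Fin n → PowerSeries ℂ)
    (c : PowerSeries ℂ), A.transpose = A → PowerSeries.constantCoeff c = 0 →
    qd A B c (fun i => MvPowerSeries.X (some i)) ≠ 0 →
    ∃ (Φ : MvPowerSeries (Option (Fin n)) ℂ ≃ₐ[ℂ] MvPowerSeries (Option (Fin n)) ℂ) (r : ℕ)
      (m : Fin r → Option (Fin n) → ℕ), 0 < r ∧ (∀ j, m j ≠ 0) ∧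
      LinearIndependent ℚ (fun j i => (m j i : ℚ)) ∧
      Φ (((∑ j, ∏ i, MvPolynomial.X i ^ m j i : MvPolynomial (Option (Fin n)) ℂ)) :
        MvPowerSeries (Option (Fin n)) ℂ) = qd A B c fun i => MvPowerSeries.X (some i)

end Pool.Agent.Helper33K9.FQ
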