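import Pool.Agent.Helper33K9.FQ.St

set_option autoImplicit false

/-! # Formally sparse germs: statements of the leaves -/

namespace Pool.Agent.Helper33K9.FQ

open Pool.Agent.H628R4.TP Pool.Agent.W428.MOT Pool.Agent.TH192.MT Pool.Agent.Helper33K9.HP

open Classical in
/-- The `y i` are a formal system of coordinates at the origin. -/
def Coords {Ω : Type} (y : Ω → MvPowerSeries Ω ℂ) : Prop :=
  (∀ i, MvPowerSeries.constantCoeff (y i) = 0) ∧
  ∀ i, (Pi.single i (1 : ℂ) : Ω → ℂ) ∈ Submodule.span ℂ (Set.range fun j => lin (y j))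

/-- `F` is formally sparse: in suitable formal coordinates at the origin it is a sum of (finitely
many) monomials with linearly independent exponents. -/
def FS {Ω : Type} [Fintype Ω] (F : MvPowerSeries Ω ℂ) : Prop :=
  ∃ (Φ : MvPowerSeries Ω ℂ ≃ₐ[ℂ] MvPowerSeries Ω ℂ) (r : ℕ) (m : Fin r → Ω → ℕ),
    LinearIndependent ℚ (fun j i => (m j i : ℚ)) ∧
    F = Φ (((∑ j, ∏ i, MvPolynomial.X i ^ m j i : MvPolynomial Ω ℂ)) : MvPowerSeries Ω ℂ)

/-- [CO] the images of the variables under an automorphism are coordinates -/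
def S_CO : Prop :=
  ∀ (Ω : Type) [Fintype Ω] (Φ : MvPowerSeries Ω ℂ ≃ₐ[ℂ] MvPowerSeries Ω ℂ),
    Coords fun i => Φ (MvPowerSeries.X i)

/-- [EMB] coordinates in blocks of variables -/
def S_EMB : Prop :=
  ∀ (Ω I : Type) [Fintype Ω] [Fintype I] (B : I → Type) [∀ b, Fintype (B b)]
    (E : (Σ b, B b) ≃ Ω) (y : ∀ b, B b → MvPowerSeries (B b) ℂ), (∀ b, Coords (y b)) →
    Coords fun ω => MvPowerSeries.rename (fun i : B (E.symm ω).1 => E ⟨(E.symm ω).1, i⟩)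
      (y (E.symm ω).1 (E.symm ω).2)

/-- [WT] weights -/
def S_WT : Prop :=
  ∀ (σ ι : Type) [Fintype σ] [Fintype ι] (m : ι → σ → ℕ),
    LinearIndependent ℚ (fun j i => (m j i : ℚ)) →
    ∃ (w : σ → ℤ) (D : ℕ), 0 < D ∧ ∀ j, ∑ i, w i * (m j i : ℤ) = D

/-- [ASM] Let `x_s = y (E (inl s))`, `z_i = y (E (inr i))` be coordinates, the `z_i` divided into
blocks, `G_k = ∑_j z ^ (m j)`, `own j = k`, a sum of monomials in the `z_i` of the block `k`. If all the
`m j` are linearly independent then `F = ∑_k u_k x ^ (e k) G_k + u₀ x ^ γ` is formally sparse, for all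
`u_k` and `u₀` which are zero or units. -/
def S_ASM : Prop :=
  ∀ (Ω S σ κ ι : Type) [Fintype Ω] [Fintype S] [Fintype σ] [Fintype κ] [DecidableEq κ] [Fintype ι]
    (E : S ⊕ σ ≃ Ω) (y : Ω → MvPowerSeries Ω ℂ), Coords y →
    ∀ (m : ι → σ → ℕ), LinearIndependent ℚ (fun j i => (m j i : ℚ)) →
    ∀ (own : ι → κ) (blk : σ → κ), (∀ j i, m j i ≠ 0 → blk i = own j) →
    ∀ (e : κ → S → ℕ) (u : κ → MvPowerSeries Ω ℂ),
      (∀ k, u k = 0 ∨ MvPowerSeries.constantCoeff (u k) ≠ 0) →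
    ∀ (γ : S → ℕ) (u₀ : MvPowerSeries Ω ℂ),
      (u₀ = 0 ∨ (γ ≠ 0 ∧ MvPowerSeries.constantCoeff u₀ ≠ 0)) →
      FS ((∑ k, u k * (∏ s, y (E (Sum.inl s)) ^ e k s) *
          ∑ j, if own j = k then ∏ i, y (E (Sum.inr i)) ^ m j i else 0) +
        u₀ * ∏ s, y (E (Sum.inl s)) ^ γ s)

/-- the polynomial `f(p + x)` -/
noncomputable def trn {Ω : Type} (p : Ω → ℂ) (f : MvPolynomial Ω ℂ) : MvPolynomial Ω ℂ :=
  MvPolynomial.aeval (fun i => MvPolynomial.X i + MvPolynomial.C (p i)) f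

/-- `f` is locally formally sparse: for all points `p`, `f(p + x) - f(p)` is formally sparse. -/
def LFS {Ω : Type} [Fintype Ω] (f : MvPolynomial Ω ℂ) : Prop :=
  ∀ p : Ω → ℂ, FS ((trn p f - MvPolynomial.C (MvPolynomial.eval p f) : MvPolynomial Ω ℂ) :
    MvPowerSeries Ω ℂ)

/-- The polynomial `q(x, u) + ∑_k a_k(x) g_k(v_k)`, `x` the variable `inl none`, `u_i` the variables
`inl (some i)`, `v_k` the block of the variables `inr ⟨k, i⟩`. -/
noncomputable def node {n : ℕ} {κ : Type} [Fintype κ] {τ : κ → Type}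
    (q : MvPolynomial (Option (Fin n)) ℂ) (a : κ → Polynomial ℂ)
    (g : ∀ k, MvPolynomial (τ k) ℂ) : MvPolynomial (Option (Fin n) ⊕ Σ k, τ k) ℂ :=
  MvPolynomial.rename Sum.inl q +
    ∑ k, Polynomial.aeval (MvPolynomial.X (Sum.inl none) :
        MvPolynomial (Option (Fin n) ⊕ Σ k, τ k) ℂ) (a k) *
      MvPolynomial.rename (fun i : τ k => (Sum.inr (Sigma.mk k i) : Option (Fin n) ⊕ Σ k, τ k)) (g k)

/-- [NODE] families over a line -/
def S_NODE : Prop :=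
  ∀ (n : ℕ) (κ : Type) [Fintype κ] (τ : κ → Type) [∀ k, Fintype (τ k)]
    (q : MvPolynomial (Option (Fin n)) ℂ) (a : κ → Polynomial ℂ)
    (g : ∀ k, MvPolynomial (τ k) ℂ),
    (∀ m ∈ q.support, ∑ i, m (some i) ≤ 2) → (∀ k, LFS (g k)) → LFS (node q a g)

/-- [MC] the strong motivic monodromy conjecture for formally sparse polynomials -/
def S_MC : Prop :=
  ∀ (Ω : Type) [Fintype Ω] (f : MvPolynomial Ω ℂ), f ≠ 0 → FS (f : MvPowerSeries Ω ℂ) →
    ∃ S : Finset (ℤ × ℤ), (∀ p ∈ S, p.1 < 0 ∧ 0 < p.2 ∧ ∀ b : Polynomial ℂ,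
      IsLocalBFunction f b → b.eval ((p.1 : ℂ) / p.2) = 0) ∧
      zetaO f ∈ ratRing ℂ (S : Set (ℤ × ℤ))

end Pool.Agent.Helper33K9.FQ
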