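import Pool.Agent.Helper33K9.FQ.St2

set_option autoImplicit false

/-! # Further statements: sums, isomorphisms, external products and powers -/

namespace Pool.Agent.Helper33K9.FQ

open Pool.Agent.H628R4.TP Pool.Agent.W428.MOT Pool.Agent.TH192.MT Pool.Agent.Helper33K9.HP

/-- [SUM] sums in separate variables -/
def S_SUM : Prop :=
  ∀ (Ω Ω' : Type) [Fintype Ω] [Fintype Ω'] (f : MvPolynomial Ω ℂ) (g : MvPolynomial Ω' ℂ),
    LFS f → LFS g →
      LFS (MvPolynomial.rename Sum.inl f + MvPolynomial.rename Sum.inr g :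
        MvPolynomial (Ω ⊕ Ω') ℂ)

/-- [ISO] isomorphisms of polynomial rings -/
def S_ISO : Prop :=
  ∀ (Ω Ω' : Type) [Fintype Ω] [Fintype Ω'] (Φ : MvPolynomial Ω ℂ ≃ₐ[ℂ] MvPolynomial Ω' ℂ)
    (f : MvPolynomial Ω ℂ), LFS f → LFS (Φ f)

/-- [PZ] zeta functions of external products -/
def S_PZ : Prop :=
  ∀ (σ τ : Type) [Fintype σ] [Fintype τ] (f : MvPolynomial σ ℂ) (g : MvPolynomial τ ℂ),
    MvPolynomial.constantCoeff f = 0 → MvPolynomial.constantCoeff g = 0 →
    zetaO (MvPolynomial.rename Sum.inl f * MvPolynomial.rename Sum.inr g :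
      MvPolynomial (σ ⊕ τ) ℂ) = zetaO f * zetaO g

/-- [PB] functional equations of external products -/
def S_PB : Prop :=
  ∀ (σ τ : Type) [Fintype σ] [Fintype τ] (f : MvPolynomial σ ℂ) (g : MvPolynomial τ ℂ),
    g ≠ 0 → ∀ b : Polynomial ℂ,
    IsLocalBFunction (MvPolynomial.rename Sum.inl f * MvPolynomial.rename Sum.inr g :
      MvPolynomial (σ ⊕ τ) ℂ) b → IsLocalBFunction f b

/-- [KZ] zeta functions of powers -/
def S_KZ : Prop :=
  ∀ (σ : Type) [Fintype σ] (f : MvPolynomial σ ℂ) (k : ℕ), 0 < k →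
    MvPolynomial.constantCoeff f = 0 → ∀ N : ℕ,
    PowerSeries.coeff N (zetaO (f ^ k)) =
      if k ∣ N then PowerSeries.coeff (N / k) (zetaO f) else 0

/-- [KB] functional equations of powers -/
def S_KB : Prop :=
  ∀ (σ : Type) [Fintype σ] (f : MvPolynomial σ ℂ) (k : ℕ), 0 < k → ∀ b : Polynomial ℂ,
    IsLocalBFunction (f ^ k) b →
      IsLocalBFunction f (b.comp (Polynomial.C (1 / (k : ℂ)) * Polynomial.X))

end Pool.Agent.Helper33K9.FQ
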