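import Pool.Agent.Helper33K9.FQ.Cl

set_option autoImplicit false

/-! # The strong motivic monodromy conjecture for formally sparse polynomials: the class -/

namespace Pool.Agent.Helper33K9.FQ

open MvPolynomial Pool.Agent.H628R4.TP Pool.Agent.W428.MOT Pool.Agent.TH192.MT
  Pool.Agent.Helper33K9.HP

/-- The smallest class of polynomials which

* contains the polynomials `q(x, u_1, …, u_n)` of degree at most two in the variables `u_i` (and of
  arbitrary degree in `x`), and with the polynomials `g_k(v_k)`, in separate blocks of variables,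
  contains all the polynomials `q(x, u_1, …, u_n) + ∑_k a_k(x) g_k(v_k)` (`node q a g`), where the
  `a_k` are arbitrary polynomials in one variable;
* with `f(x)` and `g(y)` contains `f(x) + g(y)`;
* is closed under the isomorphisms (automorphisms) of polynomial rings. -/
inductive Cls : (Ω : Type) → [Fintype Ω] → MvPolynomial Ω ℂ → Prop
  | quad {n : ℕ} (q : MvPolynomial (Option (Fin n)) ℂ)
      (hq : ∀ m ∈ q.support, ∑ i, m (some i) ≤ 2) : Cls (Option (Fin n)) q
  | node {n : ℕ} {κ : Type} [Fintype κ] {τ : κ → Type} [∀ k, Fintype (τ k)]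
      (q : MvPolynomial (Option (Fin n)) ℂ) (hq : ∀ m ∈ q.support, ∑ i, m (some i) ≤ 2)
      (a : κ → Polynomial ℂ) (g : ∀ k, MvPolynomial (τ k) ℂ) (hg : ∀ k, Cls (τ k) (g k)) :
      Cls (Option (Fin n) ⊕ Σ k, τ k) (node q a g)
  | sum {Ω Ω' : Type} [Fintype Ω] [Fintype Ω'] (f : MvPolynomial Ω ℂ) (g : MvPolynomial Ω' ℂ)
      (hf : Cls Ω f) (hg : Cls Ω' g) : Cls (Ω ⊕ Ω') (rename Sum.inl f + rename Sum.inr g)
  | iso {Ω Ω' : Type} [Fintype Ω] [Fintype Ω'] (Φ : MvPolynomial Ω ℂ ≃ₐ[ℂ] MvPolynomial Ω' ℂ)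
      (f : MvPolynomial Ω ℂ) (hf : Cls Ω f) : Cls Ω' (Φ f)

theorem Cls.lfs {Ω : Type} [Fintype Ω] {f : MvPolynomial Ω ℂ} (h : Cls Ω f) : LFS f := by
  induction h with
  | quad q hq => exact lfs_quad q hq
  | node q hq a g hg ih => exact node' _ _ _ q a g hq ih
  | sum f g hf hg ihf ihg => exact Pool.Agent.Helper33K9.FQ.sum _ _ f g ihf ihg
  | iso Φ f hf ih => exact Pool.Agent.Helper33K9.FQ.iso _ _ Φ f ih

end Pool.Agent.Helper33K9.FQ
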