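import Pool.Agent.Helper33K9.FQ.Top
import Pool.Agent.Helper33K9.FQ.Pz2

set_option autoImplicit false

/-! # The strong motivic monodromy conjecture: products, powers and isomorphisms -/

namespace Pool.Agent.Helper33K9.FQ

open MvPolynomial Pool.Agent.H628R4.TP Pool.Agent.W428.MOT Pool.Agent.TH192.MT
  Pool.Agent.Helper33K9.HP

/-- The smallest class of polynomials which contains the class `Cls`, with `f(x)` and `g(y)` the
product `f(x) g(y)` (in separate variables), with `f` the powers `f ^ k`, and which is closed under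
the isomorphisms (automorphisms) of polynomial rings. -/
inductive Dls : (Ω : Type) → [Fintype Ω] → MvPolynomial Ω ℂ → Prop
  | cls {Ω : Type} [Fintype Ω] (f : MvPolynomial Ω ℂ) (hf : Cls Ω f) : Dls Ω f
  | prod {Ω Ω' : Type} [Fintype Ω] [Fintype Ω'] (f : MvPolynomial Ω ℂ) (g : MvPolynomial Ω' ℂ)
      (hf : Dls Ω f) (hg : Dls Ω' g) : Dls (Ω ⊕ Ω') (rename Sum.inl f * rename Sum.inr g)
  | pow {Ω : Type} [Fintype Ω] (f : MvPolynomial Ω ℂ) (k : ℕ) (hf : Dls Ω f) : Dls Ω (f ^ k)
  | iso {Ω Ω' : Type} [Fintype Ω] [Fintype Ω'] (Φ : MvPolynomial Ω ℂ ≃ₐ[ℂ] MvPolynomial Ω' ℂ)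
      (f : MvPolynomial Ω ℂ) (hf : Dls Ω f) : Dls Ω' (Φ f)

theorem Dls.strong {Ω : Type} [Fintype Ω] {f : MvPolynomial Ω ℂ} (h : Dls Ω f) (hf : f ≠ 0) :
    StrongAll f := by
  induction h with
  | cls f h => exact fun p hp => lfs_strong hf h.lfs p hp
  | prod f g _ _ ih1 ih2 =>
    have h1 : f ≠ 0 := by
      rintro rfl
      exact hf (by rw [map_zero, zero_mul])
    have h2 : g ≠ 0 := by
      rintro rfl
      exact hf (by rw [map_zero, mul_zero])
    exact StrongAll.prod h1 h2 (ih1 h1) (ih2 h2)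
  | pow f k _ ih =>
    rcases Nat.eq_zero_or_pos k with h | h
    · subst h
      intro p hp
      rw [pow_zero, map_one] at hp
      exact absurd hp one_ne_zero
    · have h1 : f ≠ 0 := by
        rintro rfl
        exact hf (zero_pow h.ne')
      exact (ih h1).pow h
  | iso Φ f _ ih =>
    have h1 : f ≠ 0 := by
      rintro rfl
      exact hf (map_zero _)
    exact (ih h1).iso Φ h1

end Pool.Agent.Helper33K9.FQ
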